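import Pool.Agent.T2H73.BL.Basic

/-!
# The stationary law: the probability of the table `N` is proportional to `∏ 1 / N i a !`
-/

set_option autoImplicit false

namespace Pool.Agent.T2H73.BL

open Filter Topology
open scoped BigOperators

variable {d n : ℕ} {μ : Equiv.Perm (Fin d) → ℝ}

namespace EXI

/-- the weight of a table -/
noncomputable def W (N : State d n) : ℝ := ∏ i, ∏ a, (((N.1 i a : ℕ).factorial : ℝ))⁻¹

theorem W_pos (N : State d n) : 0 < W N := by
  unfold W
  exact Finset.prod_pos fun i _ => Finset.prod_pos fun a _ => by positivity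

theorem fac_pick (f g : Fin d → ℕ) (k : Fin d)
    (hg : ∀ a, f a = g a + (if k = a then 1 else 0)) :
    (∏ a, ((f a).factorial : ℝ)⁻¹) * f k = ∏ a, ((g a).factorial : ℝ)⁻¹ := by
  rw [← Finset.mul_prod_erase Finset.univ (fun a => ((f a).factorial : ℝ)⁻¹) (Finset.mem_univ k),
    ← Finset.mul_prod_erase Finset.univ (fun a => ((g a).factorial : ℝ)⁻¹) (Finset.mem_univ k)]
  have h1 : ∏ a ∈ Finset.univ.erase k, ((f a).factorial : ℝ)⁻¹ =
      ∏ a ∈ Finset.univ.erase k, ((g a).factorial : ℝ)⁻¹ := by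
    refine Finset.prod_congr rfl fun a ha => ?_
    have hne : k ≠ a := (Finset.ne_of_mem_erase ha).symm
    rw [hg a, if_neg hne, add_zero]
  rw [h1]
  have h2 : f k = g k + 1 := by
    have := hg k
    rwa [if_pos rfl] at this
  rw [h2, Nat.factorial_succ]
  have h3 : ((g k).factorial : ℝ) ≠ 0 := by positivity
  have h4 : ((g k : ℝ) + 1) ≠ 0 := by positivity
  push_cast
  field_simp

theorem W_step (N N' : State d n) (σ : Equiv.Perm (Fin d)) (c : Fin d → Fin d)
    (h : ∀ i, 1 ≤ (N.1 i (c i) : ℕ)) (hN : N'.toZ = N.toZ + delta σ c) :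
    W N * ∏ i, ((N.1 i (c i) : ℕ) : ℝ) = W N' * ∏ i, ((N'.1 (σ i) (c i) : ℕ) : ℝ) := by
  set M : Fin d → Fin d → ℕ := fun j a => (N.1 j a : ℕ) - (if c j = a then 1 else 0) with hM
  have hM1 : ∀ j a, (N.1 j a : ℕ) = M j a + (if c j = a then 1 else 0) := by
    intro j a
    rw [hM]
    by_cases hc : c j = a
    · subst hc
      have := h j
      simp only [if_true]
      omega
    · simp only [if_neg hc]
      omega
  have hM2 : ∀ j a, (N'.1 j a : ℕ) = M j a + (if c (σ.symm j) = a then 1 else 0) := by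
    intro j a
    have h1 := congrFun (congrFun hN j) a
    have h2 := hM1 j a
    unfold State.toZ delta at h1
    simp only [Pi.add_apply] at h1
    split_ifs at h1 h2 ⊢ <;> omega
  have e1 : W N * ∏ i, ((N.1 i (c i) : ℕ) : ℝ) = ∏ j, ∏ a, ((M j a).factorial : ℝ)⁻¹ := by
    unfold W
    rw [← Finset.prod_mul_distrib]
    exact Finset.prod_congr rfl fun j _ =>
      fac_pick (fun a => (N.1 j a : ℕ)) (M j) (c j) (hM1 j)
  have e2 : W N' * ∏ j, ((N'.1 j (c (σ.symm j)) : ℕ) : ℝ) = ∏ j, ∏ a, ((M j a).factorial : ℝ)⁻¹ := by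
    unfold W
    rw [← Finset.prod_mul_distrib]
    exact Finset.prod_congr rfl fun j _ =>
      fac_pick (fun a => (N'.1 j a : ℕ)) (M j) (c (σ.symm j)) (hM2 j)
  rw [e1, ← e2]
  congr 1
  rw [← Equiv.prod_comp σ (fun j => ((N'.1 j (c (σ.symm j)) : ℕ) : ℝ))]
  simp

open Classical in
theorem sum_W (N' : State d n) (σ : Equiv.Perm (Fin d)) (c : Fin d → Fin d) :
    ∑ N : State d n, W N * (∏ i, ((N.1 i (c i) : ℕ) : ℝ)) *
      (if N'.toZ = N.toZ + delta σ c then 1 else 0) =
      W N' * ∏ i, ((N'.1 (σ i) (c i) : ℕ) : ℝ) := by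
  have pos_of : ∀ N : State d n, (∏ i, ((N.1 i (c i) : ℕ) : ℝ)) ≠ 0 → ∀ i, 1 ≤ (N.1 i (c i) : ℕ) := by
    intro N hN i
    by_contra h2
    apply hN
    refine Finset.prod_eq_zero (Finset.mem_univ i) ?_
    have h3 : (N.1 i (c i) : ℕ) = 0 := by omega
    rw [h3, Nat.cast_zero]
  by_cases hP : (∏ i, ((N'.1 (σ i) (c i) : ℕ) : ℝ)) = 0
  · rw [hP, mul_zero]
    refine Finset.sum_eq_zero fun N _ => ?_
    by_cases hQ : (∏ i, ((N.1 i (c i) : ℕ) : ℝ)) = 0
    · rw [hQ]; ring
    · split_ifs with hN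
      · rw [W_step N N' σ c (pos_of N hQ) hN, hP]
        ring
      · ring
  · have h1 : ∀ i, 1 ≤ (N'.1 i ((fun j => c (σ.symm j)) i) : ℕ) := by
      intro i
      by_contra h2
      apply hP
      refine Finset.prod_eq_zero (Finset.mem_univ (σ.symm i)) ?_
      have h3 : (N'.1 i (c (σ.symm i)) : ℕ) = 0 := by
        simp only at h2
        omega
      rw [Equiv.apply_symm_apply, h3, Nat.cast_zero]
    obtain ⟨N, hN⟩ := exists_next N' σ⁻¹ (fun j => c (σ.symm j)) h1
    have hd : delta σ⁻¹ (fun j => c (σ.symm j)) = - delta σ c := by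
      funext j a
      unfold delta
      simp only [Pi.neg_apply, Equiv.Perm.inv_def, Equiv.symm_symm, Equiv.symm_apply_apply]
      ring
    rw [hd] at hN
    have hN' : N'.toZ = N.toZ + delta σ c := by
      rw [hN]; simp
    have h2 : ∀ i, 1 ≤ (N.1 i (c i) : ℕ) := by
      intro i
      have h3 := congrFun (congrFun hN i) (c i)
      have h4 := h1 i
      unfold State.toZ delta at h3
      simp only [Pi.add_apply, Pi.neg_apply] at h3 h4
      rw [if_true] at h3
      by_cases h6 : c (σ.symm i) = c i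
      · rw [h6] at h4
        rw [if_pos h6] at h3
        omega
      · rw [if_neg h6] at h3
        omega
    rw [Finset.sum_eq_single N]
    · rw [if_pos hN', mul_one, W_step N N' σ c h2 hN']
    · intro N'' _ hne
      rw [if_neg, mul_zero]
      intro h5
      apply hne
      apply toZ_inj
      have h6 : N''.toZ + delta σ c = N.toZ + delta σ c := h5.symm.trans hN'
      exact add_right_cancel h6
    · intro h5
      exact absurd (Finset.mem_univ _) h5

/-- The weights are stationary. -/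
theorem W_stat (hμ : Good μ) (hn : 1 ≤ n) (N' : State d n) :
    ∑ N : State d n, W N * stepM μ n N N' = W N' := by
  classical
  have hn0 : (n : ℝ) ≠ 0 := Nat.cast_ne_zero.2 (by omega)
  have h1 : ∑ N : State d n, W N * stepM μ n N N' =
      ∑ σ : Equiv.Perm (Fin d), μ σ * ∑ c : Fin d → Fin d,
        (∑ N : State d n, W N * (∏ i, ((N.1 i (c i) : ℕ) : ℝ)) *
          (if N'.toZ = N.toZ + delta σ c then 1 else 0)) / (n : ℝ) ^ d := by
    unfold stepM
    simp only [Finset.mul_sum, Finset.sum_div]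
    rw [Finset.sum_comm]
    refine Finset.sum_congr rfl fun σ _ => ?_
    rw [Finset.sum_comm]
    refine Finset.sum_congr rfl fun c _ => ?_
    refine Finset.sum_congr rfl fun N _ => ?_
    rw [Finset.prod_div_distrib, Finset.prod_const, Finset.card_univ, Fintype.card_fin]
    ring
  rw [h1]
  have h2 : ∀ σ : Equiv.Perm (Fin d), ∑ c : Fin d → Fin d,
        (∑ N : State d n, W N * (∏ i, ((N.1 i (c i) : ℕ) : ℝ)) *
          (if N'.toZ = N.toZ + delta σ c then 1 else 0)) / (n : ℝ) ^ d = W N' := by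
    intro σ
    simp only [sum_W]
    rw [← Finset.sum_div, ← Finset.mul_sum]
    have h3 := Finset.prod_univ_sum (fun _ : Fin d => (Finset.univ : Finset (Fin d)))
      (fun i a => (((N'.1 (σ i) a : ℕ) : ℝ)))
    rw [Fintype.piFinset_univ] at h3
    rw [← h3]
    have h4 : ∏ i : Fin d, ∑ a, ((N'.1 (σ i) a : ℕ) : ℝ) = (n : ℝ) ^ d := by
      rw [Finset.prod_congr rfl fun i _ => show ∑ a, ((N'.1 (σ i) a : ℕ) : ℝ) = n from ?_]
      · rw [Finset.prod_const, Finset.card_univ, Fintype.card_fin]
      · rw [← Nat.cast_sum, N'.2.1 (σ i)]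
    rw [h4]
    field_simp
  simp only [h2]
  rw [← Finset.sum_mul, hμ.sum_eq_one, one_mul]

/-- urn `i` holds the `n` balls of colour `i` -/
def diag (d n : ℕ) : State d n :=
  ⟨fun i a => if i = a then Fin.last n else 0, by
    constructor
    · intro i
      rw [Finset.sum_eq_single i]
      · simp
      · intro b _ hb
        simp [Ne.symm hb]
      · simp
    · intro i
      rw [Finset.sum_eq_single i]
      · simp
      · intro b _ hb
        simp [hb]
      · simp⟩

end EXI

open EXI in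
/-- The law with the probabilities proportional to `∏ 1 / N i a !` is stationary. -/
theorem stationary_explicit (hμ : Good μ) (hn : 1 ≤ n) :
    IsStationary μ n (fun N : State d n => W N / ∑ N' : State d n, W N') := by
  have hpos : 0 < ∑ N' : State d n, W N' :=
    Finset.sum_pos (fun N _ => W_pos N) ⟨diag d n, Finset.mem_univ _⟩
  refine ⟨fun N => div_nonneg (W_pos N).le hpos.le, ?_, ?_⟩
  · rw [← Finset.sum_div, div_self hpos.ne']
  · intro y
    simp only [div_mul_eq_mul_div]
    rw [← Finset.sum_div, W_stat hμ hn]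

theorem exists_stationary (hμ : Good μ) (hn : 1 ≤ n) : ∃ π : State d n → ℝ, IsStationary μ n π :=
  ⟨_, stationary_explicit hμ hn⟩

end Pool.Agent.T2H73.BL
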