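import Pool.Agent.T2H73.BL.Ker

/-!
# Package AL: overlaps in the group algebra `ℝ[G]` (convolution), binomial overlap

`AddMonoidAlgebra ℝ G` is the commutative ring of finitely supported functions on `G` with the
convolution product.
-/

set_option autoImplicit false
set_option linter.unusedSectionVars false
set_option linter.unusedVariables false

namespace Pool.Agent.T2H73.BL

open Filter Topology
open scoped BigOperators

variable {G : Type} [AddCommGroup G] [DecidableEq G]

/-- value at `g` -/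
noncomputable def val (A : AddMonoidAlgebra ℝ G) (g : G) : ℝ := A.coeff g

/-- the sum of all coefficients (a ring homomorphism) -/
noncomputable def mass (A : AddMonoidAlgebra ℝ G) : ℝ := A.coeff.sum fun _ r => r

/-- nonnegative elements -/
def NN (A : AddMonoidAlgebra ℝ G) : Prop := ∀ g, 0 ≤ val A g

/-- `A` and `B` overlap at least by `ε`: they have a common minorant of mass `ε`. -/
def Ovl (A B : AddMonoidAlgebra ℝ G) (ε : ℝ) : Prop :=
  ∃ C : AddMonoidAlgebra ℝ G, NN C ∧ (∀ g, val C g ≤ val A g) ∧ (∀ g, val C g ≤ val B g) ∧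
    ε ≤ mass C

theorem mass_single (g : G) (r : ℝ) : mass (AddMonoidAlgebra.single g r) = r := by
  unfold mass
  rw [AddMonoidAlgebra.coeff_single, Finsupp.sum_single_index rfl]

theorem mass_add (A B : AddMonoidAlgebra ℝ G) : mass (A + B) = mass A + mass B := by
  unfold mass
  rw [AddMonoidAlgebra.coeff_add, Finsupp.sum_add_index' (fun _ => rfl) (fun _ _ _ => rfl)]

/-- the mass as an additive homomorphism -/
noncomputable def massHom : AddMonoidAlgebra ℝ G →+ ℝ where
  toFun := mass
  map_zero' := by simp [mass]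
  map_add' := mass_add

theorem mass_sum {ι : Type} (s : Finset ι) (A : ι → AddMonoidAlgebra ℝ G) :
    mass (∑ i ∈ s, A i) = ∑ i ∈ s, mass (A i) :=
  map_sum massHom A s

theorem mass_mul (A B : AddMonoidAlgebra ℝ G) : mass (A * B) = mass A * mass B := by
  rw [AddMonoidAlgebra.mul_def]
  unfold Finsupp.sum
  rw [mass_sum]
  simp only [mass_sum, mass_single]
  rw [← Finset.sum_mul_sum]
  rfl

theorem mass_pow (A : AddMonoidAlgebra ℝ G) (k : ℕ) : mass (A ^ k) = mass A ^ k := by
  induction k with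
  | zero => rw [pow_zero, pow_zero, AddMonoidAlgebra.one_def, mass_single]
  | succ k ih => rw [pow_succ, mass_mul, ih, pow_succ]

theorem val_single_mul (g : G) (A : AddMonoidAlgebra ℝ G) (h : G) :
    val (AddMonoidAlgebra.single g 1 * A) h = val A (h - g) := by
  unfold val
  rw [AddMonoidAlgebra.coeff_single_mul_apply, one_mul, neg_add_eq_sub]

theorem val_add (A B : AddMonoidAlgebra ℝ G) (g : G) : val (A + B) g = val A g + val B g := by
  simp [val]

theorem val_sum {ι : Type} (s : Finset ι) (A : ι → AddMonoidAlgebra ℝ G) (g : G) :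
    val (∑ i ∈ s, A i) g = ∑ i ∈ s, val (A i) g := by
  simp [val]

theorem NN.mul {A B : AddMonoidAlgebra ℝ G} (hA : NN A) (hB : NN B) : NN (A * B) := by
  intro g
  unfold val
  rw [AddMonoidAlgebra.coeff_mul]
  unfold Finsupp.sum
  refine Finset.sum_nonneg fun a _ => Finset.sum_nonneg fun b _ => ?_
  beta_reduce
  split_ifs
  · exact mul_nonneg (hA a) (hB b)
  · exact le_rfl

theorem NN.one : NN (1 : AddMonoidAlgebra ℝ G) := by
  intro g
  unfold val
  rw [AddMonoidAlgebra.one_def, AddMonoidAlgebra.coeff_single, Finsupp.single_apply]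
  split_ifs <;> norm_num

theorem NN.pow {A : AddMonoidAlgebra ℝ G} (hA : NN A) (k : ℕ) : NN (A ^ k) := by
  induction k with
  | zero => rw [pow_zero]; exact NN.one
  | succ k ih => rw [pow_succ]; exact ih.mul hA

theorem val_mul_le {A B C D : AddMonoidAlgebra ℝ G} (hC : NN C) (hB : NN B)
    (h1 : ∀ g, val C g ≤ val A g) (h2 : ∀ g, val D g ≤ val B g) (g : G) :
    val (C * D) g ≤ val (A * B) g := by
  have e : A * B = C * D + ((A - C) * B + C * (B - D)) := by ring
  have n1 : NN (A - C) := fun g => by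
    have := h1 g
    unfold val at *
    rw [AddMonoidAlgebra.coeff_sub, Finsupp.sub_apply]
    linarith
  have n2 : NN (B - D) := fun g => by
    have := h2 g
    unfold val at *
    rw [AddMonoidAlgebra.coeff_sub, Finsupp.sub_apply]
    linarith
  rw [e, val_add, val_add]
  have := n1.mul hB g
  have := hC.mul n2 g
  linarith

/-- The product of the minorants is a minorant of the products; the mass is multiplicative. -/
theorem Ovl.mul {A A' B B' : AddMonoidAlgebra ℝ G} {ε ε' : ℝ} (hA : NN A) (hA' : NN A')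
    (hB : NN B) (hB' : NN B') (hε : 0 ≤ ε) (hε' : 0 ≤ ε') (h : Ovl A A' ε) (h' : Ovl B B' ε') :
    Ovl (A * B) (A' * B') (ε * ε') := by
  obtain ⟨C, c0, c1, c2, c3⟩ := h
  obtain ⟨D, d0, d1, d2, d3⟩ := h'
  refine ⟨C * D, c0.mul d0, val_mul_le c0 hB c1 d1, val_mul_le c0 hB' c2 d2, ?_⟩
  rw [mass_mul]
  exact mul_le_mul c3 d3 hε' (hε.trans c3)

theorem Ovl.sum {ι : Type} (s : Finset ι) (A B : ι → AddMonoidAlgebra ℝ G) (ε : ι → ℝ)
    (h : ∀ i ∈ s, Ovl (A i) (B i) (ε i)) : Ovl (∑ i ∈ s, A i) (∑ i ∈ s, B i) (∑ i ∈ s, ε i) := by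
  choose! C h0 h1 h2 h3 using h
  refine ⟨∑ i ∈ s, C i, fun g => ?_, fun g => ?_, fun g => ?_, ?_⟩
  · rw [val_sum]
    exact Finset.sum_nonneg fun i hi => h0 i hi g
  · rw [val_sum, val_sum]
    exact Finset.sum_le_sum fun i hi => h1 i hi g
  · rw [val_sum, val_sum]
    exact Finset.sum_le_sum fun i hi => h2 i hi g
  · rw [mass_sum]
    exact Finset.sum_le_sum fun i hi => h3 i hi

/-- `A` overlaps with itself by its mass. -/
theorem Ovl.self {A : AddMonoidAlgebra ℝ G} (hA : NN A) : Ovl A A (mass A) :=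
  ⟨A, hA, fun _ => le_rfl, fun _ => le_rfl, le_rfl⟩

theorem Ovl.symm {A B : AddMonoidAlgebra ℝ G} {ε : ℝ} (h : Ovl A B ε) : Ovl B A ε := by
  obtain ⟨C, c0, c1, c2, c3⟩ := h
  exact ⟨C, c0, c2, c1, c3⟩

/-- `Ovl` as a sum of minima over a finite set. -/
theorem Ovl.min {A B : AddMonoidAlgebra ℝ G} {ε : ℝ} (h : Ovl A B ε) :
    ∃ Y : Finset G, ε ≤ ∑ g ∈ Y, min (val A g) (val B g) := by
  obtain ⟨C, c0, c1, c2, c3⟩ := h
  exact ⟨C.coeff.support, c3.trans (Finset.sum_le_sum fun g _ => le_min (c1 g) (c2 g))⟩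

/-- the fair coin `(1 + f) / 2` -/
noncomputable def coin (f : G) : AddMonoidAlgebra ℝ G :=
  AddMonoidAlgebra.single 0 (1 / 2) + AddMonoidAlgebra.single f (1 / 2)

/-- `coin f ^ N = ∑_h C(N, h) / 2^N [h f]` (`add_pow`). -/
theorem coin_pow (f : G) (N : ℕ) : coin f ^ N =
    ∑ h ∈ Finset.range (N + 1), AddMonoidAlgebra.single (h • f) ((N.choose h : ℝ) / 2 ^ N) := by
  unfold coin
  rw [add_comm, add_pow]
  refine Finset.sum_congr rfl fun h hh => ?_
  have hh' : h ≤ N := Nat.lt_succ_iff.1 (Finset.mem_range.1 hh)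
  rw [AddMonoidAlgebra.single_pow, AddMonoidAlgebra.single_pow, AddMonoidAlgebra.single_mul_single,
    AddMonoidAlgebra.natCast_def, AddMonoidAlgebra.single_mul_single]
  congr 1
  · simp
  · rw [← pow_add, Nat.add_sub_cancel' hh', one_div, inv_pow]
    ring

end Pool.Agent.T2H73.BL
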