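import Pool.Agent.T2H73.BL.Var

/-!
# Package BB: if `d_n(t) ≤ 1/4` then at time `t - 2n` the chain is in a ball of radius `K √n`
-/

set_option autoImplicit false

namespace Pool.Agent.T2H73.BL

open Filter Topology
open scoped BigOperators

variable {d : ℕ} {μ : Equiv.Perm (Fin d) → ℝ}

/-- Two laws with total variation distance `≤ 1/4`: `∑ min p q ≥ 3/4`, and
`(m - m')² min (p y) (q y) ≤ 2 p y (f y - m)² + 2 q y (f y - m')²`, so `(3/4) (m - m')² ≤ 4 V`. -/
theorem mean_close {S : Type} [Fintype S] {p q f : S → ℝ} (hp : ∀ x, 0 ≤ p x)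
    (hq : ∀ x, 0 ≤ q x) (hp1 : ∑ x, p x = 1) (hq1 : ∑ x, q x = 1) (h : tv p q ≤ 1 / 4)
    {m m' V : ℝ} (h1 : ∑ x, p x * (f x - m) ^ 2 ≤ V) (h2 : ∑ x, q x * (f x - m') ^ 2 ≤ V) :
    (m - m') ^ 2 ≤ 6 * V := by
  have hV : 0 ≤ V := le_trans (Finset.sum_nonneg fun x _ => mul_nonneg (hp x) (sq_nonneg _)) h1
  have hmin : 3 / 4 ≤ ∑ x, min (p x) (q x) := by
    have e1 : ∑ x, min (p x) (q x) = ∑ x, ((1 / 2) * (p x + q x) - (1 / 2) * |p x - q x|) := by
      refine Finset.sum_congr rfl fun x _ => ?_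
      rcases le_total (p x) (q x) with h | h
      · rw [min_eq_left h, abs_of_nonpos (by linarith)]
        ring
      · rw [min_eq_right h, abs_of_nonneg (by linarith)]
        ring
    rw [e1, Finset.sum_sub_distrib, ← Finset.mul_sum, ← Finset.mul_sum, Finset.sum_add_distrib, hp1,
      hq1]
    unfold tv at h
    linarith
  have hsum : (m - m') ^ 2 * ∑ x, min (p x) (q x) ≤ 2 * V + 2 * V := by
    calc (m - m') ^ 2 * ∑ x, min (p x) (q x)
        ≤ ∑ x, (2 * (p x * (f x - m) ^ 2) + 2 * (q x * (f x - m') ^ 2)) := by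
          rw [Finset.mul_sum]
          refine Finset.sum_le_sum fun x _ => ?_
          have a1 : (m - m') ^ 2 ≤ 2 * (f x - m) ^ 2 + 2 * (f x - m') ^ 2 := by
            nlinarith [sq_nonneg ((f x - m) + (f x - m'))]
          have a2 : 0 ≤ min (p x) (q x) := le_min (hp x) (hq x)
          have a3 := min_le_left (p x) (q x)
          have a4 := min_le_right (p x) (q x)
          have a5 := mul_le_mul_of_nonneg_right a3 (sq_nonneg (f x - m))
          have a6 := mul_le_mul_of_nonneg_right a4 (sq_nonneg (f x - m'))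
          have a7 := mul_le_mul_of_nonneg_right a1 a2
          nlinarith
      _ = 2 * ∑ x, p x * (f x - m) ^ 2 + 2 * ∑ x, q x * (f x - m') ^ 2 := by
          rw [Finset.sum_add_distrib, Finset.mul_sum, Finset.mul_sum]
      _ ≤ 2 * V + 2 * V := by linarith
  have h3 := mul_le_mul_of_nonneg_left hmin (sq_nonneg (m - m'))
  nlinarith

private theorem BB_Pt_nonneg (hμ : Good μ) {n : ℕ} {t : ℝ} (ht : 0 ≤ t) (η y : State d n) :
    0 ≤ Pt μ n t η y := ex_nonneg (stepM_nonneg hμ) ht η y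

private theorem BB_Pt_sum (hμ : Good μ) {n : ℕ} (hn : 1 ≤ n) (t : ℝ) (η : State d n) :
    ∑ y, Pt μ n t η y = 1 := ex_sum (stepM_sum hμ hn) t η

/-- `mean_close` with `variance_Pt`, `variance_stat`. -/
theorem means_at (hμ : Good μ) : ∃ C : ℝ, 0 < C ∧ ∀ n : ℕ, 1 ≤ n →
    ∀ π : State d n → ℝ, IsStationary μ n π → ∀ t : ℝ, 0 ≤ t →
      (∀ η : State d n, tv (Pt μ n t η) π ≤ 1 / 4) → ∀ (η : State d n) (a : Fin d)
        (v : Fin d → ℝ), (∀ i, |v i| ≤ 1) →
        |lin n a ((ex (U μ) (t / n)).mulVec v) η - n * ((∑ j, v j) / d)| ≤ C * √n := by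
  obtain ⟨C₁, hC₁, h1⟩ := variance_Pt hμ
  obtain ⟨C₂, hC₂, h2⟩ := variance_stat hμ
  refine ⟨√(6 * (C₁ + C₂)), Real.sqrt_pos.2 (by positivity), ?_⟩
  intro n hn π hπ t ht htv η a v hv
  have hn0 : (0 : ℝ) ≤ n := Nat.cast_nonneg n
  have h3 := h1 n hn t ht η a v hv
  have h4 := h2 n hn π hπ a v hv
  have h5 := mean_close (BB_Pt_nonneg hμ ht η) hπ.nonneg (BB_Pt_sum hμ hn t η) hπ.sum_eq_one
    (htv η) (V := (C₁ + C₂) * n) (f := lin n a v)
    (h3.trans (by nlinarith)) (h4.trans (by nlinarith))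
  rw [← Real.sqrt_mul (by positivity)]
  refine Real.abs_le_sqrt ?_
  linarith

private theorem BB_before {n : ℕ} (a : Fin d) (v : Fin d → ℝ) (η : State d n) (t s κ : ℝ) :
    lin n a ((ex (U μ) t).mulVec (κ • (ex (U μ) (-s)).mulVec v)) η =
      κ * lin n a ((ex (U μ) (t - s)).mulVec v) η := by
  rw [Matrix.mulVec_smul, Matrix.mulVec_mulVec, ← ex_add, map_smul, ← sub_eq_add_neg]
  rfl

private theorem BB_avg (hμ : Good μ) (v : Fin d → ℝ) (s κ : ℝ) :
    ∑ j, (κ • (ex (U μ) (-s)).mulVec v) j = κ * ∑ j, v j := by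
  rw [← ex_U_avg hμ (-s) v, Finset.mul_sum]
  rfl

/-- Backwards in time by `s n`: apply `means_at` to `exp (-2 s) • ex (U μ) (-s) v` (`ex_U_neg`;
the average is preserved, `ex_U_avg`; `ex_add`; linearity of `lin`). -/
theorem means_before (hμ : Good μ) (s : ℝ) (hs : 0 ≤ s) : ∃ C : ℝ, 0 < C ∧ ∀ n : ℕ, 1 ≤ n →
    ∀ π : State d n → ℝ, IsStationary μ n π → ∀ t : ℝ, s * n ≤ t →
      (∀ η : State d n, tv (Pt μ n t η) π ≤ 1 / 4) → ∀ (η : State d n) (a : Fin d)
        (v : Fin d → ℝ), (∀ i, |v i| ≤ 1) →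
        |lin n a ((ex (U μ) ((t - s * n) / n)).mulVec v) η - n * ((∑ j, v j) / d)| ≤
          C * √n := by
  obtain ⟨C, hC, h⟩ := means_at hμ
  refine ⟨Real.exp (2 * s) * C, by positivity, ?_⟩
  intro n hn π hπ t ht htv η a v hv
  have hn1 : (1 : ℝ) ≤ n := by exact_mod_cast hn
  have ht0 : 0 ≤ t := le_trans (by positivity) ht
  have h1 := h n hn π hπ t ht0 htv η a (Real.exp (-(2 * s)) • (ex (U μ) (-s)).mulVec v)
    (fun i => by
      rw [Pi.smul_apply, smul_eq_mul, abs_mul, abs_of_pos (Real.exp_pos _)]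
      have h2 := ex_U_neg hμ hs v 1 hv i
      calc Real.exp (-(2 * s)) * |(ex (U μ) (-s)).mulVec v i|
          ≤ Real.exp (-(2 * s)) * (Real.exp (2 * s) * 1) := by gcongr
        _ = 1 := by rw [mul_one, ← Real.exp_add]; simp)
  rw [BB_before, BB_avg hμ] at h1
  have h3 : t / n - s = (t - s * n) / n := by field_simp
  rw [h3] at h1
  have h4 : Real.exp (-(2 * s)) * lin n a ((ex (U μ) ((t - s * n) / n)).mulVec v) η -
      n * (Real.exp (-(2 * s)) * (∑ j, v j) / d) =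
      Real.exp (-(2 * s)) * (lin n a ((ex (U μ) ((t - s * n) / n)).mulVec v) η -
        n * ((∑ j, v j) / d)) := by ring
  rw [h4, abs_mul, abs_of_pos (Real.exp_pos _)] at h1
  calc |lin n a ((ex (U μ) ((t - s * n) / n)).mulVec v) η - n * ((∑ j, v j) / d)|
      = Real.exp (2 * s) * (Real.exp (-(2 * s)) *
        |lin n a ((ex (U μ) ((t - s * n) / n)).mulVec v) η - n * ((∑ j, v j) / d)|) := by
        rw [← mul_assoc, ← Real.exp_add]
        simp
    _ ≤ Real.exp (2 * s) * (C * √n) := by gcongr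
    _ = Real.exp (2 * s) * C * √n := by ring

/-- the state in which urn `i` holds the balls of colour `i` -/
private def BB_diag (d n : ℕ) : State d n :=
  ⟨fun i a => if i = a then Fin.last n else 0, by
    constructor
    · intro i
      simp [apply_ite (fun x : Fin (n + 1) => (x : ℕ))]
    · intro a
      simp [apply_ite (fun x : Fin (n + 1) => (x : ℕ))]⟩

/-- If `d_n(t) ≤ 1/4` then `t > s n`, for large `n`. Otherwise apply `means_at` to
`exp (-2 s) • ex (U μ) (-(t / n)) v` (as in `means_before`), `v` the indicator function of urn `0`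
and `η` the state in which urn `i` holds the `n` balls of colour `i`: `lin n 0 v η = n`, so
`exp (-2 s) |n - n / d| ≤ C √n`; this fails for large `n` since `d ≥ 2`. -/
theorem not_early (hμ : Good μ) (hd : 2 ≤ d) (s : ℝ) (hs : 0 ≤ s) : ∃ n₀ : ℕ, ∀ n : ℕ, n₀ ≤ n →
    ∀ π : State d n → ℝ, IsStationary μ n π → ∀ t : ℝ, 0 ≤ t →
      (∀ η : State d n, tv (Pt μ n t η) π ≤ 1 / 4) → s * n < t := by
  obtain ⟨C, hC, h⟩ := means_at hμ
  obtain ⟨n₁, hn₁⟩ := exists_nat_gt ((2 * (Real.exp (2 * s) * C)) ^ 2)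
  refine ⟨n₁ + 1, ?_⟩
  intro n hn π hπ t ht htv
  by_contra hcon
  push Not at hcon
  have hn1 : 1 ≤ n := by omega
  have hn0 : (0 : ℝ) < n := by exact_mod_cast hn1
  have hts : t / n ≤ s := (div_le_iff₀ hn0).2 hcon
  have htn : 0 ≤ t / n := by positivity
  have hd0 : 0 < d := by omega
  have hdR : (2 : ℝ) ≤ d := by exact_mod_cast hd
  set i₀ : Fin d := ⟨0, hd0⟩ with hi₀
  set v : Fin d → ℝ := Pi.single i₀ 1 with hv
  have hv1 : ∀ i, |v i| ≤ 1 := by
    intro i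
    rw [hv]
    by_cases hi : i = i₀
    · rw [hi]; simp
    · rw [Pi.single_eq_of_ne hi]; simp
  have hvs : ∑ j, v j = 1 := by rw [hv]; simp
  have h1 := h n hn1 π hπ t ht htv (BB_diag d n) i₀
    (Real.exp (-(2 * s)) • (ex (U μ) (-(t / n))).mulVec v)
    (fun i => by
      rw [Pi.smul_apply, smul_eq_mul, abs_mul, abs_of_pos (Real.exp_pos _)]
      have h2 := ex_U_neg hμ htn v 1 hv1 i
      calc Real.exp (-(2 * s)) * |(ex (U μ) (-(t / n))).mulVec v i|
          ≤ Real.exp (-(2 * s)) * (Real.exp (2 * (t / n)) * 1) := by gcongr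
        _ = Real.exp (-(2 * s) + 2 * (t / n)) := by rw [mul_one, ← Real.exp_add]
        _ ≤ 1 := Real.exp_le_one_iff.2 (by linarith))
  rw [BB_before, BB_avg hμ, sub_self, ex_zero, Matrix.one_mulVec, hvs] at h1
  have hl : lin n i₀ v (BB_diag d n) = n := by
    rw [lin_apply, hv]
    rw [Finset.sum_eq_single i₀]
    · rw [Pi.single_eq_same]
      simp [BB_diag]
    · intro b _ hb
      rw [Pi.single_eq_of_ne hb, zero_mul]
    · intro hb
      exact absurd (Finset.mem_univ _) hb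
  rw [hl] at h1
  have h4 : Real.exp (-(2 * s)) * (n : ℝ) - n * (Real.exp (-(2 * s)) * 1 / d) =
      Real.exp (-(2 * s)) * (n * (1 - 1 / d)) := by ring
  have h5 : (1 : ℝ) / 2 ≤ 1 - 1 / d := by
    have : (1 : ℝ) / d ≤ 1 / 2 := one_div_le_one_div_of_le (by norm_num) hdR
    linarith
  rw [h4, abs_of_nonneg (by positivity)] at h1
  have h6 : (n : ℝ) * (1 / 2) ≤ Real.exp (2 * s) * C * √n := by
    calc (n : ℝ) * (1 / 2) ≤ n * (1 - 1 / d) := by gcongr
      _ = Real.exp (2 * s) * (Real.exp (-(2 * s)) * (n * (1 - 1 / d))) := by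
          rw [← mul_assoc, ← Real.exp_add]
          simp
      _ ≤ Real.exp (2 * s) * (C * √n) := by gcongr
      _ = Real.exp (2 * s) * C * √n := by ring
  have h7 : √(n : ℝ) * √(n : ℝ) = n := Real.mul_self_sqrt hn0.le
  have h8 : 0 < √(n : ℝ) := Real.sqrt_pos.2 hn0
  have h9 : √(n : ℝ) ≤ 2 * (Real.exp (2 * s) * C) := by
    by_contra hc
    push Not at hc
    nlinarith
  have h10 : (n : ℝ) ≤ (2 * (Real.exp (2 * s) * C)) ^ 2 := by
    rw [← h7, sq]
    exact mul_le_mul h9 h9 h8.le (by positivity)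
  have h11 : (n₁ : ℝ) ≤ n := by exact_mod_cast (by omega : n₁ ≤ n)
  linarith

/-- all numbers of balls are within `K √n` of `n / d` -/
def InBall (K : ℝ) {n : ℕ} (x : State d n) : Prop :=
  ∀ i a, |((x.1 i a : ℕ) : ℝ) - n / d| ≤ K * √n

open Classical in
private theorem BB_cheb {n : ℕ} (hn : 1 ≤ n) (p : State d n → ℝ) (hp : ∀ x, 0 ≤ p x)
    (hp1 : ∑ x, p x = 1) (V K : ℝ) (hK : 0 < K)
    (h : ∀ i a : Fin d, ∑ y, p y * (((y.1 i a : ℕ) : ℝ) - n / d) ^ 2 ≤ V * n)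
    (hV : 4 * (d : ℝ) ^ 2 * V ≤ K ^ 2) : 3 / 4 ≤ ∑ x with InBall K x, p x := by
  have hn0 : (0 : ℝ) < n := by exact_mod_cast hn
  have h1 : ∑ x with InBall K x, p x + ∑ x with ¬ InBall K x, p x = 1 := by
    rw [Finset.sum_filter_add_sum_filter_not, hp1]
  have hKn : 0 < K ^ 2 * n := by positivity
  have h2 : ∑ x with ¬ InBall K x, p x ≤
      ∑ x, p x * ((∑ i : Fin d, ∑ a : Fin d, (((x.1 i a : ℕ) : ℝ) - n / d) ^ 2) / (K ^ 2 * n)) := by
    rw [Finset.sum_filter]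
    refine Finset.sum_le_sum fun x _ => ?_
    have h0 : 0 ≤ ∑ i : Fin d, ∑ a : Fin d, (((x.1 i a : ℕ) : ℝ) - n / d) ^ 2 :=
      Finset.sum_nonneg fun i _ => Finset.sum_nonneg fun a _ => sq_nonneg _
    by_cases hx : InBall K x
    · rw [if_neg (not_not.2 hx)]
      exact mul_nonneg (hp x) (div_nonneg h0 hKn.le)
    · rw [if_pos hx]
      unfold InBall at hx
      push Not at hx
      obtain ⟨i, a, hia⟩ := hx
      have h3 : K ^ 2 * n ≤ (((x.1 i a : ℕ) : ℝ) - n / d) ^ 2 := by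
        rw [← sq_abs (((x.1 i a : ℕ) : ℝ) - n / d)]
        calc K ^ 2 * n = (K * √n) ^ 2 := by rw [mul_pow, Real.sq_sqrt hn0.le]
          _ ≤ _ := pow_le_pow_left₀ (by positivity) hia.le 2
      have h4 : (((x.1 i a : ℕ) : ℝ) - n / d) ^ 2 ≤
          ∑ i : Fin d, ∑ a : Fin d, (((x.1 i a : ℕ) : ℝ) - n / d) ^ 2 := by
        refine le_trans ?_ (Finset.single_le_sum
          (f := fun i : Fin d => ∑ a : Fin d, (((x.1 i a : ℕ) : ℝ) - n / d) ^ 2)
          (fun i _ => Finset.sum_nonneg fun a _ => sq_nonneg _) (Finset.mem_univ i))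
        exact Finset.single_le_sum (f := fun a : Fin d => (((x.1 i a : ℕ) : ℝ) - n / d) ^ 2)
          (fun a _ => sq_nonneg _) (Finset.mem_univ a)
      have h5 : 1 ≤ (∑ i : Fin d, ∑ a : Fin d, (((x.1 i a : ℕ) : ℝ) - n / d) ^ 2) / (K ^ 2 * n) :=
        (one_le_div hKn).2 (h3.trans h4)
      exact le_mul_of_one_le_right (hp x) h5
  have h3 : ∑ x, p x * ((∑ i : Fin d, ∑ a : Fin d, (((x.1 i a : ℕ) : ℝ) - n / d) ^ 2) /
      (K ^ 2 * n)) = (∑ i : Fin d, ∑ a : Fin d, ∑ x, p x * (((x.1 i a : ℕ) : ℝ) - n / d) ^ 2) /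
        (K ^ 2 * n) := by
    have e1 : ∀ x : State d n, p x * ((∑ i : Fin d, ∑ a : Fin d,
        (((x.1 i a : ℕ) : ℝ) - n / d) ^ 2) / (K ^ 2 * n)) =
        (∑ i : Fin d, ∑ a : Fin d, p x * (((x.1 i a : ℕ) : ℝ) - n / d) ^ 2) / (K ^ 2 * n) := by
      intro x
      rw [mul_div_assoc', Finset.mul_sum]
      simp only [Finset.mul_sum]
    simp only [e1]
    rw [← Finset.sum_div, Finset.sum_comm]
    congr 1
    refine Finset.sum_congr rfl fun i _ => ?_
    rw [Finset.sum_comm]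
  have h4 : ∑ i : Fin d, ∑ a : Fin d, ∑ x, p x * (((x.1 i a : ℕ) : ℝ) - n / d) ^ 2 ≤
      (d : ℝ) ^ 2 * (V * n) := by
    calc _ ≤ ∑ i : Fin d, ∑ a : Fin d, V * n :=
          Finset.sum_le_sum fun i _ => Finset.sum_le_sum fun a _ => h i a
      _ = (d : ℝ) ^ 2 * (V * n) := by
          simp only [Finset.sum_const, Finset.card_univ, Fintype.card_fin, nsmul_eq_mul]
          ring
  have h5 : (∑ i : Fin d, ∑ a : Fin d, ∑ x, p x * (((x.1 i a : ℕ) : ℝ) - n / d) ^ 2) /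
        (K ^ 2 * n) ≤ 1 / 4 := by
    rw [div_le_iff₀ hKn]
    nlinarith
  rw [h3] at h2
  linarith

open Classical in
/-- Chebyshev for the `d²` functions `lin n a (Pi.single i 1)`, with `variance_Pt`,
`variance_stat` and `means_before` for `s = 2`. -/
theorem ball_prob (hμ : Good μ) (hd : 2 ≤ d) : ∃ K : ℝ, 0 < K ∧ ∀ n : ℕ, 1 ≤ n →
    ∀ π : State d n → ℝ, IsStationary μ n π → ∀ t : ℝ, 2 * n ≤ t →
      (∀ η : State d n, tv (Pt μ n t η) π ≤ 1 / 4) →
      (∀ η : State d n, 3 / 4 ≤ ∑ x with InBall K x, Pt μ n (t - 2 * n) η x) ∧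
        3 / 4 ≤ ∑ x with InBall K x, π x := by
  obtain ⟨C, hC, h⟩ := means_before hμ 2 (by norm_num)
  obtain ⟨C₁, hC₁, h1⟩ := variance_Pt hμ
  obtain ⟨C₂, hC₂, h2⟩ := variance_stat hμ
  have hd0 : (0 : ℝ) < d := by exact_mod_cast (by omega : 0 < d)
  obtain ⟨V, hV⟩ : ∃ V : ℝ, V = 2 * C₁ + 2 * C ^ 2 + C₂ := ⟨_, rfl⟩
  have hV0 : 0 < V := by rw [hV]; positivity
  have hK2 : (√(4 * (d : ℝ) ^ 2 * V)) ^ 2 = 4 * (d : ℝ) ^ 2 * V := Real.sq_sqrt (by positivity)
  refine ⟨√(4 * (d : ℝ) ^ 2 * V), Real.sqrt_pos.2 (by positivity), ?_⟩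
  intro n hn π hπ t ht htv
  have hn0 : (0 : ℝ) < n := by exact_mod_cast hn
  have hsing : ∀ i : Fin d, (∀ j, |(Pi.single i 1 : Fin d → ℝ) j| ≤ 1) := by
    intro i j
    by_cases hj : j = i
    · rw [hj]; simp
    · rw [Pi.single_eq_of_ne hj]; simp
  have hsum : ∀ i : Fin d, ∑ j, (Pi.single i 1 : Fin d → ℝ) j = 1 := by
    intro i
    simp
  have hlin : ∀ (i a : Fin d) (x : State d n), lin n a (Pi.single i 1) x = ((x.1 i a : ℕ) : ℝ) := by
    intro i a x
    rw [lin_apply, Finset.sum_eq_single i]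
    · rw [Pi.single_eq_same, one_mul]
    · intro b _ hb
      rw [Pi.single_eq_of_ne hb, zero_mul]
    · intro hb
      exact absurd (Finset.mem_univ _) hb
  constructor
  · intro η
    have ht' : 0 ≤ t - 2 * n := by linarith
    refine BB_cheb hn _ (BB_Pt_nonneg hμ ht' η) (BB_Pt_sum hμ hn _ η) V _
      (Real.sqrt_pos.2 (by positivity)) (fun i a => ?_) hK2.symm.le
    have h3 := h1 n hn (t - 2 * n) ht' η a (Pi.single i 1) (hsing i)
    have h4 := h n hn π hπ t ht htv η a (Pi.single i 1) (hsing i)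
    rw [hsum i] at h4
    simp only [hlin] at h3
    set m : ℝ := lin n a ((ex (U μ) ((t - 2 * n) / n)).mulVec (Pi.single i 1)) η with hm
    have h5 : (m - n / d) ^ 2 ≤ C ^ 2 * n := by
      rw [← sq_abs (m - n / d)]
      calc |m - n / d| ^ 2 = |m - n * (1 / d)| ^ 2 := by rw [mul_one_div]
        _ ≤ (C * √n) ^ 2 := pow_le_pow_left₀ (abs_nonneg _) h4 2
        _ = C ^ 2 * n := by rw [mul_pow, Real.sq_sqrt hn0.le]
    calc ∑ y, Pt μ n (t - 2 * n) η y * (((y.1 i a : ℕ) : ℝ) - n / d) ^ 2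
        ≤ ∑ y, (2 * (Pt μ n (t - 2 * n) η y * (((y.1 i a : ℕ) : ℝ) - m) ^ 2) +
            Pt μ n (t - 2 * n) η y * (2 * (C ^ 2 * n))) := by
          refine Finset.sum_le_sum fun y _ => ?_
          have h6 := BB_Pt_nonneg hμ ht' η y
          have h7 : (((y.1 i a : ℕ) : ℝ) - n / d) ^ 2 ≤
              2 * (((y.1 i a : ℕ) : ℝ) - m) ^ 2 + 2 * (C ^ 2 * n) := by
            nlinarith [sq_nonneg ((((y.1 i a : ℕ) : ℝ) - m) - (m - n / d))]
          have h8 := mul_le_mul_of_nonneg_left h7 h6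
          linarith
      _ = 2 * ∑ y, Pt μ n (t - 2 * n) η y * (((y.1 i a : ℕ) : ℝ) - m) ^ 2 + 2 * (C ^ 2 * n) := by
          rw [Finset.sum_add_distrib, ← Finset.mul_sum, ← Finset.sum_mul, BB_Pt_sum hμ hn, one_mul]
      _ ≤ V * n := by
          rw [hV]
          nlinarith
  · refine BB_cheb hn _ hπ.nonneg hπ.sum_eq_one V _
      (Real.sqrt_pos.2 (by positivity)) (fun i a => ?_) hK2.symm.le
    have h3 := h2 n hn π hπ a (Pi.single i 1) (hsing i)
    rw [hsum i] at h3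
    simp only [hlin, mul_one_div] at h3
    refine h3.trans ?_
    rw [hV]
    nlinarith [sq_nonneg C]

end Pool.Agent.T2H73.BL
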