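import Pool.Agent.T2H73.BL.Defs

/-!
# Package BA: the one-step transition matrix
-/

set_option autoImplicit false

namespace Pool.Agent.T2H73.BL

open Filter Topology
open scoped BigOperators

variable {d n : ℕ} {μ : Equiv.Perm (Fin d) → ℝ}

/-- Clear (all factors are nonnegative). -/
theorem stepM_nonneg (hμ : Good μ) (x y : State d n) : 0 ≤ stepM μ n x y := by
  unfold stepM
  refine Finset.sum_nonneg fun σ _ => Finset.sum_nonneg fun c _ => ?_
  refine mul_nonneg (mul_nonneg (hμ.nonneg σ) (Finset.prod_nonneg fun i _ => ?_)) ?_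
  · exact div_nonneg (Nat.cast_nonneg _) (Nat.cast_nonneg _)
  · split_ifs
    · exact zero_le_one
    · exact le_rfl

theorem toZ_inj : Function.Injective (State.toZ : State d n → Sq d) := by
  intro x y h
  apply Subtype.ext
  funext i a
  apply Fin.ext
  have h1 := congrFun (congrFun h i) a
  unfold State.toZ at h1
  exact_mod_cast h1

theorem delta_row (σ : Equiv.Perm (Fin d)) (c : Fin d → Fin d) (j : Fin d) :
    ∑ a, delta σ c j a = 0 := by
  unfold delta
  rw [Finset.sum_sub_distrib, Finset.sum_ite_eq, Finset.sum_ite_eq]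
  simp

theorem delta_col (σ : Equiv.Perm (Fin d)) (c : Fin d → Fin d) (a : Fin d) :
    ∑ j, delta σ c j a = 0 := by
  unfold delta
  rw [Finset.sum_sub_distrib, Equiv.sum_comp σ.symm (fun i => if c i = a then (1 : ℤ) else 0),
    sub_self]

theorem exists_next (N : State d n) (σ : Equiv.Perm (Fin d)) (c : Fin d → Fin d)
    (h : ∀ i, 1 ≤ (N.1 i (c i) : ℕ)) : ∃ N' : State d n, N'.toZ = N.toZ + delta σ c := by
  have h0 : ∀ j a, 0 ≤ N.toZ j a + delta σ c j a := by
    intro j a
    unfold State.toZ delta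
    by_cases hc : c j = a
    · subst hc
      have h1 := h j
      split_ifs <;> omega
    · rw [if_neg hc]
      split_ifs <;> omega
  have hr : ∀ j, ∑ a, (N.toZ j a + delta σ c j a) = n := by
    intro j
    rw [Finset.sum_add_distrib, delta_row, add_zero]
    unfold State.toZ
    exact_mod_cast N.2.1 j
  have hcl : ∀ a, ∑ j, (N.toZ j a + delta σ c j a) = n := by
    intro a
    rw [Finset.sum_add_distrib, delta_col, add_zero]
    unfold State.toZ
    exact_mod_cast N.2.2 a
  have hle : ∀ j a, N.toZ j a + delta σ c j a ≤ n := by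
    intro j a
    rw [← hr j]
    exact Finset.single_le_sum (f := fun b => N.toZ j b + delta σ c j b) (fun b _ => h0 j b)
      (Finset.mem_univ a)
  refine ⟨⟨fun j a => ⟨(N.toZ j a + delta σ c j a).toNat, ?_⟩, ?_, ?_⟩, ?_⟩
  · have h1 := hle j a
    have h2 := h0 j a
    omega
  · intro i
    have h1 := hr i
    zify
    simp only [Int.toNat_of_nonneg (h0 _ _)]
    exact h1
  · intro a
    have h1 := hcl a
    zify
    simp only [Int.toNat_of_nonneg (h0 _ _)]
    exact h1
  · funext j a
    exact Int.toNat_of_nonneg (h0 j a)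

/-- Expectation after one step. Interchange the sums: for fixed `σ`, `c` either the product
`∏ i, N i (c i) / n` vanishes, or all `N i (c i) ≥ 1`, and then there is exactly one state `N'` with
`N'.toZ = N.toZ + delta σ c` (the entries are `≥ 0` because only `N j (c j)` may lose a ball; row
and column sums of `delta σ c` vanish; entries `≤ n` by the row sums; `toZ` is injective). -/
theorem stepM_apply (hμ : Good μ) (N : State d n) (g : Sq d → ℝ) :
    ∑ N', stepM μ n N N' * g N'.toZ =
      ∑ σ : Equiv.Perm (Fin d), ∑ c : Fin d → Fin d,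
        μ σ * (∏ i, (((N.1 i (c i) : ℕ) : ℝ) / n)) * g (N.toZ + delta σ c) := by
  unfold stepM
  simp only [Finset.sum_mul]
  rw [Finset.sum_comm]
  refine Finset.sum_congr rfl fun σ _ => ?_
  rw [Finset.sum_comm]
  refine Finset.sum_congr rfl fun c _ => ?_
  by_cases hP : (∏ i, (((N.1 i (c i) : ℕ) : ℝ) / n)) = 0
  · rw [hP]
    simp
  · have h1 : ∀ i, 1 ≤ (N.1 i (c i) : ℕ) := by
      intro i
      by_contra h2
      apply hP
      refine Finset.prod_eq_zero (Finset.mem_univ i) ?_
      have h3 : (N.1 i (c i) : ℕ) = 0 := by omega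
      rw [h3, Nat.cast_zero, zero_div]
    obtain ⟨N', hN'⟩ := exists_next N σ c h1
    rw [Finset.sum_eq_single N']
    · rw [if_pos hN', mul_one, hN']
    · intro N'' _ hne
      rw [if_neg, mul_zero, zero_mul]
      intro h2
      exact hne (toZ_inj (h2.trans hN'.symm))
    · intro h2
      exact absurd (Finset.mem_univ _) h2

/-- `∑_c ∏_i N i (c i) / n = ∏_i ∑_a N i a / n = 1` (`Finset.prod_univ_sum` /
`Fintype.piFinset_univ`), and `∑ μ = 1`. -/
theorem stepM_sum (hμ : Good μ) (hn : 1 ≤ n) (x : State d n) : ∑ y, stepM μ n x y = 1 := by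
  have h1 := stepM_apply hμ x (fun _ => 1)
  simp only [mul_one] at h1
  rw [h1]
  have h2 : ∑ c : Fin d → Fin d, ∏ i, (((x.1 i (c i) : ℕ) : ℝ) / n) = 1 := by
    have h3 := Finset.prod_univ_sum (fun _ : Fin d => (Finset.univ : Finset (Fin d)))
      (fun i a => (((x.1 i a : ℕ) : ℝ) / n))
    rw [Fintype.piFinset_univ] at h3
    rw [← h3]
    refine Finset.prod_eq_one fun i _ => ?_
    rw [← Finset.sum_div, ← Nat.cast_sum, x.2.1 i, div_self]
    exact Nat.cast_ne_zero.2 (by omega)
  calc _ = ∑ σ : Equiv.Perm (Fin d), μ σ * ∑ c : Fin d → Fin d,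
        ∏ i, (((x.1 i (c i) : ℕ) : ℝ) / n) :=
        Finset.sum_congr rfl fun σ _ => (Finset.mul_sum _ _ _).symm
    _ = 1 := by
        rw [h2]
        simp only [mul_one]
        exact hμ.sum_eq_one

end Pool.Agent.T2H73.BL
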