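import Pool.Agent.T2H73.BL.Expo

/-!
# Package OS: exponential decay for the single particle chain
-/

set_option autoImplicit false

namespace Pool.Agent.T2H73.BL

open Filter Topology
open scoped BigOperators

variable {d : ℕ} {μ : Equiv.Perm (Fin d) → ℝ}

theorem U_nonneg (hμ : Good μ) (i j : Fin d) : 0 ≤ U μ i j := by
  unfold U
  apply Finset.sum_nonneg
  intro σ _
  split_ifs
  · exact hμ.nonneg σ
  · exact le_rfl

theorem U_row (hμ : Good μ) (i : Fin d) : ∑ j, U μ i j = 1 := by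
  unfold U
  rw [Finset.sum_comm, ← hμ.sum_eq_one]
  apply Finset.sum_congr rfl
  intro σ _
  rw [Finset.sum_ite_eq, if_pos (Finset.mem_univ _)]

theorem U_col (hμ : Good μ) (j : Fin d) : ∑ i, U μ i j = 1 := by
  unfold U
  rw [Finset.sum_comm, ← hμ.sum_eq_one]
  apply Finset.sum_congr rfl
  intro σ _
  have h : ∀ i : Fin d, (if σ i = j then μ σ else 0) = if i = σ.symm j then μ σ else 0 := by
    intro i
    by_cases h : σ i = j
    · rw [if_pos h, if_pos (by rw [← h, Equiv.symm_apply_apply])]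
    · rw [if_neg h, if_neg (fun h' => h (by rw [h', Equiv.apply_symm_apply]))]
  rw [Finset.sum_congr rfl fun i _ => h i, Finset.sum_ite_eq', if_pos (Finset.mem_univ _)]

/-- The average is preserved: the uniform law is stationary (`U_col`, `ex_stat`). -/
theorem ex_U_avg (hμ : Good μ) (r : ℝ) (v : Fin d → ℝ) :
    ∑ i, (ex (U μ) r).mulVec v i = ∑ i, v i := by
  have h : ∀ j, ∑ i, ex (U μ) r i j = 1 := by
    intro j
    have h1 := ex_stat (P := U μ) (π := fun _ => 1) (by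
      intro y
      simp only [one_mul]
      exact U_col hμ y) r j
    simpa only [one_mul] using h1
  simp only [Matrix.mulVec, dotProduct]
  rw [Finset.sum_comm]
  apply Finset.sum_congr rfl
  intro j _
  rw [← Finset.sum_mul, h, one_mul]

/-- `ex (U μ) r` is a contraction for the sup norm, `r ≥ 0` (`ex_nonneg`, `ex_sum`). -/
theorem ex_U_abs (hμ : Good μ) {r : ℝ} (hr : 0 ≤ r) (v : Fin d → ℝ) (b : ℝ)
    (hv : ∀ i, |v i| ≤ b) (i : Fin d) : |(ex (U μ) r).mulVec v i| ≤ b := by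
  simp only [Matrix.mulVec, dotProduct]
  calc |∑ j, ex (U μ) r i j * v j| ≤ ∑ j, |ex (U μ) r i j * v j| := Finset.abs_sum_le_sum_abs _ _
    _ ≤ ∑ j, ex (U μ) r i j * b := by
        apply Finset.sum_le_sum
        intro j _
        rw [abs_mul, abs_of_nonneg (ex_nonneg (U_nonneg hμ) hr i j)]
        exact mul_le_mul_of_nonneg_left (hv j) (ex_nonneg (U_nonneg hμ) hr i j)
    _ = b := by rw [← Finset.sum_mul, ex_sum (U_row hμ), one_mul]

namespace OS

theorem pow_nonneg' (hμ : Good μ) (k : ℕ) (i j : Fin d) : 0 ≤ (U μ ^ k) i j := by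
  induction k generalizing i j with
  | zero =>
    rw [pow_zero, Matrix.one_apply]
    split_ifs
    · exact zero_le_one
    · exact le_rfl
  | succ k ih =>
    rw [pow_succ, Matrix.mul_apply]
    exact Finset.sum_nonneg fun l _ => mul_nonneg (ih i l) (U_nonneg hμ l j)

theorem neg_entry (hμ : Good μ) {s : ℝ} (hs : 0 ≤ s) (i j : Fin d) :
    |ex (U μ) (-s) i j| ≤ Real.exp (2 * s) * ex (U μ) s i j := by
  have h1 := (ex_series (U μ) (-s) i j)
  have h2 := (ex_series (U μ) s i j).mul_left (Real.exp (2 * s))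
  have h3 : ∀ k : ℕ, ‖Real.exp (-(-s)) * (-s) ^ k / k.factorial * (U μ ^ k) i j‖ ≤
      Real.exp (2 * s) * (Real.exp (-s) * s ^ k / k.factorial * (U μ ^ k) i j) := by
    intro k
    rw [Real.norm_eq_abs, neg_neg, abs_mul, abs_div, abs_mul, abs_of_pos (Real.exp_pos s), abs_pow,
      abs_neg, abs_of_nonneg hs, abs_of_nonneg (Nat.cast_nonneg (α := ℝ) k.factorial),
      abs_of_nonneg (pow_nonneg' hμ k i j)]
    have h4 : Real.exp (2 * s) * Real.exp (-s) = Real.exp s := by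
      rw [← Real.exp_add]
      congr 1
      ring
    rw [← h4]
    apply le_of_eq
    ring
  have h5 := h1.norm_le_of_bounded h2 h3
  rwa [Real.norm_eq_abs] at h5

end OS

/-- Bound for negative times: `|exp (-s (U - 1)) v| ≤ exp (2 s) b` (e.g. from `ex_series`:
`|exp (s) (-s)^k / k!| U^k` sums up to `exp (2 s)`). -/
theorem ex_U_neg (hμ : Good μ) {s : ℝ} (hs : 0 ≤ s) (v : Fin d → ℝ) (b : ℝ)
    (hv : ∀ i, |v i| ≤ b) (i : Fin d) :
    |(ex (U μ) (-s)).mulVec v i| ≤ Real.exp (2 * s) * b := by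
  have hb : 0 ≤ b := (abs_nonneg _).trans (hv i)
  simp only [Matrix.mulVec, dotProduct]
  calc |∑ j, ex (U μ) (-s) i j * v j| ≤ ∑ j, |ex (U μ) (-s) i j * v j| :=
        Finset.abs_sum_le_sum_abs _ _
    _ ≤ ∑ j, Real.exp (2 * s) * ex (U μ) s i j * b := by
        apply Finset.sum_le_sum
        intro j _
        rw [abs_mul]
        exact mul_le_mul (OS.neg_entry hμ hs i j) (hv j) (abs_nonneg _)
          (mul_nonneg (Real.exp_pos _).le (ex_nonneg (U_nonneg hμ) hs i j))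
    _ = Real.exp (2 * s) * b := by
        rw [← Finset.sum_mul, ← Finset.mul_sum, ex_sum (U_row hμ), mul_one]

namespace OS

theorem pos (hμ : Good μ) (i j : Fin d) : 0 < ex (U μ) 1 i j := by
  obtain ⟨m, hm⟩ := hμ.irred i j
  have h1 := ex_series (U μ) 1 i j
  refine lt_of_lt_of_le ?_ (le_hasSum h1 m fun k _ => ?_)
  · exact mul_pos (div_pos (mul_pos (Real.exp_pos _) (pow_pos one_pos _))
      (Nat.cast_pos.2 (Nat.factorial_pos m))) hm
  · exact mul_nonneg (div_nonneg (mul_nonneg (Real.exp_pos _).le (pow_nonneg zero_le_one _))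
      (Nat.cast_nonneg _)) (pow_nonneg' hμ k i j)

/-- one step of the contraction, for vectors with average zero -/
theorem contr (hμ : Good μ) {κ : ℝ} (hκ : ∀ i j, κ ≤ ex (U μ) 1 i j) (w : Fin d → ℝ) (b : ℝ)
    (hw : ∀ i, |w i| ≤ b) (h0 : ∑ i, w i = 0) (i : Fin d) :
    |(ex (U μ) 1).mulVec w i| ≤ (1 - d * κ) * b := by
  have h1 : (ex (U μ) 1).mulVec w i = ∑ j, (ex (U μ) 1 i j - κ) * w j := by
    simp only [Matrix.mulVec, dotProduct]
    rw [Finset.sum_congr rfl fun j _ => sub_mul (ex (U μ) 1 i j) κ (w j), Finset.sum_sub_distrib,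
      ← Finset.mul_sum, h0, mul_zero, sub_zero]
  rw [h1]
  calc |∑ j, (ex (U μ) 1 i j - κ) * w j| ≤ ∑ j, |(ex (U μ) 1 i j - κ) * w j| :=
        Finset.abs_sum_le_sum_abs _ _
    _ ≤ ∑ j, (ex (U μ) 1 i j - κ) * b := by
        apply Finset.sum_le_sum
        intro j _
        rw [abs_mul, abs_of_nonneg (sub_nonneg.2 (hκ i j))]
        exact mul_le_mul_of_nonneg_left (hw j) (sub_nonneg.2 (hκ i j))
    _ = (1 - d * κ) * b := by
        rw [← Finset.sum_mul, Finset.sum_sub_distrib, ex_sum (U_row hμ), Finset.sum_const,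
          Finset.card_univ, Fintype.card_fin, nsmul_eq_mul]

theorem contr_pow (hμ : Good μ) {κ : ℝ} (hκ : ∀ i j, κ ≤ ex (U μ) 1 i j) (m : ℕ) :
    ∀ (w : Fin d → ℝ) (b : ℝ), (∀ i, |w i| ≤ b) → ∑ i, w i = 0 → ∀ i,
      |(ex (U μ) m).mulVec w i| ≤ (1 - d * κ) ^ m * b := by
  induction m with
  | zero =>
    intro w b hw _ i
    rw [Nat.cast_zero, ex_zero, Matrix.one_mulVec, pow_zero, one_mul]
    exact hw i
  | succ m ih =>
    intro w b hw h0 i
    rw [Nat.cast_succ, ex_add, ← Matrix.mulVec_mulVec]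
    have h1 := ih ((ex (U μ) 1).mulVec w) ((1 - d * κ) * b) (contr hμ hκ w b hw h0)
      (by rw [ex_U_avg hμ, h0]) i
    rw [pow_succ, mul_assoc]
    exact h1

end OS

/-- **Exponential convergence to the average.** All entries of `Q = ex (U μ) 1` are positive
(`ex_series`, irreducibility), hence `≥ κ > 0`. For a stochastic matrix with entries `≥ κ` the
oscillation `max v - min v` contracts by the factor `1 - κ` (`d ≥ 1`); `ex (U μ) r =
(ex (U μ) 1)^m * ex (U μ) (r - m)` with `m = ⌊r⌋₊` (`ex_add`); the average is preserved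
(`ex_U_avg`), so the distance to it is at most the oscillation. -/
theorem osc_decay (hμ : Good μ) : ∃ C c : ℝ, 0 < C ∧ 0 < c ∧ ∀ r : ℝ, 0 ≤ r →
    ∀ v : Fin d → ℝ, (∀ i, |v i| ≤ 1) → ∀ i,
      |(ex (U μ) r).mulVec v i - (∑ j, v j) / d| ≤ C * Real.exp (-c * r) := by
  rcases Nat.eq_zero_or_pos d with hd | hd
  · subst hd
    exact ⟨1, 1, one_pos, one_pos, fun r _ v _ i => i.elim0⟩
  have : Nonempty (Fin d) := ⟨⟨0, hd⟩⟩
  have hdR : (0 : ℝ) < d := Nat.cast_pos.2 hd
  obtain ⟨p, -, hp⟩ := Finset.exists_min_image (Finset.univ : Finset (Fin d × Fin d))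
    (fun p => ex (U μ) 1 p.1 p.2) Finset.univ_nonempty
  set κ : ℝ := min (ex (U μ) 1 p.1 p.2) (1 / (2 * d)) with hκ
  have hκ0 : 0 < κ := lt_min (OS.pos hμ _ _) (by positivity)
  have hκ1 : ∀ i j, κ ≤ ex (U μ) 1 i j := fun i j =>
    (min_le_left _ _).trans (hp (i, j) (Finset.mem_univ _))
  set ρ : ℝ := 1 - d * κ with hρ
  have hdκ : d * κ ≤ 1 / 2 := by
    calc (d : ℝ) * κ ≤ d * (1 / (2 * d)) := mul_le_mul_of_nonneg_left (min_le_right _ _) hdR.le
      _ = 1 / 2 := by field_simp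
  have hdκ0 : 0 < d * κ := mul_pos hdR hκ0
  have hρ0 : 0 < ρ := by rw [hρ]; linarith
  have hρ1 : ρ < 1 := by rw [hρ]; linarith
  set c : ℝ := - Real.log ρ with hc
  have hc0 : 0 < c := by
    rw [hc]
    exact neg_pos.2 (Real.log_neg hρ0 hρ1)
  refine ⟨2 * Real.exp c, c, by positivity, hc0, ?_⟩
  intro r hr v hv i
  set m : ℕ := ⌊r⌋₊ with hm
  have hm1 : (m : ℝ) ≤ r := Nat.floor_le hr
  have hm2 : r < m + 1 := Nat.lt_floor_add_one r
  set A : ℝ := (∑ j, v j) / d with hA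
  set w : Fin d → ℝ := fun j => v j - A with hw
  have hA1 : |A| ≤ 1 := by
    rw [hA, abs_div, abs_of_pos hdR, div_le_one hdR]
    calc |∑ j, v j| ≤ ∑ j, |v j| := Finset.abs_sum_le_sum_abs _ _
      _ ≤ ∑ _j : Fin d, (1 : ℝ) := Finset.sum_le_sum fun j _ => hv j
      _ = d := by simp
  have hw0 : ∑ j, w j = 0 := by
    rw [hw]
    simp only
    rw [Finset.sum_sub_distrib, Finset.sum_const, Finset.card_univ, Fintype.card_fin, nsmul_eq_mul,
      hA, mul_div_cancel₀ _ hdR.ne', sub_self]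
  have hw1 : ∀ j, |w j| ≤ 2 := by
    intro j
    calc |v j - A| ≤ |v j| + |A| := abs_sub _ _
      _ ≤ 2 := by linarith [hv j]
  have h1 : (ex (U μ) r).mulVec v i - A = (ex (U μ) r).mulVec w i := by
    simp only [Matrix.mulVec, dotProduct, hw]
    rw [Finset.sum_congr rfl fun j _ => mul_sub (ex (U μ) r i j) (v j) A, Finset.sum_sub_distrib,
      ← Finset.sum_mul, ex_sum (U_row hμ), one_mul]
  rw [h1]
  have h2 : ex (U μ) r = ex (U μ) m * ex (U μ) (r - m) := by
    rw [← ex_add]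
    congr 1
    ring
  rw [h2, ← Matrix.mulVec_mulVec]
  have h3 := OS.contr_pow hμ hκ1 m ((ex (U μ) (r - m)).mulVec w) 2
    (ex_U_abs hμ (by linarith) w 2 hw1) (by rw [ex_U_avg hμ, hw0]) i
  refine h3.trans ?_
  have h4 : (1 - d * κ) ^ m = Real.exp (-c * m) := by
    rw [← hρ, hc, neg_neg, mul_comm, Real.exp_nat_mul, Real.exp_log hρ0]
  rw [h4]
  have h5 : Real.exp (-c * m) ≤ Real.exp c * Real.exp (-c * r) := by
    rw [← Real.exp_add]
    apply Real.exp_le_exp.2
    nlinarith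
  linarith

end Pool.Agent.T2H73.BL
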