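import Pool.Agent.T2H73.BL.Coin
import Pool.Agent.T2H73.BL.Osc

/-!
# Package BL: overlap of the ideal walk with one translate; package IO: with all translates
-/

set_option autoImplicit false

namespace Pool.Agent.T2H73.BL

open Filter Topology
open scoped BigOperators

variable {d : ℕ} {μ : Equiv.Perm (Fin d) → ℝ}

/-- the law of one step of the ideal walk -/
noncomputable def ell (μ : Equiv.Perm (Fin d) → ℝ) : AddMonoidAlgebra ℝ (Sq d) :=
  ∑ σ : Equiv.Perm (Fin d), ∑ c : Fin d → Fin d, AddMonoidAlgebra.single (delta σ c) (wt μ σ)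

/-- the elementary exchange: urn `j` gets a ball of colour `a` and loses one of colour `b`, urn `i`
the other way round -/
def swp (i j a b : Fin d) : Sq d := fun k e =>
  ((if k = j then 1 else 0) - (if k = i then 1 else 0)) *
    ((if e = a then 1 else 0) - (if e = b then 1 else 0))

set_option linter.unusedSectionVars false

namespace PkgBL

variable {G : Type} [AddCommGroup G] [DecidableEq G]

theorem NN_single (g : G) {r : ℝ} (hr : 0 ≤ r) : NN (AddMonoidAlgebra.single g r) := by
  intro h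
  unfold val
  rw [AddMonoidAlgebra.coeff_single, Finsupp.single_apply]
  split_ifs
  · exact hr
  · exact le_refl _

theorem NN_zero : NN (0 : AddMonoidAlgebra ℝ G) := by
  intro h
  unfold val
  simp

theorem NN_add {A B : AddMonoidAlgebra ℝ G} (hA : NN A) (hB : NN B) : NN (A + B) := by
  intro h
  have h1 := hA h
  have h2 := hB h
  unfold val at *
  rw [AddMonoidAlgebra.coeff_add, Finsupp.add_apply]
  exact add_nonneg h1 h2

theorem NN_sum {ι : Type} (s : Finset ι) (A : ι → AddMonoidAlgebra ℝ G) (h : ∀ i ∈ s, NN (A i)) :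
    NN (∑ i ∈ s, A i) := by
  classical
  induction s using Finset.induction_on with
  | empty => rw [Finset.sum_empty]; exact NN_zero
  | insert a s ha ih =>
    rw [Finset.sum_insert ha]
    exact NN_add (h a (Finset.mem_insert_self _ _))
      (ih fun i hi => h i (Finset.mem_insert_of_mem hi))

theorem mass_zero : mass (0 : AddMonoidAlgebra ℝ G) = 0 := by
  unfold mass; simp

theorem mass_nonneg {A : AddMonoidAlgebra ℝ G} (hA : NN A) : 0 ≤ mass A := by
  unfold mass
  rw [Finsupp.sum]
  exact Finset.sum_nonneg fun g _ => hA g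

theorem Ovl_zero {A B : AddMonoidAlgebra ℝ G} (hA : NN A) (hB : NN B) : Ovl A B 0 := by
  have hz : ∀ g : G, val (0 : AddMonoidAlgebra ℝ G) g = 0 := fun g => by unfold val; simp
  exact ⟨0, NN_zero, fun g => by rw [hz]; exact hA g, fun g => by rw [hz]; exact hB g,
    by rw [mass_zero]⟩

theorem Ovl_mono {A B : AddMonoidAlgebra ℝ G} {ε ε' : ℝ} (h : Ovl A B ε) (he : ε' ≤ ε) :
    Ovl A B ε' := by
  obtain ⟨C, h1, h2, h3, h4⟩ := h
  exact ⟨C, h1, h2, h3, le_trans he h4⟩

theorem delta_update (σ : Equiv.Perm (Fin d)) (c : Fin d → Fin d) (i a b : Fin d) :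
    delta σ (Function.update c i a) = delta σ (Function.update c i b) + swp i (σ i) a b := by
  funext k e
  simp only [Pi.add_apply, delta, swp]
  have h1 : ∀ x : Fin d, Function.update c i x (σ.symm k) = if k = σ i then x else c (σ.symm k) := by
    intro x
    by_cases hk : k = σ i
    · subst hk
      simp
    · rw [if_neg hk, Function.update_of_ne]
      intro h
      apply hk
      rw [← h]; simp
  have h2 : ∀ x : Fin d, Function.update c i x k = if k = i then x else c k := by
    intro x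
    by_cases hk : k = i
    · subst hk
      simp
    · rw [if_neg hk, Function.update_of_ne hk]
  rw [h1, h1, h2, h2]
  have hc : ∀ x : Fin d, (if x = e then (1 : ℤ) else 0) = if e = x then 1 else 0 :=
    fun x => by simp only [eq_comm]
  by_cases hk1 : k = σ i <;> by_cases hk2 : k = i
  · simp only [if_pos hk1, if_pos hk2, hc]; ring
  · simp only [if_pos hk1, if_neg hk2, hc]; ring
  · simp only [if_neg hk1, if_pos hk2, hc]; ring
  · simp only [if_neg hk1, if_neg hk2, hc]; ring

/-- the part of the steps which come in pairs -/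
noncomputable def K1 (μ : Equiv.Perm (Fin d) → ℝ) (i j b : Fin d) : AddMonoidAlgebra ℝ (Sq d) :=
  ∑ x ∈ (Finset.univ : Finset (Equiv.Perm (Fin d) × (Fin d → Fin d))).filter
    (fun x => x.1 i = j ∧ x.2 i = b), AddMonoidAlgebra.single (delta x.1 x.2) (2 * wt μ x.1)

/-- the rest -/
noncomputable def K2 (μ : Equiv.Perm (Fin d) → ℝ) (i j a b : Fin d) :
    AddMonoidAlgebra ℝ (Sq d) :=
  ∑ x ∈ (Finset.univ : Finset (Equiv.Perm (Fin d) × (Fin d → Fin d))).filter
    (fun x => ¬ (x.1 i = j ∧ (x.2 i = a ∨ x.2 i = b))),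
      AddMonoidAlgebra.single (delta x.1 x.2) (wt μ x.1)

theorem ell_split (i j a b : Fin d) (hab : a ≠ b) :
    ell μ = K1 μ i j b * coin (swp i j a b) + K2 μ i j a b := by
  classical
  have h1 : ell μ = ∑ x : Equiv.Perm (Fin d) × (Fin d → Fin d),
      AddMonoidAlgebra.single (delta x.1 x.2) (wt μ x.1) := by
    unfold ell
    rw [Fintype.sum_prod_type]
  rw [h1, ← Finset.sum_filter_add_sum_filter_not Finset.univ
    (fun x : Equiv.Perm (Fin d) × (Fin d → Fin d) => x.1 i = j ∧ (x.2 i = a ∨ x.2 i = b))]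
  congr 1
  have h2 : (Finset.univ.filter (fun x : Equiv.Perm (Fin d) × (Fin d → Fin d) =>
      x.1 i = j ∧ (x.2 i = a ∨ x.2 i = b))) =
      (Finset.univ.filter (fun x : Equiv.Perm (Fin d) × (Fin d → Fin d) =>
        x.1 i = j ∧ x.2 i = a)) ∪
      (Finset.univ.filter (fun x : Equiv.Perm (Fin d) × (Fin d → Fin d) =>
        x.1 i = j ∧ x.2 i = b)) := by
    ext x
    simp only [Finset.mem_filter, Finset.mem_univ, true_and, Finset.mem_union]
    tauto
  have h3 : Disjoint (Finset.univ.filter (fun x : Equiv.Perm (Fin d) × (Fin d → Fin d) =>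
        x.1 i = j ∧ x.2 i = a))
      (Finset.univ.filter (fun x : Equiv.Perm (Fin d) × (Fin d → Fin d) =>
        x.1 i = j ∧ x.2 i = b)) := by
    rw [Finset.disjoint_left]
    intro x hx hx'
    simp only [Finset.mem_filter, Finset.mem_univ, true_and] at hx hx'
    exact hab (hx.2.symm.trans hx'.2)
  rw [h2, Finset.sum_union h3]
  have h4 : ∑ x ∈ Finset.univ.filter (fun x : Equiv.Perm (Fin d) × (Fin d → Fin d) =>
        x.1 i = j ∧ x.2 i = a), AddMonoidAlgebra.single (delta x.1 x.2) (wt μ x.1)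
      = ∑ x ∈ Finset.univ.filter (fun x : Equiv.Perm (Fin d) × (Fin d → Fin d) =>
        x.1 i = j ∧ x.2 i = b),
          AddMonoidAlgebra.single (delta x.1 x.2 + swp i j a b) (wt μ x.1) := by
    refine Finset.sum_bij' (fun x _ => (x.1, Function.update x.2 i b))
      (fun x _ => (x.1, Function.update x.2 i a)) ?_ ?_ ?_ ?_ ?_
    · intro x hx
      simp only [Finset.mem_filter, Finset.mem_univ, true_and] at hx ⊢
      exact ⟨hx.1, Function.update_self _ _ _⟩
    · intro x hx
      simp only [Finset.mem_filter, Finset.mem_univ, true_and] at hx ⊢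
      exact ⟨hx.1, Function.update_self _ _ _⟩
    · intro x hx
      simp only [Finset.mem_filter, Finset.mem_univ, true_and] at hx ⊢
      rw [Function.update_idem, ← hx.2, Function.update_eq_self]
    · intro x hx
      simp only [Finset.mem_filter, Finset.mem_univ, true_and] at hx ⊢
      rw [Function.update_idem, ← hx.2, Function.update_eq_self]
    · intro x hx
      simp only [Finset.mem_filter, Finset.mem_univ, true_and] at hx
      have := delta_update x.1 x.2 i a b
      rw [hx.1] at this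
      simp only
      rw [← this, ← hx.2, Function.update_eq_self]
  rw [h4, ← Finset.sum_add_distrib]
  unfold K1 coin
  rw [Finset.sum_mul]
  apply Finset.sum_congr rfl
  intro x _
  rw [mul_add, AddMonoidAlgebra.single_mul_single, AddMonoidAlgebra.single_mul_single, add_zero,
    add_comm (AddMonoidAlgebra.single _ _)]
  congr 2 <;> ring

theorem NN_K1 (hμ : Good μ) (i j b : Fin d) : NN (K1 μ i j b) :=
  NN_sum _ _ fun x _ => NN_single _ (mul_nonneg (by norm_num) (wt_nonneg hμ _))

theorem NN_K2 (hμ : Good μ) (i j a b : Fin d) : NN (K2 μ i j a b) :=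
  NN_sum _ _ fun x _ => NN_single _ (wt_nonneg hμ _)

theorem NN_coin (f : G) : NN (coin f) :=
  NN_add (NN_single _ (by norm_num)) (NN_single _ (by norm_num))

theorem mass_coin (f : G) : mass (coin f) = 1 := by
  unfold coin
  rw [mass_add, mass_single, mass_single]; norm_num

theorem mass_K1_pos (hμ : Good μ) {i j : Fin d} (hU : 0 < U μ i j) (b : Fin d) :
    0 < mass (K1 μ i j b) := by
  classical
  obtain ⟨σ, hσ⟩ : ∃ σ : Equiv.Perm (Fin d), 0 < (if σ i = j then μ σ else 0) := by
    by_contra hcon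
    push Not at hcon
    exact absurd hU (not_lt.mpr (Finset.sum_nonpos fun σ _ => hcon σ))
  have hσj : σ i = j := by
    by_contra h
    rw [if_neg h] at hσ
    exact lt_irrefl _ hσ
  rw [if_pos hσj] at hσ
  unfold K1
  rw [mass_sum]
  simp only [mass_single]
  have hd : 0 < (d : ℝ) := by
    have : 0 < d := Fin.pos i
    exact_mod_cast this
  refine lt_of_lt_of_le (b := 2 * wt μ σ) (by unfold wt; positivity) ?_
  exact Finset.single_le_sum (f := fun x : Equiv.Perm (Fin d) × (Fin d → Fin d) => 2 * wt μ x.1)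
    (fun x _ => mul_nonneg (by norm_num) (wt_nonneg hμ _))
    (Finset.mem_filter.mpr ⟨Finset.mem_univ ((σ, fun _ => b) :
      Equiv.Perm (Fin d) × (Fin d → Fin d)), hσj, rfl⟩)

/-- the binomial weights -/
noncomputable def bw (k : ℕ) (p : ℝ) (N : ℕ) : ℝ := (k.choose N : ℝ) * p ^ N * (1 - p) ^ (k - N)

theorem bw_mean (k : ℕ) (p : ℝ) : ∑ N ∈ Finset.range (k + 1), (N : ℝ) * bw k p N = k * p := by
  have h := congrArg (Polynomial.eval p) (bernsteinPolynomial.sum_smul ℝ k)
  rw [Polynomial.eval_finsetSum] at h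
  simp only [nsmul_eq_mul, Polynomial.eval_mul, Polynomial.eval_natCast, Polynomial.eval_X,
    bernsteinPolynomial, Polynomial.eval_pow, Polynomial.eval_sub, Polynomial.eval_one] at h
  rw [← h]
  apply Finset.sum_congr rfl
  intro N _
  unfold bw
  ring

theorem bw_sum (k : ℕ) (p : ℝ) : ∑ N ∈ Finset.range (k + 1), bw k p N = 1 := by
  have h := congrArg (Polynomial.eval p) (bernsteinPolynomial.sum ℝ k)
  rw [Polynomial.eval_finsetSum] at h
  simp only [Polynomial.eval_mul, Polynomial.eval_natCast, Polynomial.eval_X,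
    bernsteinPolynomial, Polynomial.eval_pow, Polynomial.eval_sub, Polynomial.eval_one] at h
  rw [← h]
  apply Finset.sum_congr rfl
  intro N _
  unfold bw
  ring

theorem bw_tail {k : ℕ} (hk : 1 ≤ k) {p : ℝ} (hp : 0 ≤ p) (hp1 : p ≤ 1) :
    p / 2 ≤ ∑ N ∈ Finset.range (k + 1), (if p * k / 2 ≤ (N : ℝ) then bw k p N else 0) := by
  have hb : ∀ N, 0 ≤ bw k p N := fun N => by
    unfold bw
    have : 0 ≤ 1 - p := by linarith
    positivity
  have h1 : ∑ N ∈ Finset.range (k + 1), (N : ℝ) * bw k p N ≤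
      ∑ N ∈ Finset.range (k + 1), (p * k / 2 * bw k p N +
        k * (if p * k / 2 ≤ (N : ℝ) then bw k p N else 0)) := by
    apply Finset.sum_le_sum
    intro N hN
    rw [Finset.mem_range] at hN
    have hN' : (N : ℝ) ≤ k := by exact_mod_cast Nat.lt_succ_iff.mp hN
    by_cases h : p * k / 2 ≤ (N : ℝ)
    · rw [if_pos h]
      have : 0 ≤ p * k / 2 * bw k p N := mul_nonneg (by positivity) (hb N)
      nlinarith [hb N]
    · rw [if_neg h, mul_zero, add_zero]
      exact mul_le_mul_of_nonneg_right (le_of_lt (not_le.mp h)) (hb N)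
  rw [bw_mean, Finset.sum_add_distrib, ← Finset.mul_sum, ← Finset.mul_sum, bw_sum, mul_one] at h1
  have hk' : (1 : ℝ) ≤ k := by exact_mod_cast hk
  have h2 : (k : ℝ) * (p / 2) ≤ k * ∑ N ∈ Finset.range (k + 1),
      (if p * k / 2 ≤ (N : ℝ) then bw k p N else 0) := by linarith
  exact le_of_mul_le_mul_left h2 (by linarith)

end PkgBL

open PkgBL

theorem NN_ell (hμ : Good μ) : NN (ell μ) :=
  NN_sum _ _ fun σ _ => NN_sum _ _ fun c _ => NN_single _ (wt_nonneg hμ σ)

/-- `∑_{σ,c} wt = 1` -/
theorem mass_ell (hμ : Good μ) (hd : 1 ≤ d) : mass (ell μ) = 1 := by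
  unfold ell
  rw [mass_sum]
  simp only [mass_sum, mass_single, Finset.sum_const, Finset.card_univ, Fintype.card_fun,
    Fintype.card_fin, nsmul_eq_mul]
  rw [← hμ.sum_eq_one]
  apply Finset.sum_congr rfl
  intro σ _
  unfold wt
  have hd' : (d : ℝ) ≠ 0 := by
    have : 0 < d := hd
    positivity
  have h1 : (d : ℝ) ^ d * (1 / (d : ℝ)) ^ d = 1 := by
    rw [← mul_pow, mul_one_div_cancel hd', one_pow]
  push_cast
  linear_combination μ σ * h1

/-- **One translate.** Let `i`, `j` be urns with `U i j > 0` and `a ≠ b` colours, `f = swp i j a b`.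
The steps with `σ i = j` and `c i ∈ {a, b}` come in pairs: `delta σ (update c i a) =
delta σ (update c i b) + f` (`j = σ i` receives the ball of urn `i`; for `i = j` both sides
agree). So `ell μ = K1 * coin f + K2` with `K1`, `K2` nonnegative and
`mass K1 = p = 2 U i j / d > 0`, `mass K2 = 1 - p`. Then
`ell^k = ∑_N C(k, N) K1^N K2^(k-N) coin^N` (`add_pow`), `[m f] ell^k` similarly, and by
`Ovl.sum`, `Ovl.mul`, `coin_overlap` (with the constant `2 C / p`) the overlap is at least
`ε ∑_{N ≥ p k / 2} C(k, N) p^N (1 - p)^(k - N) ≥ ε p / 2` (first moment). -/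
theorem block_overlap (hμ : Good μ) (hd : 1 ≤ d) {i j : Fin d} (hU : 0 < U μ i j)
    (a b : Fin d) (hab : a ≠ b) (C : ℝ) (hC : 0 < C) : ∃ ε : ℝ, 0 < ε ∧ ∃ k₀ : ℕ, ∀ k m : ℕ,
      k₀ ≤ k → (m : ℝ) ^ 2 ≤ C * k →
        Ovl (ell μ ^ k) (AddMonoidAlgebra.single (m • swp i j a b) 1 * ell μ ^ k) ε := by
  set f := swp i j a b with hf
  set p := mass (K1 μ i j b) with hp
  have hp0 : 0 < p := mass_K1_pos hμ hU b
  have hsplit : ell μ = K1 μ i j b * coin f + K2 μ i j a b := ell_split i j a b hab
  have hm2 : mass (K2 μ i j a b) = 1 - p := by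
    have := mass_ell hμ hd
    rw [hsplit, mass_add, mass_mul, mass_coin, mul_one] at this
    linarith
  have hp1 : p ≤ 1 := by
    have := mass_nonneg (NN_K2 hμ i j a b)
    rw [hm2] at this
    linarith
  obtain ⟨ε, hε, N₀, hN₀⟩ := coin_overlap (2 * C / p) (by positivity)
  refine ⟨ε * (p / 2), by positivity, max 1 ⌈2 * N₀ / p⌉₊, ?_⟩
  intro k m hk hm
  have hk1 : 1 ≤ k := le_trans (le_max_left _ _) hk
  have hk2 : 2 * (N₀ : ℝ) / p ≤ k :=
    le_trans (Nat.le_ceil _) (by exact_mod_cast le_trans (le_max_right _ _) hk)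
  have hpow : ell μ ^ k = ∑ N ∈ Finset.range (k + 1),
      (K1 μ i j b ^ N * K2 μ i j a b ^ (k - N) * AddMonoidAlgebra.single 0 (k.choose N : ℝ)) *
        coin f ^ N := by
    rw [hsplit, add_pow]
    apply Finset.sum_congr rfl
    intro N _
    have : ((k.choose N : ℕ) : AddMonoidAlgebra ℝ (Sq d)) =
        AddMonoidAlgebra.single 0 (k.choose N : ℝ) := by
      rw [AddMonoidAlgebra.natCast_def]
    rw [mul_pow, this]
    ring
  have hpow' : AddMonoidAlgebra.single (m • f) 1 * ell μ ^ k = ∑ N ∈ Finset.range (k + 1),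
      (K1 μ i j b ^ N * K2 μ i j a b ^ (k - N) * AddMonoidAlgebra.single 0 (k.choose N : ℝ)) *
        (AddMonoidAlgebra.single (m • f) 1 * coin f ^ N) := by
    rw [hpow, Finset.mul_sum]
    apply Finset.sum_congr rfl
    intro N _
    ring
  rw [hpow', hpow]
  have hNNA : ∀ N : ℕ, NN (K1 μ i j b ^ N * K2 μ i j a b ^ (k - N) *
      AddMonoidAlgebra.single 0 (k.choose N : ℝ)) := fun N =>
    NN.mul (NN.mul (NN.pow (NN_K1 hμ i j b) N) (NN.pow (NN_K2 hμ i j a b) _))
      (NN_single _ (by positivity))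
  have hmassA : ∀ N : ℕ, mass (K1 μ i j b ^ N * K2 μ i j a b ^ (k - N) *
      AddMonoidAlgebra.single 0 (k.choose N : ℝ)) = bw k p N := fun N => by
    rw [mass_mul, mass_mul, mass_pow, mass_pow, mass_single, hm2, ← hp]
    unfold bw
    ring
  have hNNs : NN (AddMonoidAlgebra.single (m • f) (1 : ℝ)) := NN_single _ zero_le_one
  refine Ovl_mono (Ovl.sum _ _ _
    (fun N : ℕ => ε * (if p * k / 2 ≤ (N : ℝ) then bw k p N else 0)) ?_) ?_
  · intro N _
    by_cases h : p * k / 2 ≤ (N : ℝ)
    · rw [if_pos h, mul_comm ε, ← hmassA N]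
      refine Ovl.mul (hNNA N) (hNNA N) (NN.pow (NN_coin f) N)
        (NN.mul hNNs (NN.pow (NN_coin f) N)) (mass_nonneg (hNNA N)) hε.le
        (Ovl.self (hNNA N)) (hN₀ (Sq d) f N m ?_ ?_)
      · have h5 : (N₀ : ℝ) ≤ p * k / 2 := by
          rw [div_le_iff₀ hp0] at hk2
          linarith
        exact_mod_cast le_trans h5 h
      · refine le_trans hm ?_
        rw [div_mul_eq_mul_div, le_div_iff₀ hp0]
        nlinarith
    · rw [if_neg h, mul_zero]
      exact Ovl_zero (NN.mul (hNNA N) (NN.pow (NN_coin f) N))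
        (NN.mul (hNNA N) (NN.mul hNNs (NN.pow (NN_coin f) N)))
  · rw [← Finset.mul_sum]
    exact mul_le_mul_of_nonneg_left (bw_tail hk1 hp0.le hp1) hε.le

end Pool.Agent.T2H73.BL
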