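import Pool.Agent.T2H73.BL.Alg

/-!
# Package CO: overlap of the binomial law with its translates
-/

set_option autoImplicit false

namespace Pool.Agent.T2H73.BL

open Filter Topology
open scoped BigOperators

namespace CO

/-- Chebyshev for the fair binomial law. -/
theorem binom_mass (N : ℕ) (hN : 1 ≤ N) :
    3 / 4 ≤ ∑ h ∈ (Finset.range (N + 1)).filter (fun h : ℕ => |(h : ℝ) - N / 2| ≤ √N),
      (N.choose h : ℝ) / 2 ^ N := by
  have hN0 : N ≠ 0 := by omega
  have hNp : (0 : ℝ) < N := by exact_mod_cast hN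
  have hv := bernstein.variance hN0 (⟨1 / 2, by norm_num, by norm_num⟩ : unitInterval)
  have hp := bernstein.probability N (⟨1 / 2, by norm_num, by norm_num⟩ : unitInterval)
  have hb : ∀ k : Fin (N + 1),
      bernstein N k (⟨1 / 2, by norm_num, by norm_num⟩ : unitInterval) =
        (N.choose k : ℝ) / 2 ^ N := by
    intro k
    rw [bernstein_apply]
    have hk : (k : ℕ) ≤ N := by have := k.2; omega
    simp only
    rw [show (1 : ℝ) - 1 / 2 = 1 / 2 by norm_num, mul_assoc, ← pow_add,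
      Nat.add_sub_cancel' hk, one_div, inv_pow]
    rfl
  simp only [hb] at hv hp
  have hp' : ∑ h ∈ Finset.range (N + 1), (N.choose h : ℝ) / 2 ^ N = 1 := by
    rw [Finset.sum_range]
    exact hp
  have hv' : ∑ h ∈ Finset.range (N + 1), ((h : ℝ) - N / 2) ^ 2 * ((N.choose h : ℝ) / 2 ^ N) =
      (N : ℝ) / 4 := by
    rw [Finset.sum_range]
    have h1 : ∀ k : Fin (N + 1), (((k : ℕ) : ℝ) - (N : ℝ) / 2) ^ 2 * ((N.choose k : ℝ) / 2 ^ N) =
        (N : ℝ) ^ 2 * ((1 / 2 - ((k : ℕ) : ℝ) / N) ^ 2 * ((N.choose k : ℝ) / 2 ^ N)) := by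
      intro k
      have : (((k : ℕ) : ℝ) - (N : ℝ) / 2) ^ 2 = (N : ℝ) ^ 2 * (1 / 2 - ((k : ℕ) : ℝ) / N) ^ 2 := by
        field_simp
        ring
      rw [this]
      ring
    rw [Finset.sum_congr rfl fun k _ => h1 k, ← Finset.mul_sum]
    have h2 : ∑ k : Fin (N + 1), ((1 / 2 - ((k : ℕ) : ℝ) / N) ^ 2 *
        ((N.choose k : ℝ) / 2 ^ N)) = (1 / 2 * (1 - 1 / 2) / N : ℝ) := hv
    rw [h2]
    field_simp
    ring
  have hsplit := Finset.sum_filter_add_sum_filter_not (Finset.range (N + 1))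
    (fun h : ℕ => |(h : ℝ) - N / 2| ≤ √N) (fun h => (N.choose h : ℝ) / 2 ^ N)
  have hbad : ∑ h ∈ (Finset.range (N + 1)).filter (fun h : ℕ => ¬ |(h : ℝ) - N / 2| ≤ √N),
      (N.choose h : ℝ) / 2 ^ N ≤ 1 / 4 := by
    have h1 : (N : ℝ) * ∑ h ∈ (Finset.range (N + 1)).filter
        (fun h : ℕ => ¬ |(h : ℝ) - N / 2| ≤ √N), (N.choose h : ℝ) / 2 ^ N ≤ N / 4 := by
      rw [← hv', Finset.mul_sum]
      refine (Finset.sum_le_sum (g := fun h : ℕ => ((h : ℝ) - N / 2) ^ 2 *
        ((N.choose h : ℝ) / 2 ^ N)) fun h hh => ?_).trans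
        (Finset.sum_le_sum_of_subset_of_nonneg (Finset.filter_subset _ _)
          fun h _ _ => by positivity)
      rw [Finset.mem_filter, not_le] at hh
      refine mul_le_mul_of_nonneg_right ?_ (by positivity)
      have h3 : √(N : ℝ) ^ 2 ≤ |(h : ℝ) - N / 2| ^ 2 :=
        pow_le_pow_left₀ (Real.sqrt_nonneg _) hh.2.le 2
      rwa [Real.sq_sqrt hNp.le, sq_abs] at h3
    have h2 : (N : ℝ) * ∑ h ∈ (Finset.range (N + 1)).filter
        (fun h : ℕ => ¬ |(h : ℝ) - N / 2| ≤ √N), (N.choose h : ℝ) / 2 ^ N ≤ N * (1 / 4) := by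
      linarith
    exact le_of_mul_le_mul_left h2 hNp
  rw [hp'] at hsplit
  linarith

/-- One step to the left. -/
theorem choose_step {N k : ℕ} {A B : ℝ} (hA : 0 < A) (h1 : A ≤ k + 1) (h2 : (N : ℝ) - k ≤ B)
    (hk : k ≤ N) : (N.choose (k + 1) : ℝ) ≤ B / A * N.choose k := by
  have h := Nat.choose_succ_right_eq N k
  have h' : (N.choose (k + 1) : ℝ) * (k + 1) = N.choose k * (N - k) := by
    have h3 : ((N.choose (k + 1) * (k + 1) : ℕ) : ℝ) = ((N.choose k * (N - k) : ℕ) : ℝ) := by
      rw [h]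
    push_cast [Nat.cast_sub hk] at h3
    exact h3
  rw [div_mul_eq_mul_div, le_div_iff₀ hA]
  calc (N.choose (k + 1) : ℝ) * A ≤ N.choose (k + 1) * (k + 1) :=
        mul_le_mul_of_nonneg_left h1 (by positivity)
    _ = N.choose k * (N - k) := h'
    _ ≤ N.choose k * B := mul_le_mul_of_nonneg_left h2 (by positivity)
    _ = B * N.choose k := mul_comm _ _

/-- `m` steps to the left. -/
theorem choose_steps {N m : ℕ} {A B : ℝ} (hA : 0 < A) (hAB : 0 ≤ B) (j : ℕ)
    (h1 : A ≤ j + 1) (h2 : (N : ℝ) - j ≤ B) (hm : j + m ≤ N) :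
    (N.choose (j + m) : ℝ) ≤ (B / A) ^ m * N.choose j := by
  induction m with
  | zero => simp
  | succ m ih =>
    have h3 := ih (by omega)
    have h4 : (N.choose (j + m + 1) : ℝ) ≤ B / A * N.choose (j + m) := by
      refine choose_step hA ?_ ?_ (by omega)
      · push_cast
        have : (0 : ℝ) ≤ m := Nat.cast_nonneg _
        linarith
      · push_cast
        have : (0 : ℝ) ≤ m := Nat.cast_nonneg _
        linarith
    calc (N.choose (j + (m + 1)) : ℝ) = N.choose (j + m + 1) := by rw [add_assoc]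
      _ ≤ B / A * N.choose (j + m) := h4
      _ ≤ B / A * ((B / A) ^ m * N.choose j) :=
          mul_le_mul_of_nonneg_left h3 (by positivity)
      _ = (B / A) ^ (m + 1) * N.choose j := by ring

/-- The binomial coefficients within `√N` of the centre are comparable with their neighbours. -/
theorem choose_shift (C : ℝ) (hC : 0 < C) : ∃ R : ℝ, 1 ≤ R ∧ ∃ N₀ : ℕ, 1 ≤ N₀ ∧ ∀ N m : ℕ,
    N₀ ≤ N → (m : ℝ) ^ 2 ≤ C * N → ∀ h : ℕ, h ≤ N → |(h : ℝ) - N / 2| ≤ √N →
      m ≤ h ∧ (N.choose h : ℝ) ≤ R * N.choose (h - m) := by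
  set K : ℝ := √C with hK
  have hK0 : 0 < K := Real.sqrt_pos.2 hC
  have hKsq : K ^ 2 = C := Real.sq_sqrt hC.le
  obtain ⟨N₀, hN₀⟩ := exists_nat_ge ((4 * (1 + K)) ^ 2 + 1)
  refine ⟨Real.exp (8 * (1 + K) * K), Real.one_le_exp (by positivity), N₀, ?_, ?_⟩
  · have h1 : (1 : ℝ) ≤ N₀ := by nlinarith [sq_nonneg (4 * (1 + K))]
    exact_mod_cast h1
  intro N m hN hm h hh hs
  have hNr : (N₀ : ℝ) ≤ N := by exact_mod_cast hN
  have hNp : (0 : ℝ) < N := by nlinarith [sq_nonneg (4 * (1 + K))]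
  set s : ℝ := √N with hsdef
  have hs0 : 0 < s := Real.sqrt_pos.2 hNp
  have hssq : s ^ 2 = N := Real.sq_sqrt hNp.le
  have hs4 : 4 * (1 + K) ≤ s := by
    rw [hsdef]
    exact Real.le_sqrt_of_sq_le (by linarith)
  have hmK : (m : ℝ) ≤ K * s := by
    have h1 : (m : ℝ) ^ 2 ≤ (K * s) ^ 2 := by
      rw [mul_pow, hKsq, hssq]
      exact hm
    exact (pow_le_pow_iff_left₀ (Nat.cast_nonneg _) (by positivity) two_ne_zero).1 h1
  rw [abs_le] at hs
  set A : ℝ := N / 2 - s - m with hAdef
  set B : ℝ := N / 2 + s + m with hBdef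
  have hm0 : (0 : ℝ) ≤ m := Nat.cast_nonneg _
  have hA4 : (N : ℝ) / 4 ≤ A := by
    have h1 : s + K * s ≤ N / 4 := by nlinarith
    rw [hAdef]
    linarith
  have hA0 : 0 < A := by linarith
  have hB0 : 0 ≤ B := by rw [hBdef]; positivity
  have hmh : m ≤ h := by
    have h1 : (m : ℝ) ≤ h := by
      have : 0 < A := hA0
      rw [hAdef] at this
      linarith
    exact_mod_cast h1
  refine ⟨hmh, ?_⟩
  have hsub : ((h - m : ℕ) : ℝ) = h - m := by push_cast [Nat.cast_sub hmh]; ring
  have hst := choose_steps (N := N) (m := m) hA0 hB0 (h - m) (by rw [hsub, hAdef]; linarith)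
    (by rw [hsub, hBdef]; linarith) (by omega)
  rw [Nat.sub_add_cancel hmh] at hst
  refine hst.trans (mul_le_mul_of_nonneg_right ?_ (by positivity))
  have hBA : B / A ≤ Real.exp (8 * (1 + K) / s) := by
    have h1 : B / A ≤ 8 * (1 + K) / s + 1 := by
      rw [div_le_iff₀ hA0]
      have h2 : B = A + 2 * (s + m) := by rw [hAdef, hBdef]; ring
      rw [h2]
      have h3 : 2 * (s + m) ≤ 8 * (1 + K) / s * A := by
        have h4 : 8 * (1 + K) / s * (N / 4) ≤ 8 * (1 + K) / s * A :=
          mul_le_mul_of_nonneg_left hA4 (by positivity)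
        have h5 : 8 * (1 + K) / s * (N / 4) = 2 * (1 + K) * s := by
          rw [← hssq]
          field_simp
          ring
        nlinarith
      linarith
    exact h1.trans (Real.add_one_le_exp _)
  calc (B / A) ^ m ≤ (Real.exp (8 * (1 + K) / s)) ^ m := pow_le_pow_left₀ (by positivity) hBA m
    _ = Real.exp (m * (8 * (1 + K) / s)) := by rw [← Real.exp_nat_mul]
    _ ≤ Real.exp (8 * (1 + K) * K) := by
        apply Real.exp_le_exp.2
        have h1 : (m : ℝ) * (8 * (1 + K) / s) ≤ K * s * (8 * (1 + K) / s) :=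
          mul_le_mul_of_nonneg_right hmK (by positivity)
        have h2 : K * s * (8 * (1 + K) / s) = 8 * (1 + K) * K := by
          field_simp
        linarith

variable {G : Type} [AddCommGroup G] [DecidableEq G]

omit [AddCommGroup G] [DecidableEq G] in
theorem val_sum' {ι : Type} (s : Finset ι) (F : ι → AddMonoidAlgebra ℝ G) (g : G) :
    val (∑ i ∈ s, F i) g = ∑ i ∈ s, val (F i) g := by
  unfold val
  rw [AddMonoidAlgebra.coeff_sum, Finsupp.finsetSum_apply]

omit [AddCommGroup G] in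
theorem val_single' (x g : G) (r : ℝ) :
    val (AddMonoidAlgebra.single x r) g = if x = g then r else 0 := by
  unfold val
  rw [AddMonoidAlgebra.coeff_single, Finsupp.single_apply]

end CO

open CO

/-- **Overlap of the binomial law with its translates.** `C(N, h - m) ≥ ε C(N, h)` for all
`|h - N/2| ≤ √N` and `m ≤ √(C N)`, since the ratio is
`∏_{l < m} (h - l) / (N - h + l + 1) ≥ ((N/2 - √N - m) / (N/2 + √N + m))^m`, bounded below for large
`N`; the mass of these `h` is at least `3/4` (variance `N/4`, Chebyshev; e.g. `bernstein.variance`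
at `1/2` or `∑ (N - 2h)² C(N, h) = N 2^N`). The common minorant is
`∑_{|h - N/2| ≤ √N} ε C(N, h) / 2^N [h f]`, below `coin f ^ N` and below
`[m f] * coin f ^ N = ∑_h C(N, h - m) / 2^N [h f]`. (No assumption on the order of `f`: work
with the coefficients as a sum of singles; all terms are nonnegative.) -/
theorem coin_overlap (C : ℝ) (hC : 0 < C) : ∃ ε : ℝ, 0 < ε ∧ ∃ N₀ : ℕ, ∀ (G : Type)
    [AddCommGroup G] [DecidableEq G] (f : G) (N m : ℕ), N₀ ≤ N → (m : ℝ) ^ 2 ≤ C * N →
      Ovl (coin f ^ N) (AddMonoidAlgebra.single (m • f) 1 * coin f ^ N) ε := by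
  obtain ⟨R, hR, N₀, hN₀, hsh⟩ := choose_shift C hC
  refine ⟨3 / 4 / R, by positivity, N₀, ?_⟩
  intro G _ _ f N m hN hm
  have hRp : 0 < R := by linarith
  set S : Finset ℕ := (Finset.range (N + 1)).filter (fun h : ℕ => |(h : ℝ) - N / 2| ≤ √N) with hS
  have hSmem : ∀ h ∈ S, h ≤ N ∧ |(h : ℝ) - N / 2| ≤ √N := by
    intro h hh
    rw [hS, Finset.mem_filter, Finset.mem_range] at hh
    exact ⟨by omega, hh.2⟩
  have hcoin : ∀ g, val (coin f ^ N) g = ∑ h ∈ Finset.range (N + 1),
      (if h • f = g then (N.choose h : ℝ) / 2 ^ N else 0) := by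
    intro g
    rw [coin_pow, val_sum']
    exact Finset.sum_congr rfl fun h _ => val_single' _ _ _
  refine ⟨∑ h ∈ S, AddMonoidAlgebra.single (h • f) ((N.choose h : ℝ) / 2 ^ N / R), ?_, ?_, ?_, ?_⟩
  · intro g
    rw [val_sum']
    refine Finset.sum_nonneg fun h _ => ?_
    rw [val_single']
    split_ifs
    · positivity
    · exact le_rfl
  · intro g
    rw [val_sum', hcoin]
    refine (Finset.sum_le_sum (g := fun h : ℕ =>
      (if h • f = g then (N.choose h : ℝ) / 2 ^ N else 0)) fun h _ => ?_).trans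
      (Finset.sum_le_sum_of_subset_of_nonneg (Finset.filter_subset _ _) fun h _ _ => ?_)
    · rw [val_single']
      split_ifs
      · exact div_le_self (by positivity) hR
      · exact le_rfl
    · split_ifs
      · positivity
      · exact le_rfl
  · intro g
    rw [val_sum', val_single_mul, hcoin]
    have h1 : ∀ h ∈ S, val (AddMonoidAlgebra.single (h • f) ((N.choose h : ℝ) / 2 ^ N / R)) g ≤
        (if (h - m) • f = g - m • f then (N.choose (h - m) : ℝ) / 2 ^ N else 0) := by
      intro h hh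
      obtain ⟨hhN, hhs⟩ := hSmem h hh
      obtain ⟨hmh, hle⟩ := hsh N m hN hm h hhN hhs
      rw [val_single']
      have heq : (h • f = g) ↔ ((h - m) • f = g - m • f) := by
        rw [eq_sub_iff_add_eq, ← add_smul, Nat.sub_add_cancel hmh]
      by_cases hc : h • f = g
      · rw [if_pos hc, if_pos (heq.1 hc)]
        rw [div_right_comm]
        refine div_le_div_of_nonneg_right ?_ (by positivity)
        rw [div_le_iff₀ hRp]
        linarith
      · rw [if_neg hc, if_neg (fun h' => hc (heq.2 h'))]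
    refine (Finset.sum_le_sum h1).trans ?_
    have hinj : Set.InjOn (fun h : ℕ => h - m) (S : Set ℕ) := by
      intro a ha b hb hab
      obtain ⟨h2, h3⟩ := hSmem a ha
      obtain ⟨h4, h5⟩ := hSmem b hb
      have h6 := (hsh N m hN hm a h2 h3).1
      have h7 := (hsh N m hN hm b h4 h5).1
      simp only at hab
      omega
    rw [← Finset.sum_image (g := fun h : ℕ => h - m) (s := S)
      (f := fun k : ℕ => if k • f = g - m • f then (N.choose k : ℝ) / 2 ^ N else 0) hinj]
    refine Finset.sum_le_sum_of_subset_of_nonneg ?_ fun h _ _ => ?_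
    · intro k hk
      rw [Finset.mem_image] at hk
      obtain ⟨h, hh, rfl⟩ := hk
      rw [Finset.mem_range]
      have := (hSmem h hh).1
      omega
    · split_ifs
      · positivity
      · exact le_rfl
  · rw [mass_sum]
    simp only [mass_single]
    rw [← Finset.sum_div]
    refine div_le_div_of_nonneg_right ?_ hRp.le
    exact binom_mass N (by omega)

end Pool.Agent.T2H73.BL
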