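import Mathlib

/-!
# The balanced generalised Bernoulli–Laplace chain (MP_820675_pr): definitions
-/

set_option autoImplicit false

namespace Pool.Agent.T2H73.BL

open Filter Topology
open scoped BigOperators

variable {d n : ℕ}

/-- A state of the balanced chain: `N i a` balls of colour `a` are in urn `i`; every urn holds `n`
balls and there are `n` balls of every colour. -/
def State (d n : ℕ) : Type :=
  {N : Fin d → Fin d → Fin (n + 1) // (∀ i, ∑ a, (N i a : ℕ) = n) ∧ ∀ a, ∑ i, (N i a : ℕ) = n}

noncomputable instance : Fintype (State d n) := by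
  unfold State
  infer_instance

noncomputable instance : DecidableEq (State d n) := Classical.decEq _

/-- integer matrices -/
abbrev Sq (d : ℕ) : Type := Fin d → Fin d → ℤ

/-- the matrix of the numbers of balls -/
def State.toZ (N : State d n) : Sq d := fun i a => ((N.1 i a : ℕ) : ℤ)

/-- The change of the numbers of balls when a ball of colour `c i` is picked from urn `i` and moved
to urn `σ i`, for every `i`: urn `j` receives the ball picked from urn `σ⁻¹ j` and loses the ball
picked from urn `j`. -/
def delta (σ : Equiv.Perm (Fin d)) (c : Fin d → Fin d) : Sq d := fun j a =>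
  (if c (σ.symm j) = a then 1 else 0) - (if c j = a then 1 else 0)

/-- The transition probabilities of one step: `σ` has the law `μ`, and the ball picked from urn `i`
has colour `a` with probability `N i a / n`, independently for the different urns. -/
noncomputable def stepM (μ : Equiv.Perm (Fin d) → ℝ) (n : ℕ) :
    Matrix (State d n) (State d n) ℝ := fun N N' =>
  ∑ σ : Equiv.Perm (Fin d), ∑ c : Fin d → Fin d,
    μ σ * (∏ i, (((N.1 i (c i) : ℕ) : ℝ) / n)) *
      (open Classical in if N'.toZ = N.toZ + delta σ c then 1 else 0)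

/-- The transition probabilities at time `t` of the continuous-time chain (steps at rate `1`). -/
noncomputable def Pt (μ : Equiv.Perm (Fin d) → ℝ) (n : ℕ) (t : ℝ) :
    Matrix (State d n) (State d n) ℝ :=
  NormedSpace.exp (t • (stepM μ n - 1))

/-- total variation distance -/
noncomputable def tv {S : Type} [Fintype S] (p q : S → ℝ) : ℝ := (1 / 2) * ∑ x, |p x - q x|

/-- `π` is a stationary law. -/
structure IsStationary (μ : Equiv.Perm (Fin d) → ℝ) (n : ℕ) (π : State d n → ℝ) : Prop where
  nonneg : ∀ x, 0 ≤ π x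
  sum_eq_one : ∑ x, π x = 1
  stationary : ∀ y, ∑ x, π x * stepM μ n x y = π y

/-- `d_n(t)`: the worst-case total variation distance at time `t` (for `t < 0`, which plays no role,
read as time `0`). -/
noncomputable def worst (μ : Equiv.Perm (Fin d) → ℝ) (n : ℕ) (π : State d n → ℝ) (t : ℝ) : ℝ :=
  ⨆ η : State d n, tv (Pt μ n (max t 0) η) π

/-- `t_mix = inf {t ≥ 0 | d_n(t) ≤ 1/4}`. -/
noncomputable def tmix (μ : Equiv.Perm (Fin d) → ℝ) (n : ℕ) (π : State d n → ℝ) : ℝ :=
  sInf {t : ℝ | 0 ≤ t ∧ worst μ n π t ≤ 1 / 4}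

/-- The chains have cutoff with window of size `O(w_n)`. -/
def HasCutoffWindow (μ : Equiv.Perm (Fin d) → ℝ) (π : ∀ n, State d n → ℝ) (w : ℕ → ℝ) : Prop :=
  w =o[atTop] (fun n => tmix μ n (π n)) ∧
  Tendsto (fun α : ℝ => liminf (fun n => worst μ n (π n) (tmix μ n (π n) - α * w n)) atTop)
    atTop (𝓝 1) ∧
  Tendsto (fun α : ℝ => limsup (fun n => worst μ n (π n) (tmix μ n (π n) + α * w n)) atTop)
    atTop (𝓝 0)

/-- `U i j` is the probability that `σ i = j`. -/
noncomputable def U (μ : Equiv.Perm (Fin d) → ℝ) : Matrix (Fin d) (Fin d) ℝ := fun i j =>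
  ∑ σ : Equiv.Perm (Fin d), if σ i = j then μ σ else 0

/-- `μ` is a probability distribution on `S_d` and `U` is irreducible. -/
structure Good (μ : Equiv.Perm (Fin d) → ℝ) : Prop where
  nonneg : ∀ σ, 0 ≤ μ σ
  sum_eq_one : ∑ σ, μ σ = 1
  irred : ∀ i j, ∃ m : ℕ, 0 < (U μ ^ m) i j

end Pool.Agent.T2H73.BL
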