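import Pool.Agent.T2H73.BL.Defs

/-!
# Package EX: continuous-time semigroups `exp (t (P - 1))` of finite matrices (pure Mathlib)

`local instance`s of the norm on matrices (e.g. `Matrix.linftyOpNormedRing`,
`Matrix.linftyOpNormedAlgebra`) may be used inside the proofs; `NormedSpace.exp` does not depend
on them. `Matrix.mulVec P f x = ∑ y, P x y * f y`.
-/

set_option autoImplicit false

namespace Pool.Agent.T2H73.BL

open Filter Topology
open scoped BigOperators

variable {S : Type} [Fintype S] [DecidableEq S]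

/-- `exp (t (P - 1))` -/
noncomputable def ex (P : Matrix S S ℝ) (t : ℝ) : Matrix S S ℝ := NormedSpace.exp (t • (P - 1))

namespace Expo

theorem hsc {α : Type} [AddCommMonoid α] [TopologicalSpace α] {f g : ℕ → α} {a : α}
    (h : ∀ k, f k = g k) (hf : HasSum f a) : HasSum g a := by
  rw [← funext h]
  exact hf

theorem hasSum_exp (A : Matrix S S ℝ) :
    HasSum (fun n : ℕ => ((n.factorial : ℝ)⁻¹) • A ^ n) (NormedSpace.exp A) := by
  letI : NormedRing (Matrix S S ℝ) := Matrix.linftyOpNormedRing
  letI : NormedAlgebra ℝ (Matrix S S ℝ) := Matrix.linftyOpNormedAlgebra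
  exact NormedSpace.exp_series_hasSum_exp' (𝕂 := ℝ) A

theorem exp_smul_one (a : ℝ) :
    NormedSpace.exp (a • (1 : Matrix S S ℝ)) = Real.exp a • (1 : Matrix S S ℝ) := by
  letI : NormedRing (Matrix S S ℝ) := Matrix.linftyOpNormedRing
  letI : NormedAlgebra ℝ (Matrix S S ℝ) := Matrix.linftyOpNormedAlgebra
  have h := NormedSpace.algebraMap_exp_comm (𝕂 := ℝ) (𝔸 := Matrix S S ℝ) a
  rw [Algebra.algebraMap_eq_smul_one, Algebra.algebraMap_eq_smul_one] at h
  rw [Real.exp_eq_exp_ℝ]
  exact h.symm

/-- the coefficients of the exponential series -/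
theorem hasSum_coeff (t : ℝ) :
    HasSum (fun k : ℕ => Real.exp (-t) * t ^ k / k.factorial) 1 := by
  have h := NormedSpace.exp_series_hasSum_exp' (𝕂 := ℝ) t
  have h2 := h.mul_left (Real.exp (-t))
  have e : Real.exp (-t) * NormedSpace.exp t = 1 := by
    rw [← congrFun Real.exp_eq_exp_ℝ t, ← Real.exp_add]
    simp
  rw [e] at h2
  refine hsc (fun k => ?_) h2
  simp only [smul_eq_mul]
  ring

end Expo

open Expo

/-- `exp (t (P - 1)) = exp (-t) exp (t P)` (commuting summands), and the exponential series. -/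
theorem ex_series (P : Matrix S S ℝ) (t : ℝ) (x y : S) :
    HasSum (fun k : ℕ => Real.exp (-t) * t ^ k / k.factorial * (P ^ k) x y) (ex P t x y) := by
  have e : ex P t = Real.exp (-t) • NormedSpace.exp (t • P) := by
    unfold ex
    rw [show t • (P - 1) = (-t) • (1 : Matrix S S ℝ) + t • P by rw [smul_sub, neg_smul]; abel,
      Matrix.exp_add_of_commute, exp_smul_one, smul_mul_assoc, one_mul]
    exact ((Commute.one_left _).smul_left _)
  rw [e]
  have h := hasSum_exp (t • P)
  have h2 := Pi.hasSum.mp (Pi.hasSum.mp h x) y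
  have h3 := h2.mul_left (Real.exp (-t))
  refine hsc (fun k => ?_) h3
  rw [Matrix.smul_apply, smul_pow, Matrix.smul_apply, smul_eq_mul, smul_eq_mul]
  ring

theorem ex_nonneg {P : Matrix S S ℝ} (hP : ∀ x y, 0 ≤ P x y) {t : ℝ} (ht : 0 ≤ t) (x y : S) :
    0 ≤ ex P t x y := by
  have hpow : ∀ (k : ℕ) (x y : S), 0 ≤ (P ^ k) x y := by
    intro k
    induction k with
    | zero =>
      intro x y
      rw [pow_zero, Matrix.one_apply]
      split_ifs <;> norm_num
    | succ k ih =>
      intro x y
      rw [pow_succ, Matrix.mul_apply]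
      exact Finset.sum_nonneg fun z _ => mul_nonneg (ih x z) (hP z y)
  exact (ex_series P t x y).nonneg fun k => by have := hpow k x y; positivity

theorem ex_add (P : Matrix S S ℝ) (s t : ℝ) : ex P (s + t) = ex P s * ex P t := by
  unfold ex
  rw [add_smul, Matrix.exp_add_of_commute]
  exact ((Commute.refl (P - 1)).smul_left s).smul_right t

theorem ex_zero (P : Matrix S S ℝ) : ex P 0 = 1 := by
  unfold ex
  rw [zero_smul, NormedSpace.exp_zero]

/-- `(P - 1) 1 = 0` implies `exp (t (P - 1)) 1 = 1` (or `ex_series`). -/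
theorem ex_sum {P : Matrix S S ℝ} (hP : ∀ x, ∑ y, P x y = 1) (t : ℝ) (x : S) :
    ∑ y, ex P t x y = 1 := by
  have hpow : ∀ (k : ℕ) (x : S), ∑ y, (P ^ k) x y = 1 := by
    intro k
    induction k with
    | zero =>
      intro x
      simp [Matrix.one_apply]
    | succ k ih =>
      intro x
      simp_rw [pow_succ, Matrix.mul_apply]
      rw [Finset.sum_comm]
      simp_rw [← Finset.mul_sum, hP, mul_one]
      exact ih x
  have h := hasSum_sum (s := Finset.univ) fun y _ => ex_series P t x y
  have h2 : HasSum (fun k : ℕ => Real.exp (-t) * t ^ k / k.factorial) (∑ y, ex P t x y) := by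
    refine hsc (fun k => ?_) h
    rw [← Finset.mul_sum, hpow, mul_one]
  exact h2.unique (hasSum_coeff t)

/-- `π P = π` implies `π exp (t (P - 1)) = π`. -/
theorem ex_stat {P : Matrix S S ℝ} {π : S → ℝ} (h : ∀ y, ∑ x, π x * P x y = π y) (t : ℝ)
    (y : S) : ∑ x, π x * ex P t x y = π y := by
  have hpow : ∀ (k : ℕ) (y : S), ∑ x, π x * (P ^ k) x y = π y := by
    intro k
    induction k with
    | zero =>
      intro y
      simp [Matrix.one_apply]
    | succ k ih =>
      intro y
      simp_rw [pow_succ, Matrix.mul_apply, Finset.mul_sum]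
      rw [Finset.sum_comm]
      simp_rw [← mul_assoc, ← Finset.sum_mul, ih]
      exact h y
  have h1 := hasSum_sum (s := Finset.univ) fun x _ => (ex_series P t x y).mul_left (π x)
  have h2 : HasSum (fun k : ℕ => Real.exp (-t) * t ^ k / k.factorial * π y)
      (∑ x, π x * ex P t x y) := by
    refine hsc (fun k => ?_) h1
    rw [← hpow k y, Finset.mul_sum]
    exact Finset.sum_congr rfl fun x _ => by ring
  have h3 := (hasSum_coeff t).mul_right (π y)
  rw [one_mul] at h3
  exact h2.unique h3

/-- If `P (Φ v) = Φ (A v)` then `exp (t (P - 1)) (Φ v) = Φ (exp (t (A - 1)) v)` (by `ex_series`, or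
continuity of linear maps). -/
theorem ex_intertwine {V : Type} [Fintype V] [DecidableEq V] (P : Matrix S S ℝ)
    (A : Matrix V V ℝ) (Φ : (V → ℝ) →ₗ[ℝ] (S → ℝ))
    (h : ∀ v, P.mulVec (Φ v) = Φ (A.mulVec v)) (t : ℝ) (v : V → ℝ) :
    (ex P t).mulVec (Φ v) = Φ ((ex A t).mulVec v) := by
  have hpow : ∀ (k : ℕ), (P ^ k).mulVec (Φ v) = Φ ((A ^ k).mulVec v) := by
    intro k
    induction k with
    | zero => simp
    | succ k ih =>
      rw [pow_succ', pow_succ', ← Matrix.mulVec_mulVec, ih, h, ← Matrix.mulVec_mulVec]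
  -- the series applied to a vector
  have hser : ∀ {T : Type} [Fintype T] [DecidableEq T] (Q : Matrix T T ℝ) (f : T → ℝ),
      HasSum (fun k : ℕ => (Real.exp (-t) * t ^ k / k.factorial) • (Q ^ k).mulVec f)
        ((ex Q t).mulVec f) := by
    intro T _ _ Q f
    rw [Pi.hasSum]
    intro x
    have h1 := hasSum_sum (s := Finset.univ) fun y _ => (ex_series Q t x y).mul_right (f y)
    refine hsc (fun k => ?_) h1
    rw [Pi.smul_apply, smul_eq_mul, Matrix.mulVec, dotProduct, Finset.mul_sum]
    exact Finset.sum_congr rfl fun y _ => by ring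
  have h1 := hser P (Φ v)
  have h2 := (hser A v).mapL (LinearMap.toContinuousLinearMap Φ)
  refine h1.unique (hsc (fun k => ?_) h2)
  rw [map_smul, hpow]
  rfl

/-- Derivative of `t ↦ exp (t (P - 1)) f (x)`. -/
theorem hasDerivAt_ex (P : Matrix S S ℝ) (f : S → ℝ) (t : ℝ) (x : S) :
    HasDerivAt (fun t => (ex P t).mulVec f x) ((ex P t).mulVec ((P - 1).mulVec f) x) t := by
  letI : NormedRing (Matrix S S ℝ) := Matrix.linftyOpNormedRing
  letI : NormedAlgebra ℝ (Matrix S S ℝ) := Matrix.linftyOpNormedAlgebra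
  have h : HasDerivAt (fun u : ℝ => NormedSpace.exp (u • (P - 1)))
      (NormedSpace.exp (t • (P - 1)) * (P - 1)) t := hasDerivAt_exp_smul_const (P - 1) t
  let Λ : Matrix S S ℝ →ₗ[ℝ] ℝ :=
    { toFun := fun M => M.mulVec f x
      map_add' := fun M N => by rw [Matrix.add_mulVec]; rfl
      map_smul' := fun c M => by rw [Matrix.smul_mulVec]; rfl }
  have h2 := (LinearMap.toContinuousLinearMap Λ).hasFDerivAt.comp_hasDerivAt t h
  have e : (ex P t).mulVec ((P - 1).mulVec f) x = Λ (NormedSpace.exp (t • (P - 1)) * (P - 1)) := by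
    change _ = (NormedSpace.exp (t • (P - 1)) * (P - 1)).mulVec f x
    rw [← Matrix.mulVec_mulVec]
    rfl
  rw [e]
  exact h2

end Pool.Agent.T2H73.BL
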