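import Pool.Agent.T2H73.BL.Expo

/-!
# Package EX2: the variance bound for continuous-time semigroups of finite matrices
-/

set_option autoImplicit false

namespace Pool.Agent.T2H73.BL

open Filter Topology
open scoped BigOperators

variable {S : Type} [Fintype S] [DecidableEq S]

/-- `exp (t (P - 1))` commutes with `P - 1`. -/
theorem ex_comm2 (P : Matrix S S ℝ) (t : ℝ) : Commute (P - 1) (ex P t) := by
  unfold ex
  exact ((Commute.refl (P - 1)).smul_right t).exp_right

theorem mulVec_single_one2 (M : Matrix S S ℝ) (x y : S) :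
    M.mulVec (Pi.single y 1) x = M x y := by
  simp

/-- **Variance formula as a bound** (see `variance_le` in `Expo.lean`). -/
theorem variance_le2 {P : Matrix S S ℝ} (hP : ∀ x y, 0 ≤ P x y) (hP1 : ∀ x, ∑ y, P x y = 1)
    (g : S → ℝ) {t A c : ℝ} (ht : 0 ≤ t) (hA : 0 ≤ A) (hc : 0 < c)
    (h : ∀ r, 0 ≤ r → r ≤ t → ∀ x, ∑ y, P x y * ((ex P r).mulVec g y - (ex P r).mulVec g x) ^ 2 ≤
      A * Real.exp (-c * r)) (x : S) :
    ∑ y, ex P t x y * (g y - (ex P t).mulVec g x) ^ 2 ≤ A / c := by
  set u : ℝ → S → ℝ := fun r => (ex P r).mulVec g with hu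
  -- derivative of `u`
  have hu' : ∀ r y, HasDerivAt (fun r => u r y) ((P - 1).mulVec (u r) y) r := by
    intro r y
    have h1 := hasDerivAt_ex P g r y
    have h2 : (ex P r).mulVec ((P - 1).mulVec g) = (P - 1).mulVec (u r) := by
      rw [hu, Matrix.mulVec_mulVec, Matrix.mulVec_mulVec, (ex_comm2 P r).eq]
    rw [h2] at h1
    exact h1
  have hex' : ∀ s y, HasDerivAt (fun s => ex P s x y) (∑ z, ex P s x z * (P - 1) z y) s := by
    intro s y
    have h1 := hasDerivAt_ex P (Pi.single y 1) s x
    simp only [mulVec_single_one2] at h1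
    convert h1 using 1
    simp only [Matrix.mulVec, dotProduct]
    refine Finset.sum_congr rfl fun z _ => ?_
    congr 1
    exact (mulVec_single_one2 (P - 1) z y).symm
  -- the function `F`
  set F : ℝ → ℝ := fun s => ∑ y, ex P s x y * (u (t - s) y) ^ 2 with hF
  have hF' : ∀ s, HasDerivAt F (∑ z, ex P s x z *
      ∑ y, P z y * (u (t - s) y - u (t - s) z) ^ 2) s := by
    intro s
    have h1 : ∀ y, HasDerivAt (fun s => u (t - s) y) (-((P - 1).mulVec (u (t - s)) y)) s := by
      intro y
      have h2 := HasDerivAt.comp s (hu' (t - s) y) ((hasDerivAt_id s).const_sub t)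
      rw [mul_neg, mul_one] at h2
      exact h2
    have h3 : HasDerivAt F (∑ y, ((∑ z, ex P s x z * (P - 1) z y) * (u (t - s) y) ^ 2 +
        ex P s x y * (2 * u (t - s) y * -((P - 1).mulVec (u (t - s)) y)))) s := by
      rw [hF]
      refine HasDerivAt.fun_sum fun y _ => ?_
      have h4 := (hex' s y).mul ((h1 y).pow 2)
      refine HasDerivAt.congr_deriv h4 ?_
      simp only [Pi.pow_apply, Nat.cast_ofNat, Nat.add_one_sub_one, pow_one]
    refine h3.congr_deriv ?_
    symm
    set v := u (t - s) with hv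
    have e1 : ∑ y, (∑ z, ex P s x z * (P - 1) z y) * v y ^ 2 =
        ∑ z, ex P s x z * ∑ y, (P - 1) z y * v y ^ 2 := by
      simp only [Finset.sum_mul, Finset.mul_sum]
      rw [Finset.sum_comm]
      refine Finset.sum_congr rfl fun z _ => Finset.sum_congr rfl fun y _ => ?_
      ring
    rw [Finset.sum_add_distrib, e1, ← Finset.sum_add_distrib]
    refine Finset.sum_congr rfl fun z _ => ?_
    have e2 : ∀ w : S → ℝ, ∑ y, (P - 1) z y * w y = ∑ y, P z y * w y - w z := by
      intro w
      simp only [Matrix.sub_apply, Matrix.one_apply, sub_mul, Finset.sum_sub_distrib, ite_mul,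
        one_mul, zero_mul, Finset.sum_ite_eq, Finset.mem_univ, if_true]
    have e3 : (P - 1).mulVec v z = ∑ y, P z y * v y - v z := by
      rw [← e2 v]
      rfl
    rw [e3, e2 (fun y => v y ^ 2)]
    have e4 : ∑ y, P z y * (v y - v z) ^ 2 =
        ∑ y, P z y * v y ^ 2 - 2 * v z * ∑ y, P z y * v y + v z ^ 2 * ∑ y, P z y := by
      rw [Finset.mul_sum, Finset.mul_sum, ← Finset.sum_sub_distrib, ← Finset.sum_add_distrib]
      refine Finset.sum_congr rfl fun y _ => ?_
      ring
    rw [e4, hP1]
    ring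
  -- comparison
  have hG' : ∀ s, HasDerivAt (fun s => A / c * Real.exp (-c * (t - s)))
      (A * Real.exp (-c * (t - s))) s := by
    intro s
    have h1 : HasDerivAt (fun s => -c * (t - s)) c s := by
      have := ((hasDerivAt_id s).const_sub t).const_mul (-c)
      simpa using this
    have h2 := (h1.exp).const_mul (A / c)
    refine h2.congr_deriv ?_
    field_simp
  have hFG : AntitoneOn (fun s => F s - A / c * Real.exp (-c * (t - s))) (Set.Icc 0 t) := by
    have hd : ∀ s, HasDerivAt (fun s => F s - A / c * Real.exp (-c * (t - s))) _ s :=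
      fun s => (hF' s).sub (hG' s)
    refine antitoneOn_of_deriv_nonpos (convex_Icc 0 t)
      (fun s _ => (hd s).continuousAt.continuousWithinAt)
      (fun s _ => (hd s).differentiableAt.differentiableWithinAt) ?_
    intro s hs
    rw [interior_Icc] at hs
    rw [(hd s).deriv]
    have h1 : ∑ z, ex P s x z * ∑ y, P z y * (u (t - s) y - u (t - s) z) ^ 2 ≤
        ∑ z, ex P s x z * (A * Real.exp (-c * (t - s))) := by
      refine Finset.sum_le_sum fun z _ => ?_
      exact mul_le_mul_of_nonneg_left (h (t - s) (by linarith [hs.2]) (by linarith [hs.1]) z)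
        (ex_nonneg hP hs.1.le x z)
    rw [← Finset.sum_mul, ex_sum hP1, one_mul] at h1
    linarith
  have hfin := hFG (Set.left_mem_Icc.2 ht) (Set.right_mem_Icc.2 ht) ht
  simp only [sub_zero, sub_self, mul_zero, Real.exp_zero, mul_one] at hfin
  have hF0 : F 0 = (u t x) ^ 2 := by
    simp only [hF, ex_zero, sub_zero, Matrix.one_apply, ite_mul, one_mul, zero_mul,
      Finset.sum_ite_eq, Finset.mem_univ, if_true]
  have hFt : F t = ∑ y, ex P t x y * g y ^ 2 := by
    simp only [hF, sub_self]
    have : u 0 = g := by simp only [hu, ex_zero, Matrix.one_mulVec]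
    rw [this]
  have hm : u t x = ∑ y, ex P t x y * g y := rfl
  have hvar : ∑ y, ex P t x y * (g y - u t x) ^ 2 = F t - F 0 := by
    have e4 : ∑ y, ex P t x y * (g y - u t x) ^ 2 =
        ∑ y, ex P t x y * g y ^ 2 - 2 * u t x * ∑ y, ex P t x y * g y +
          u t x ^ 2 * ∑ y, ex P t x y := by
      rw [Finset.mul_sum, Finset.mul_sum, ← Finset.sum_sub_distrib, ← Finset.sum_add_distrib]
      refine Finset.sum_congr rfl fun y _ => ?_
      ring
    rw [e4, ex_sum hP1, ← hm, hF0, hFt]
    ring
  change ∑ y, ex P t x y * (g y - u t x) ^ 2 ≤ A / c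
  rw [hvar]
  have hpos : 0 ≤ A / c * Real.exp (-c * t) := by positivity
  linarith

end Pool.Agent.T2H73.BL
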