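import Pool.Agent.T2H73.BL.Block

/-!
# Package IO: the ideal walks from two near points overlap
-/

set_option autoImplicit false

namespace Pool.Agent.T2H73.BL

open Filter Topology
open scoped BigOperators

variable {d : ℕ} {μ : Equiv.Perm (Fin d) → ℝ}

section IOval

variable {G : Type} [AddCommGroup G] [DecidableEq G]

theorem IO.val_add (A B : AddMonoidAlgebra ℝ G) (g : G) : val (A + B) g = val A g + val B g := by
  unfold val
  rw [AddMonoidAlgebra.coeff_add]
  rfl

theorem IO.val_sum {ι : Type} (s : Finset ι) (A : ι → AddMonoidAlgebra ℝ G) (g : G) :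
    val (∑ i ∈ s, A i) g = ∑ i ∈ s, val (A i) g := by
  classical
  induction s using Finset.induction_on with
  | empty => simp [val]
  | insert a s ha ih => rw [Finset.sum_insert ha, Finset.sum_insert ha, IO.val_add, ih]

theorem IO.val_smul (r : ℝ) (A : AddMonoidAlgebra ℝ G) (g : G) : val (r • A) g = r * val A g := by
  unfold val
  rw [AddMonoidAlgebra.coeff_smul]
  rfl

theorem IO.val_single (h : G) (r : ℝ) (g : G) :
    val (AddMonoidAlgebra.single h r) g = if h = g then r else 0 := by
  unfold val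
  rw [AddMonoidAlgebra.coeff_single, Finsupp.single_apply]

theorem IO.val_single_mul (g : G) (r : ℝ) (A : AddMonoidAlgebra ℝ G) (h : G) :
    val (AddMonoidAlgebra.single g r * A) h = r * val A (h - g) := by
  have e : AddMonoidAlgebra.single g r = r • AddMonoidAlgebra.single g (1 : ℝ) := by
    rw [AddMonoidAlgebra.smul_single, smul_eq_mul, mul_one]
  rw [e, smul_mul_assoc, IO.val_smul, Pool.Agent.T2H73.BL.val_single_mul]

theorem IO.NN_single (g : G) {r : ℝ} (hr : 0 ≤ r) : NN (AddMonoidAlgebra.single g r) := by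
  intro h
  rw [IO.val_single]
  split_ifs
  · exact hr
  · exact le_rfl

theorem IO.NN_one : NN (1 : AddMonoidAlgebra ℝ G) := by
  rw [AddMonoidAlgebra.one_def]
  exact IO.NN_single _ zero_le_one

theorem IO.mono {A B : AddMonoidAlgebra ℝ G} {ε ε' : ℝ} (h : Ovl A B ε) (he : ε' ≤ ε) : Ovl A B ε' := by
  obtain ⟨C, h1, h2, h3, h4⟩ := h
  exact ⟨C, h1, h2, h3, he.trans h4⟩

/-- translate both sides -/
theorem IO.translate (g : G) {A B : AddMonoidAlgebra ℝ G} {ε : ℝ} (hA : NN A) (hB : NN B) (hε : 0 ≤ ε)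
    (h : Ovl A B ε) : Ovl (AddMonoidAlgebra.single g 1 * A) (AddMonoidAlgebra.single g 1 * B) ε := by
  have h1 : Ovl (AddMonoidAlgebra.single g (1 : ℝ)) (AddMonoidAlgebra.single g (1 : ℝ)) 1 := by
    have := Ovl.self (IO.NN_single g (zero_le_one (α := ℝ)))
    rwa [mass_single] at this
  have h2 := Ovl.mul (IO.NN_single g (zero_le_one (α := ℝ))) (IO.NN_single g (zero_le_one (α := ℝ))) hA hB
    zero_le_one hε h1 h
  rwa [one_mul] at h2

theorem IO.single_add_mul (g h : G) (A : AddMonoidAlgebra ℝ G) :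
    AddMonoidAlgebra.single g (1 : ℝ) * (AddMonoidAlgebra.single h 1 * A) =
      AddMonoidAlgebra.single (g + h) 1 * A := by
  rw [← mul_assoc, AddMonoidAlgebra.single_mul_single, one_mul]

theorem IO.single_zero_mul (A : AddMonoidAlgebra ℝ G) : AddMonoidAlgebra.single (0 : G) (1 : ℝ) * A = A := by
  rw [← AddMonoidAlgebra.one_def, one_mul]

/-- products over a finite set -/
theorem IO.prod {ι : Type} (s : Finset ι) (A : AddMonoidAlgebra ℝ G) (hA : NN A) (g : ι → G) {ε : ℝ}
    (hε : 0 ≤ ε) (h : ∀ i ∈ s, Ovl A (AddMonoidAlgebra.single (g i) 1 * A) ε) :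
    Ovl (A ^ s.card) (AddMonoidAlgebra.single (∑ i ∈ s, g i) 1 * A ^ s.card) (ε ^ s.card) := by
  classical
  induction s using Finset.induction_on with
  | empty =>
    rw [Finset.card_empty, pow_zero, pow_zero, Finset.sum_empty, IO.single_zero_mul]
    have h1 := Ovl.self (A := (1 : AddMonoidAlgebra ℝ G)) IO.NN_one
    rwa [AddMonoidAlgebra.one_def, mass_single] at h1
  | insert a s ha ih =>
    have ih' := ih fun i hi => h i (Finset.mem_insert_of_mem hi)
    have h1 := h a (Finset.mem_insert_self a s)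
    have hN : ∀ x : G, NN (AddMonoidAlgebra.single x (1 : ℝ) * A) := fun x =>
      (IO.NN_single x zero_le_one).mul hA
    have hN2 : ∀ (x : G) (k : ℕ), NN (AddMonoidAlgebra.single x (1 : ℝ) * A ^ k) := fun x k =>
      (IO.NN_single x zero_le_one).mul (hA.pow k)
    have h2 := Ovl.mul hA (hN (g a)) (hA.pow s.card) (hN2 _ s.card) hε (pow_nonneg hε _) h1 ih'
    rw [Finset.card_insert_of_notMem ha, Finset.sum_insert ha, pow_succ' A, pow_succ' ε]
    have e : AddMonoidAlgebra.single (g a) (1 : ℝ) * A *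
        (AddMonoidAlgebra.single (∑ i ∈ s, g i) 1 * A ^ s.card) =
        AddMonoidAlgebra.single (g a + ∑ i ∈ s, g i) 1 * (A * A ^ s.card) := by
      rw [mul_mul_mul_comm, AddMonoidAlgebra.single_mul_single, one_mul]
    rwa [e] at h2

end IOval

/-- The walk is the power of `ell` (induction on `k`). -/
theorem Ik_eq (k : ℕ) (x y : Sq d) : Ik μ k x y = val (ell μ ^ k) (y - x) := by
  induction k generalizing x with
  | zero =>
    rw [pow_zero, AddMonoidAlgebra.one_def, IO.val_single]
    show (if x = y then (1 : ℝ) else 0) = _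
    by_cases h : x = y
    · rw [if_pos h, if_pos (by rw [h, sub_self])]
    · rw [if_neg h, if_neg fun h' => h (sub_eq_zero.1 h'.symm).symm]
  | succ k ih =>
    rw [pow_succ']
    show (∑ σ : Equiv.Perm (Fin d), ∑ c : Fin d → Fin d, wt μ σ * Ik μ k (x + delta σ c) y) = _
    unfold ell
    rw [Finset.sum_mul, IO.val_sum]
    refine Finset.sum_congr rfl fun σ _ => ?_
    rw [Finset.sum_mul, IO.val_sum]
    refine Finset.sum_congr rfl fun c _ => ?_
    rw [IO.val_single_mul, ih]
    congr 2
    abel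

section IOdec

theorem IO.U_nonneg (hμ : Good μ) (i j : Fin d) : 0 ≤ U μ i j := by
  unfold U
  exact Finset.sum_nonneg fun σ _ => by
    split_ifs
    · exact hμ.nonneg σ
    · exact le_rfl

theorem IO.Upow_nonneg (hμ : Good μ) (m : ℕ) (i j : Fin d) : 0 ≤ (U μ ^ m) i j := by
  induction m generalizing i with
  | zero =>
    rw [pow_zero, Matrix.one_apply]
    split_ifs <;> norm_num
  | succ m ih =>
    rw [pow_succ', Matrix.mul_apply]
    exact Finset.sum_nonneg fun z _ => mul_nonneg (IO.U_nonneg hμ i z) (ih z)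

/-- a walk from `i` to `u` -/
theorem IO.walk (hμ : Good μ) (m : ℕ) (i u : Fin d) (h : 0 < (U μ ^ m) i u) :
    ∃ w : Fin d → Fin d → ℤ, (∀ a b, w a b ≠ 0 → 0 < U μ a b) ∧
      ∀ k : Fin d, ((if k = u then 1 else 0) - (if k = i then 1 else 0) : ℤ) =
        ∑ a, ∑ b, w a b * ((if k = b then 1 else 0) - (if k = a then 1 else 0)) := by
  induction m generalizing u with
  | zero =>
    rw [pow_zero, Matrix.one_apply] at h
    have hiu : i = u := by
      by_contra hne
      rw [if_neg hne] at h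
      exact lt_irrefl _ h
    subst hiu
    exact ⟨fun _ _ => 0, fun _ _ h => absurd rfl h, fun k => by simp⟩
  | succ m ih =>
    rw [pow_succ, Matrix.mul_apply] at h
    obtain ⟨z, -, hz⟩ := Finset.exists_lt_of_sum_lt (s := Finset.univ) (f := fun _ : Fin d => (0 : ℝ))
      (g := fun z => (U μ ^ m) i z * U μ z u) (by simpa using h)
    have h1 := IO.Upow_nonneg hμ m i z
    have h2 := IO.U_nonneg hμ z u
    have h1' : 0 < (U μ ^ m) i z := by
      rcases h1.lt_or_eq with h3 | h3
      · exact h3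
      · rw [← h3, zero_mul] at hz
        exact absurd hz (lt_irrefl _)
    have h2' : 0 < U μ z u := by
      rcases h2.lt_or_eq with h3 | h3
      · exact h3
      · rw [← h3, mul_zero] at hz
        exact absurd hz (lt_irrefl _)
    obtain ⟨w, hw1, hw2⟩ := ih z h1'
    refine ⟨fun a b => w a b + (if a = z ∧ b = u then 1 else 0), ?_, ?_⟩
    · intro a b hab
      by_cases hc : a = z ∧ b = u
      · rw [hc.1, hc.2]
        exact h2'
      · refine hw1 a b ?_
        intro h0
        apply hab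
        show w a b + (if a = z ∧ b = u then 1 else 0) = 0
        rw [h0, if_neg hc, zero_add]
    · intro k
      have e : ∀ a b : Fin d, (w a b + (if a = z ∧ b = u then (1 : ℤ) else 0)) *
          ((if k = b then 1 else 0) - (if k = a then 1 else 0)) =
          w a b * ((if k = b then 1 else 0) - (if k = a then 1 else 0)) +
          (if a = z then (if b = u then ((if k = b then 1 else 0) - (if k = a then 1 else 0)) else 0)
            else 0) := by
        intro a b
        by_cases ha : a = z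
        · by_cases hb : b = u
          · simp only [ha, hb, and_self, if_true]
            ring
          · simp only [hb, and_false, if_false, add_zero, ha, if_true]
        · simp only [ha, false_and, if_false, add_zero]
      simp only [e, Finset.sum_add_distrib]
      rw [← hw2 k, Finset.sum_eq_single z, Finset.sum_eq_single u]
      · simp only [if_true]
        ring
      · intro b _ hb
        simp only [if_true, hb, if_false]
      · intro hh
        exact absurd (Finset.mem_univ u) hh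
      · intro a _ ha
        simp only [ha, if_false, Finset.sum_const_zero]
      · intro hh
        exact absurd (Finset.mem_univ z) hh

end IOdec

/-- **Decomposition.** An integer matrix `v` with vanishing row and column sums is an integer
combination `∑ m(i,j,a) swp i j a 0`, over `i`, `j` with `U i j > 0`, with coefficients bounded by
`L max |v|`. Proof: choose for every urn `u` a walk `0 = u_0, ..., u_l = u` with
`U (u_s) (u_{s+1}) > 0` (irreducibility: a positive entry of `U^m` gives such a walk); then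
`e_u - e_0 = ∑_s (e_{u_{s+1}} - e_{u_s})`, and
`v = ∑_a ∑_u v u a (e_u - e_0) ⊗ (e_a - e_b₀)` because `∑_u v u a = 0` and `∑_a v u a = 0`. -/
theorem decomposition (hμ : Good μ) (b₀ : Fin d) : ∃ L : ℕ, ∀ v : Sq d,
    (∀ i, ∑ a, v i a = 0) → (∀ a, ∑ i, v i a = 0) → ∀ M : ℕ, (∀ i a, |v i a| ≤ M) →
      ∃ m : Fin d → Fin d → Fin d → ℤ, (∀ i j a, m i j a ≠ 0 → 0 < U μ i j ∧ a ≠ b₀) ∧
        (∀ i j a, |m i j a| ≤ L * M) ∧ v = ∑ i, ∑ j, ∑ a, m i j a • swp i j a b₀ := by
  classical
  have hw : ∀ u : Fin d, ∃ w : Fin d → Fin d → ℤ, (∀ a b, w a b ≠ 0 → 0 < U μ a b) ∧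
      ∀ k : Fin d, ((if k = u then 1 else 0) - (if k = b₀ then 1 else 0) : ℤ) =
        ∑ a, ∑ b, w a b * ((if k = b then 1 else 0) - (if k = a then 1 else 0)) := by
    intro u
    obtain ⟨m, hm⟩ := hμ.irred b₀ u
    exact IO.walk hμ m b₀ u hm
  choose w hw1 hw2 using hw
  refine ⟨(∑ u, ∑ i, ∑ j, |w u i j|).toNat, fun v hrow hcol M hM => ?_⟩
  have hLnn : 0 ≤ ∑ u, ∑ i, ∑ j, |w u i j| :=
    Finset.sum_nonneg fun u _ => Finset.sum_nonneg fun i _ => Finset.sum_nonneg fun j _ => abs_nonneg _
  refine ⟨fun i j a => if a = b₀ then 0 else ∑ u, v u a * w u i j, ?_, ?_, ?_⟩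
  · intro i j a hne
    by_cases ha : a = b₀
    · simp only [ha, if_true, ne_eq, not_true] at hne
    · refine ⟨?_, ha⟩
      simp only [ha, if_false] at hne
      obtain ⟨u, -, hu⟩ := Finset.exists_ne_zero_of_sum_ne_zero hne
      exact hw1 u i j fun h0 => hu (by rw [h0, mul_zero])
  · intro i j a
    rw [Int.toNat_of_nonneg hLnn]
    by_cases ha : a = b₀
    · simp only [ha, if_true, abs_zero]
      exact mul_nonneg hLnn (by positivity)
    · simp only [ha, if_false]
      have h1 : ∀ u, |w u i j| ≤ ∑ i', ∑ j', |w u i' j'| := by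
        intro u
        refine le_trans ?_ (Finset.single_le_sum (f := fun i' => ∑ j', |w u i' j'|)
          (fun i' _ => Finset.sum_nonneg fun j' _ => abs_nonneg _) (Finset.mem_univ i))
        exact Finset.single_le_sum (f := fun j' => |w u i j'|) (fun j' _ => abs_nonneg _) (Finset.mem_univ j)
      calc |∑ u, v u a * w u i j| ≤ ∑ u, |v u a * w u i j| := Finset.abs_sum_le_sum_abs _ _
        _ ≤ ∑ u, (∑ i', ∑ j', |w u i' j'|) * (M : ℤ) := by
            refine Finset.sum_le_sum fun u _ => ?_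
            rw [abs_mul, mul_comm]
            exact mul_le_mul (h1 u) (hM u a) (abs_nonneg _)
              (Finset.sum_nonneg fun i' _ => Finset.sum_nonneg fun j' _ => abs_nonneg _)
        _ = _ := by rw [Finset.sum_mul]
  · funext k e
    have e0 : ∀ i j a : Fin d, ((if a = b₀ then 0 else ∑ u, v u a * w u i j) • swp i j a b₀) k e =
        (∑ u, v u a * w u i j) * (((if k = j then 1 else 0) - (if k = i then 1 else 0)) *
          ((if e = a then 1 else 0) - (if e = b₀ then 1 else 0))) := by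
      intro i j a
      show (if a = b₀ then 0 else ∑ u, v u a * w u i j) * (swp i j a b₀ k e) = _
      unfold swp
      by_cases ha : a = b₀
      · subst ha
        simp
      · simp only [ha, if_false]
    have e1 : (∑ i, ∑ j, ∑ a, (if a = b₀ then 0 else ∑ u, v u a * w u i j) • swp i j a b₀) k e =
        ∑ i, ∑ j, ∑ a, ((if a = b₀ then 0 else ∑ u, v u a * w u i j) • swp i j a b₀) k e := by
      simp only [Finset.sum_apply]
    rw [e1]
    simp only [e0]
    -- pull the sums out
    have e2 : ∑ i, ∑ j, ∑ a, (∑ u, v u a * w u i j) * (((if k = j then (1 : ℤ) else 0) -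
        (if k = i then 1 else 0)) * ((if e = a then 1 else 0) - (if e = b₀ then 1 else 0))) =
        ∑ a, ((if e = a then 1 else 0) - (if e = b₀ then 1 else 0)) * ∑ u, v u a *
          ∑ i, ∑ j, w u i j * ((if k = j then 1 else 0) - (if k = i then 1 else 0)) := by
      have e3 : ∀ i j : Fin d, ∑ a, (∑ u, v u a * w u i j) * (((if k = j then (1 : ℤ) else 0) -
          (if k = i then 1 else 0)) * ((if e = a then 1 else 0) - (if e = b₀ then 1 else 0))) =
          ∑ a, ∑ u, ((if e = a then 1 else 0) - (if e = b₀ then 1 else 0)) * (v u a *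
            (w u i j * ((if k = j then 1 else 0) - (if k = i then 1 else 0)))) := by
        intro i j
        refine Finset.sum_congr rfl fun a _ => ?_
        rw [Finset.sum_mul]
        exact Finset.sum_congr rfl fun u _ => by ring
      simp only [e3, Finset.mul_sum]
      calc _ = ∑ i, ∑ a, ∑ j, ∑ u, ((if e = a then (1 : ℤ) else 0) - (if e = b₀ then 1 else 0)) * (v u a *
            (w u i j * ((if k = j then 1 else 0) - (if k = i then 1 else 0)))) :=
            Finset.sum_congr rfl fun i _ => Finset.sum_comm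
        _ = ∑ a, ∑ i, ∑ j, ∑ u, ((if e = a then (1 : ℤ) else 0) - (if e = b₀ then 1 else 0)) * (v u a *
            (w u i j * ((if k = j then 1 else 0) - (if k = i then 1 else 0)))) := Finset.sum_comm
        _ = ∑ a, ∑ i, ∑ u, ∑ j, ((if e = a then (1 : ℤ) else 0) - (if e = b₀ then 1 else 0)) * (v u a *
            (w u i j * ((if k = j then 1 else 0) - (if k = i then 1 else 0)))) :=
            Finset.sum_congr rfl fun a _ => Finset.sum_congr rfl fun i _ => Finset.sum_comm
        _ = _ := Finset.sum_congr rfl fun a _ => Finset.sum_comm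
    rw [e2]
    have e4 : ∀ u : Fin d, ∑ i, ∑ j, w u i j * ((if k = j then (1 : ℤ) else 0) - (if k = i then 1 else 0)) =
        (if k = u then 1 else 0) - (if k = b₀ then 1 else 0) := fun u => (hw2 u k).symm
    simp only [e4]
    have e5 : ∀ a : Fin d, ∑ u, v u a * ((if k = u then (1 : ℤ) else 0) - (if k = b₀ then 1 else 0)) =
        v k a := by
      intro a
      simp only [mul_sub, Finset.sum_sub_distrib, mul_ite, mul_one, mul_zero]
      rw [Finset.sum_ite_eq, if_pos (Finset.mem_univ k)]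
      by_cases hk : k = b₀
      · simp only [hk, if_true, hcol a, sub_zero]
      · simp only [hk, if_false, Finset.sum_const_zero, sub_zero]
    simp only [e5]
    simp only [sub_mul, Finset.sum_sub_distrib, ite_mul, one_mul, zero_mul]
    rw [Finset.sum_ite_eq, if_pos (Finset.mem_univ e)]
    by_cases he : e = b₀
    · simp only [he, if_true, hrow k, sub_zero]
    · simp only [he, if_false, Finset.sum_const_zero, sub_zero]

/-- **Overlap of the ideal walks.** Split `k` steps into `d³` blocks of `⌊k / d³⌋` steps (and a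
rest), one for each triple `(i, j, a)`; use `block_overlap` (and `Ovl.symm` after a translation when
the coefficient is negative) and `Ovl.mul`; the translations multiply up to the translation by
`x' - x` (`decomposition`); `Ik_eq`, `Ovl.min`. -/
theorem ideal_overlap (hμ : Good μ) (hd : 2 ≤ d) (C : ℝ) (hC : 0 < C) : ∃ ε : ℝ, 0 < ε ∧
    ∃ k₀ : ℕ, ∀ k : ℕ, k₀ ≤ k → ∀ x x' : Sq d, (∀ i, ∑ a, x i a = ∑ a, x' i a) →
      (∀ a, ∑ i, x i a = ∑ i, x' i a) → (∀ i a, ((x' i a - x i a : ℤ) : ℝ) ^ 2 ≤ C * k) →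
      ∃ Y : Finset (Sq d), ε ≤ ∑ y ∈ Y, min (Ik μ k x y) (Ik μ k x' y) := by
  classical
  obtain ⟨b₀⟩ : Nonempty (Fin d) := ⟨⟨0, by omega⟩⟩
  obtain ⟨L, hL⟩ := decomposition hμ b₀
  set D : ℕ := Fintype.card (Fin d × Fin d × Fin d) with hD
  have hD0 : 0 < D := Fintype.card_pos_iff.2 ⟨(b₀, b₀, b₀)⟩
  set C' : ℝ := 2 * D * (L : ℝ) ^ 2 * C + 1 with hC'
  have hC'0 : 0 < C' := by positivity
  -- one block
  have hone : ∀ t : Fin d × Fin d × Fin d, ∃ ε : ℝ, 0 < ε ∧ ∃ k₀ : ℕ, ∀ k : ℕ, k₀ ≤ k → ∀ m : ℤ,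
      (m ≠ 0 → 0 < U μ t.1 t.2.1 ∧ t.2.2 ≠ b₀) → (m : ℝ) ^ 2 ≤ C' * k →
        Ovl (ell μ ^ k) (AddMonoidAlgebra.single (m • swp t.1 t.2.1 t.2.2 b₀) 1 * ell μ ^ k) ε := by
    intro t
    have hself : ∀ k : ℕ, Ovl (ell μ ^ k) (ell μ ^ k) 1 := by
      intro k
      have h1 := Ovl.self ((NN_ell hμ).pow k)
      rwa [mass_pow, mass_ell hμ (by omega), one_pow] at h1
    by_cases hc : 0 < U μ t.1 t.2.1 ∧ t.2.2 ≠ b₀
    · obtain ⟨ε, hε, k₀, hk₀⟩ := block_overlap hμ (by omega) hc.1 t.2.2 b₀ hc.2 C' hC'0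
      refine ⟨ε, hε, k₀, fun k hk m _ hm => ?_⟩
      rcases Int.natAbs_eq m with he | he
      · have h1 := hk₀ k m.natAbs hk (by
          have : ((m.natAbs : ℕ) : ℝ) ^ 2 = (m : ℝ) ^ 2 := by
            rw [he]
            push_cast
            simp
          rw [this]
          exact hm)
        rw [he, natCast_zsmul]
        exact h1
      · have h1 := hk₀ k m.natAbs hk (by
          have : ((m.natAbs : ℕ) : ℝ) ^ 2 = (m : ℝ) ^ 2 := by
            rw [he]
            push_cast
            simp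
          rw [this]
          exact hm)
        have h2 := IO.translate (m • swp t.1 t.2.1 t.2.2 b₀) ((NN_ell hμ).pow k)
          ((IO.NN_single (m.natAbs • swp t.1 t.2.1 t.2.2 b₀) (zero_le_one (α := ℝ))).mul
            ((NN_ell hμ).pow k)) hε.le h1
        rw [IO.single_add_mul] at h2
        have h3 : m • swp t.1 t.2.1 t.2.2 b₀ + m.natAbs • swp t.1 t.2.1 t.2.2 b₀ = 0 := by
          rw [← natCast_zsmul, ← add_smul]
          have : m + (m.natAbs : ℤ) = 0 := by omega
          rw [this, zero_smul]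
        rw [h3, IO.single_zero_mul] at h2
        exact h2.symm
    · refine ⟨1, one_pos, 0, fun k _ m hm _ => ?_⟩
      have h0 : m = 0 := by
        by_contra hne
        exact hc (hm hne)
      rw [h0, zero_smul, IO.single_zero_mul]
      exact hself k
  choose ε hε k₀ hk₀ using hone
  -- the smallest overlap
  obtain ⟨t₀, -, ht₀⟩ := Finset.exists_min_image (Finset.univ : Finset (Fin d × Fin d × Fin d)) ε
    ⟨(b₀, b₀, b₀), Finset.mem_univ _⟩
  set K : ℕ := (∑ t, k₀ t) + 1 with hK
  refine ⟨ε t₀ ^ D, pow_pos (hε t₀) D, D * K, fun k hk x x' hrow hcol hxx => ?_⟩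
  set q : ℕ := k / D with hq
  have hqK : K ≤ q := by
    rw [hq, Nat.le_div_iff_mul_le hD0, mul_comm]
    exact hk
  have hkq : k ≤ 2 * (D * q) := by
    have h1 : k < D * (q + 1) := by
      rw [hq]
      exact Nat.lt_mul_div_succ k hD0
    have h2 : 1 ≤ q := le_trans (by omega) hqK
    nlinarith
  have hqk : D * q ≤ k := Nat.mul_div_le k D
  -- the decomposition of the difference
  set M : ℕ := ⌊Real.sqrt (C * k)⌋₊ with hM
  have hCk : 0 ≤ C * (k : ℝ) := by positivity
  have hM2 : (M : ℝ) ^ 2 ≤ C * k := by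
    have h1 : (M : ℝ) ≤ Real.sqrt (C * k) := Nat.floor_le (Real.sqrt_nonneg _)
    calc (M : ℝ) ^ 2 ≤ Real.sqrt (C * k) ^ 2 := pow_le_pow_left₀ (Nat.cast_nonneg _) h1 2
      _ = C * k := Real.sq_sqrt hCk
  obtain ⟨m, hm1, hm2, hm3⟩ := hL (x' - x) (fun i => by
      show ∑ a, (x' i a - x i a) = 0
      rw [Finset.sum_sub_distrib, hrow i, sub_self]) (fun a => by
      show ∑ i, (x' i a - x i a) = 0
      rw [Finset.sum_sub_distrib, hcol a, sub_self]) M (fun i a => by
      have h1 := hxx i a
      have h2 : |((x' i a - x i a : ℤ) : ℝ)| ≤ Real.sqrt (C * k) := Real.abs_le_sqrt h1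
      have h3 : (|x' i a - x i a|).toNat ≤ M := by
        refine Nat.le_floor ?_
        have h4 : (((|x' i a - x i a|).toNat : ℕ) : ℝ) = |((x' i a - x i a : ℤ) : ℝ)| := by
          have h5 : (((|x' i a - x i a|).toNat : ℕ) : ℤ) = |x' i a - x i a| :=
            Int.toNat_of_nonneg (abs_nonneg _)
          have h6 : ((((|x' i a - x i a|).toNat : ℕ) : ℤ) : ℝ) = ((|x' i a - x i a| : ℤ) : ℝ) := by
            rw [h5]
          rw [Int.cast_abs] at h6
          exact_mod_cast h6
        rw [h4]
        exact h2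
      show |x' i a - x i a| ≤ (M : ℤ)
      have h7 := Int.self_le_toNat |x' i a - x i a|
      have h8 : (((|x' i a - x i a|).toNat : ℕ) : ℤ) ≤ (M : ℤ) := by exact_mod_cast h3
      exact h7.trans h8)
  -- the blocks
  have hblk : ∀ t ∈ (Finset.univ : Finset (Fin d × Fin d × Fin d)),
      Ovl (ell μ ^ q) (AddMonoidAlgebra.single (m t.1 t.2.1 t.2.2 • swp t.1 t.2.1 t.2.2 b₀) 1 *
        ell μ ^ q) (ε t₀) := by
    intro t _
    refine IO.mono (hk₀ t q ?_ (m t.1 t.2.1 t.2.2) (fun hne => hm1 _ _ _ hne) ?_) (ht₀ t (Finset.mem_univ t))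
    · refine le_trans ?_ hqK
      rw [hK]
      exact (Finset.single_le_sum (f := k₀) (fun _ _ => Nat.zero_le _) (Finset.mem_univ t)).trans
        (Nat.le_succ _)
    · have h1 : |(m t.1 t.2.1 t.2.2 : ℝ)| ≤ (L : ℝ) * M := by
        have := hm2 t.1 t.2.1 t.2.2
        have h2 : ((|m t.1 t.2.1 t.2.2| : ℤ) : ℝ) ≤ (((L : ℤ) * (M : ℤ) : ℤ) : ℝ) := by exact_mod_cast this
        rw [Int.cast_abs] at h2
        push_cast at h2
        exact h2
      have h3 : (m t.1 t.2.1 t.2.2 : ℝ) ^ 2 ≤ ((L : ℝ) * M) ^ 2 := by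
        rw [← sq_abs]
        exact pow_le_pow_left₀ (abs_nonneg _) h1 2
      have h4 : (k : ℝ) ≤ 2 * (D * q) := by exact_mod_cast hkq
      have h5 : (0 : ℝ) ≤ q := Nat.cast_nonneg q
      calc (m t.1 t.2.1 t.2.2 : ℝ) ^ 2 ≤ ((L : ℝ) * M) ^ 2 := h3
        _ = (L : ℝ) ^ 2 * (M : ℝ) ^ 2 := by ring
        _ ≤ (L : ℝ) ^ 2 * (C * k) := mul_le_mul_of_nonneg_left hM2 (by positivity)
        _ ≤ (L : ℝ) ^ 2 * (C * (2 * (D * q))) :=
            mul_le_mul_of_nonneg_left (mul_le_mul_of_nonneg_left h4 hC.le) (by positivity)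
        _ ≤ C' * q := by
            rw [hC']
            nlinarith
  have hprod := IO.prod (Finset.univ : Finset (Fin d × Fin d × Fin d)) (ell μ ^ q) ((NN_ell hμ).pow q)
    (fun t => m t.1 t.2.1 t.2.2 • swp t.1 t.2.1 t.2.2 b₀) (hε t₀).le hblk
  have hsum : ∑ t : Fin d × Fin d × Fin d, m t.1 t.2.1 t.2.2 • swp t.1 t.2.1 t.2.2 b₀ = x' - x := by
    rw [hm3, Fintype.sum_prod_type]
    exact Finset.sum_congr rfl fun i _ => by rw [Fintype.sum_prod_type]
  rw [hsum, Finset.card_univ, ← hD, ← pow_mul] at hprod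
  -- the rest
  have hrest : Ovl (ell μ ^ (k - q * D)) (ell μ ^ (k - q * D)) 1 := by
    have h1 := Ovl.self ((NN_ell hμ).pow (k - q * D))
    rwa [mass_pow, mass_ell hμ (by omega), one_pow] at h1
  have hfin := Ovl.mul ((NN_ell hμ).pow (q * D))
    ((IO.NN_single (x' - x) (zero_le_one (α := ℝ))).mul ((NN_ell hμ).pow (q * D)))
    ((NN_ell hμ).pow (k - q * D)) ((NN_ell hμ).pow (k - q * D)) (pow_nonneg (hε t₀).le D) zero_le_one
    hprod hrest
  have hk' : q * D + (k - q * D) = k := by
    rw [mul_comm q D]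
    omega
  rw [mul_one, mul_assoc, ← pow_add, hk'] at hfin
  obtain ⟨Y, hY⟩ := hfin.min
  refine ⟨Y.image fun g => g + x, ?_⟩
  rw [Finset.sum_image fun a _ b _ hab => add_right_cancel hab]
  refine hY.trans (le_of_eq (Finset.sum_congr rfl fun g _ => ?_))
  rw [Ik_eq, Ik_eq, val_single_mul]
  congr 2
  · abel
  · abel

end Pool.Agent.T2H73.BL
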