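import Pool.Agent.T2H73.BL.Ker

/-!
# Package JB: the total mass of `Jk`
-/

set_option autoImplicit false

namespace Pool.Agent.T2H73.BL

open Filter Topology
open scoped BigOperators

variable {d n : ℕ} {μ : Equiv.Perm (Fin d) → ℝ}

/-- `|x - n/d|²` -/
noncomputable def nsq (n : ℕ) (x : Sq d) : ℝ := ∑ i, ∑ a, ((x i a : ℝ) - n / d) ^ 2

namespace JB

theorem sum_wt (hμ : Good μ) (hd : 1 ≤ d) :
    ∑ σ : Equiv.Perm (Fin d), ∑ _c : Fin d → Fin d, wt μ σ = 1 := by
  unfold wt
  have hd0 : (d : ℝ) ≠ 0 := by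
    have : (0 : ℝ) < d := by exact_mod_cast hd
    exact this.ne'
  have h : ∀ σ : Equiv.Perm (Fin d), ∑ _c : Fin d → Fin d, μ σ * (1 / (d : ℝ)) ^ d = μ σ := by
    intro σ
    rw [Finset.sum_const, Finset.card_univ, Fintype.card_fun, Fintype.card_fin, nsmul_eq_mul]
    push_cast
    rw [one_div, inv_pow]
    field_simp
  rw [Finset.sum_congr rfl fun σ _ => h σ]
  exact hμ.sum_eq_one

theorem sum_fun (f : Fin d → ℝ) (hf : ∑ a, f a = 0) (i : Fin d) :
    ∑ c : Fin d → Fin d, f (c i) = 0 := by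
  rw [← (Equiv.funSplitAt i (Fin d)).symm.sum_comp]
  rw [Fintype.sum_prod_type]
  have : ∀ a : Fin d, ∑ g : {j // j ≠ i} → Fin d, f ((Equiv.funSplitAt i (Fin d)).symm (a, g) i) =
      (Fintype.card ({j // j ≠ i} → Fin d) : ℝ) * f a := by
    intro a
    have h2 : ∀ g : {j // j ≠ i} → Fin d, (Equiv.funSplitAt i (Fin d)).symm (a, g) i = a := by
      intro g
      simp [Equiv.funSplitAt, Equiv.piSplitAt]
    simp only [h2]
    rw [Finset.sum_const, Finset.card_univ, nsmul_eq_mul]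
  rw [Finset.sum_congr rfl fun a _ => this a, ← Finset.mul_sum, hf, mul_zero]

theorem exp_le (x : ℝ) : Real.exp x ≤ 1 + x + x ^ 2 * Real.exp |x| := by
  have h1 : 1 ≤ Real.exp |x| := Real.one_le_exp (abs_nonneg x)
  by_cases hx : |x| ≤ 1
  · have h2 := (abs_le.mp (Real.abs_exp_sub_one_sub_id_le hx)).2
    nlinarith [sq_nonneg x]
  · push Not at hx
    rcases le_or_gt 0 x with h | h
    · rw [abs_of_nonneg h] at hx ⊢
      have h3 : 0 < Real.exp x := Real.exp_pos x
      have h4 : 1 ≤ x ^ 2 := by nlinarith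
      nlinarith [mul_le_mul_of_nonneg_right h4 h3.le]
    · rw [abs_of_neg h] at hx h1 ⊢
      have h3 : Real.exp x ≤ 1 := Real.exp_le_one_iff.mpr h.le
      have h4 : x ^ 2 ≤ x ^ 2 * Real.exp (-x) := by nlinarith [sq_nonneg x]
      nlinarith

theorem inv_le (u : ℝ) (h1 : -(1 / 2) ≤ u) : (1 + u)⁻¹ ≤ Real.exp (-u + 2 * u ^ 2) := by
  have h0 : 0 < 1 + u := by linarith
  have h2 : 1 - (1 + u)⁻¹ ≤ Real.log (1 + u) := Real.one_sub_inv_le_log_of_pos h0
  have h3 : u - 2 * u ^ 2 ≤ 1 - (1 + u)⁻¹ := by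
    have : 1 - (1 + u)⁻¹ - (u - 2 * u ^ 2) = u ^ 2 * (1 + 2 * u) / (1 + u) := by
      field_simp
      ring
    have h4 : 0 ≤ u ^ 2 * (1 + 2 * u) / (1 + u) := by
      apply div_nonneg _ h0.le
      apply mul_nonneg (sq_nonneg u)
      linarith
    linarith
  have h5 : (1 + u)⁻¹ = Real.exp (-Real.log (1 + u)) := by
    rw [Real.exp_neg, Real.exp_log h0]
  rw [h5]
  exact Real.exp_le_exp.mpr (by linarith)

/-- `b i a = x i a - n / d` -/
noncomputable def bb (n : ℕ) (x : Sq d) (i a : Fin d) : ℝ := (x i a : ℝ) - n / d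

/-- `⟨b, Δ⟩` -/
noncomputable def GG (n : ℕ) (x : Sq d) (σ : Equiv.Perm (Fin d)) (c : Fin d → Fin d) : ℝ :=
  ∑ j, (bb n x j (c (σ.symm j)) - bb n x j (c j))

theorem nsq_nonneg (x : Sq d) : 0 ≤ nsq n x :=
  Finset.sum_nonneg fun _ _ => Finset.sum_nonneg fun _ _ => sq_nonneg _

theorem sq_le_row (x : Sq d) (j a : Fin d) : bb n x j a ^ 2 ≤ ∑ a, bb n x j a ^ 2 :=
  Finset.single_le_sum (f := fun a => bb n x j a ^ 2) (fun _ _ => sq_nonneg _) (Finset.mem_univ a)

theorem sum_sq_le (x : Sq d) (g : Fin d → Fin d) : ∑ j, bb n x j (g j) ^ 2 ≤ nsq n x :=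
  Finset.sum_le_sum fun j _ => sq_le_row x j (g j)

theorem sq_sum_le (x : Sq d) (g : Fin d → Fin d) :
    (∑ j, bb n x j (g j)) ^ 2 ≤ d * nsq n x := by
  have h := sq_sum_le_card_mul_sum_sq (s := (Finset.univ : Finset (Fin d)))
    (f := fun j => bb n x j (g j))
  rw [Finset.card_univ, Fintype.card_fin] at h
  exact h.trans (mul_le_mul_of_nonneg_left (sum_sq_le x g) (Nat.cast_nonneg d))

theorem nsq_add (x : Sq d) (σ : Equiv.Perm (Fin d)) (c : Fin d → Fin d) :
    nsq n (x + delta σ c) ≤ nsq n x + 2 * GG n x σ c + 4 * d := by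
  classical
  have key : ∀ j : Fin d, ∑ a, (((x + delta σ c) j a : ℝ) - n / d) ^ 2 ≤
      ∑ a, ((x j a : ℝ) - n / d) ^ 2 + 2 * (bb n x j (c (σ.symm j)) - bb n x j (c j)) + 4 := by
    intro j
    have h1 : ∀ a, ((((x + delta σ c) j a : ℤ) : ℝ) - n / d) ^ 2 =
        ((x j a : ℝ) - n / d) ^ 2 + 2 * (bb n x j a * (if c (σ.symm j) = a then 1 else 0) -
          bb n x j a * (if c j = a then 1 else 0)) +
          ((if c (σ.symm j) = a then (1 : ℝ) else 0) - (if c j = a then 1 else 0)) ^ 2 := by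
      intro a
      simp only [Pi.add_apply, delta, bb]
      push_cast
      ring
    have h2 : ∀ a, ((if c (σ.symm j) = a then (1 : ℝ) else 0) - (if c j = a then 1 else 0)) ^ 2 ≤
        2 * ((if c (σ.symm j) = a then (1 : ℝ) else 0) + (if c j = a then 1 else 0)) := by
      intro a
      split_ifs <;> norm_num
    calc ∑ a, ((((x + delta σ c) j a : ℤ) : ℝ) - n / d) ^ 2
        ≤ ∑ a, (((x j a : ℝ) - n / d) ^ 2 + 2 * (bb n x j a * (if c (σ.symm j) = a then 1 else 0) -
          bb n x j a * (if c j = a then 1 else 0)) +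
          2 * ((if c (σ.symm j) = a then (1 : ℝ) else 0) + (if c j = a then 1 else 0))) := by
          refine Finset.sum_le_sum fun a _ => ?_
          rw [h1 a]
          linarith [h2 a]
      _ = _ := by
          rw [Finset.sum_add_distrib, Finset.sum_add_distrib, ← Finset.mul_sum, ← Finset.mul_sum,
            Finset.sum_sub_distrib, Finset.sum_add_distrib]
          simp only [mul_ite, mul_one, mul_zero, Finset.sum_ite_eq, Finset.mem_univ, if_true]
          norm_num
  calc nsq n (x + delta σ c)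
      ≤ ∑ j, (∑ a, ((x j a : ℝ) - n / d) ^ 2 +
        2 * (bb n x j (c (σ.symm j)) - bb n x j (c j)) + 4) := Finset.sum_le_sum fun j _ => key j
    _ = _ := by
        rw [Finset.sum_add_distrib, Finset.sum_add_distrib, ← Finset.mul_sum]
        simp only [Finset.sum_const, Finset.card_univ, Fintype.card_fin, nsmul_eq_mul]
        unfold nsq GG
        ring

/-- the exponent with mean zero -/
noncomputable def EE (n : ℕ) (β : ℝ) (x : Sq d) (σ : Equiv.Perm (Fin d)) (c : Fin d → Fin d) : ℝ :=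
  -(d / n * ∑ i, bb n x i (c i)) + 2 * β / n * GG n x σ c

theorem row_sum (hd : 1 ≤ d) (x : Sq d) (h : ∀ i, ∑ a, x i a = n) (i : Fin d) :
    ∑ a, bb n x i a = 0 := by
  unfold bb
  rw [Finset.sum_sub_distrib, Finset.sum_const, Finset.card_univ, Fintype.card_fin, nsmul_eq_mul]
  have h1 : (∑ a, (x i a : ℝ)) = n := by
    have := h i
    exact_mod_cast this
  have hd0 : (d : ℝ) ≠ 0 := by
    have : (0 : ℝ) < d := by exact_mod_cast hd
    exact this.ne'
  rw [h1]
  field_simp
  ring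

theorem mean_zero (hd : 1 ≤ d) (x : Sq d) (h : ∀ i, ∑ a, x i a = n) (β : ℝ) :
    ∑ σ : Equiv.Perm (Fin d), ∑ c : Fin d → Fin d, wt μ σ * EE n β x σ c = 0 := by
  refine Finset.sum_eq_zero fun σ _ => ?_
  rw [← Finset.mul_sum]
  have h1 : ∑ c : Fin d → Fin d, EE n β x σ c = 0 := by
    unfold EE GG
    rw [Finset.sum_add_distrib, Finset.sum_neg_distrib, ← Finset.mul_sum, ← Finset.mul_sum,
      Finset.sum_comm]
    have h2 : ∑ i : Fin d, ∑ c : Fin d → Fin d, bb n x i (c i) = 0 :=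
      Finset.sum_eq_zero fun i _ => sum_fun _ (row_sum hd x h i) i
    have h3 : ∑ c : Fin d → Fin d, ∑ j : Fin d, (bb n x j (c (σ.symm j)) - bb n x j (c j)) = 0 := by
      rw [Finset.sum_comm]
      refine Finset.sum_eq_zero fun j _ => ?_
      rw [Finset.sum_sub_distrib, sum_fun _ (row_sum hd x h j) (σ.symm j),
        sum_fun _ (row_sum hd x h j) j, sub_zero]
    rw [h2, h3]
    ring
  rw [h1, mul_zero]

theorem EE_sq (hn : 1 ≤ n) (x : Sq d) (σ : Equiv.Perm (Fin d)) (c : Fin d → Fin d) (β : ℝ)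
    (h0 : 0 ≤ β) (h1 : β ≤ 1) :
    EE n β x σ c ^ 2 ≤ 2 * (d ^ 3 + 16 * d) * (nsq n x / n ^ 2) := by
  have hn0 : (0 : ℝ) < n := by exact_mod_cast hn
  have hQ := nsq_nonneg (n := n) x
  have hd0 : (0 : ℝ) ≤ d := Nat.cast_nonneg d
  have a1 := sq_sum_le (n := n) x c
  have a2 : GG n x σ c ^ 2 ≤ 4 * d * nsq n x := by
    have e : GG n x σ c = ∑ j, bb n x j (c (σ.symm j)) - ∑ j, bb n x j (c j) := by
      unfold GG
      rw [Finset.sum_sub_distrib]
    have b1 := sq_sum_le (n := n) x (fun j => c (σ.symm j))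
    rw [e]
    nlinarith [sq_nonneg (∑ j, bb n x j (c (σ.symm j)) + ∑ j, bb n x j (c j))]
  have a3 : (d / n * ∑ i, bb n x i (c i)) ^ 2 ≤ d ^ 3 * (nsq n x / n ^ 2) := by
    rw [mul_pow]
    calc ((d : ℝ) / n) ^ 2 * (∑ i, bb n x i (c i)) ^ 2 ≤ ((d : ℝ) / n) ^ 2 * (d * nsq n x) :=
          mul_le_mul_of_nonneg_left a1 (sq_nonneg _)
      _ = _ := by
          field_simp
  have a4 : (2 * β / n * GG n x σ c) ^ 2 ≤ 16 * d * (nsq n x / n ^ 2) := by
    rw [mul_pow]
    have hβ : β ^ 2 ≤ 1 := by nlinarith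
    calc (2 * β / n) ^ 2 * GG n x σ c ^ 2 ≤ (2 * β / n) ^ 2 * (4 * d * nsq n x) :=
          mul_le_mul_of_nonneg_left a2 (sq_nonneg _)
      _ = β ^ 2 * (16 * d * (nsq n x / n ^ 2)) := by
          field_simp
          ring
      _ ≤ 1 * (16 * d * (nsq n x / n ^ 2)) := by
          refine mul_le_mul_of_nonneg_right hβ (by positivity)
      _ = _ := one_mul _
  unfold EE
  nlinarith [sq_nonneg (d / n * ∑ i, bb n x i (c i) + 2 * β / n * GG n x σ c)]

theorem EE_abs (hd : 1 ≤ d) (hn : 1 ≤ n) (x : Sq d) (σ : Equiv.Perm (Fin d)) (c : Fin d → Fin d)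
    (β : ℝ) (h0 : 0 ≤ β) (h1 : β ≤ 1) (hb : ∀ i a, |bb n x i a| ≤ n / (2 * d)) :
    |EE n β x σ c| ≤ d + 2 := by
  have hn0 : (0 : ℝ) < n := by exact_mod_cast hn
  have hd0 : (0 : ℝ) < d := by exact_mod_cast hd
  have a1 : |∑ i, bb n x i (c i)| ≤ n / 2 := by
    calc |∑ i, bb n x i (c i)| ≤ ∑ i, |bb n x i (c i)| := Finset.abs_sum_le_sum_abs _ _
      _ ≤ ∑ _i : Fin d, (n : ℝ) / (2 * d) := Finset.sum_le_sum fun i _ => hb _ _
      _ = n / 2 := by
          rw [Finset.sum_const, Finset.card_univ, Fintype.card_fin, nsmul_eq_mul]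
          field_simp
  have a2 : |GG n x σ c| ≤ n := by
    unfold GG
    calc |∑ j, (bb n x j (c (σ.symm j)) - bb n x j (c j))|
        ≤ ∑ j, |bb n x j (c (σ.symm j)) - bb n x j (c j)| := Finset.abs_sum_le_sum_abs _ _
      _ ≤ ∑ _j : Fin d, ((n : ℝ) / (2 * d) + n / (2 * d)) := by
          refine Finset.sum_le_sum fun j _ => ?_
          exact (abs_sub _ _).trans (add_le_add (hb _ _) (hb _ _))
      _ = n := by
          rw [Finset.sum_const, Finset.card_univ, Fintype.card_fin, nsmul_eq_mul]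
          field_simp
          ring
  unfold EE
  have a3 : |(d : ℝ) / n * ∑ i, bb n x i (c i)| ≤ d := by
    rw [abs_mul, abs_of_nonneg (by positivity)]
    calc (d : ℝ) / n * |∑ i, bb n x i (c i)| ≤ d / n * (n / 2) :=
          mul_le_mul_of_nonneg_left a1 (by positivity)
      _ = d / 2 := by field_simp
      _ ≤ d := by linarith
  have a4 : |2 * β / n * GG n x σ c| ≤ 2 := by
    rw [abs_mul, abs_of_nonneg (by positivity)]
    calc 2 * β / n * |GG n x σ c| ≤ 2 * β / n * n :=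
          mul_le_mul_of_nonneg_left a2 (by positivity)
      _ = 2 * β := by field_simp
      _ ≤ 2 := by linarith
  calc |-(d / n * ∑ i, bb n x i (c i)) + 2 * β / n * GG n x σ c|
      ≤ |-(d / n * ∑ i, bb n x i (c i))| + |2 * β / n * GG n x σ c| := abs_add_le _ _
    _ ≤ d + 2 := by
        rw [abs_neg]
        exact add_le_add a3 a4

theorem rho_inv_le (hd : 1 ≤ d) (hn : 1 ≤ n) (x : Sq d) (c : Fin d → Fin d)
    (hb : ∀ i a, |bb n x i a| ≤ n / (2 * d)) :
    0 < rho n x c ∧ (rho n x c)⁻¹ ≤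
      Real.exp (-(d / n * ∑ i, bb n x i (c i)) + 2 * d ^ 2 * (nsq n x / n ^ 2)) := by
  have hn0 : (0 : ℝ) < n := by exact_mod_cast hn
  have hd0 : (0 : ℝ) < d := by exact_mod_cast hd
  set u : Fin d → ℝ := fun i => d / n * bb n x i (c i) with hu
  have hul : ∀ i, -(1 / 2) ≤ u i := by
    intro i
    have h1 := (abs_le.mp (hb i (c i))).1
    have h2 : (d : ℝ) / n * -(n / (2 * d)) ≤ d / n * bb n x i (c i) :=
      mul_le_mul_of_nonneg_left h1 (by positivity)
    have h3 : (d : ℝ) / n * -(n / (2 * d)) = -(1 / 2) := by field_simp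
    rw [h3] at h2
    exact h2
  have hr : rho n x c = ∏ i, (1 + u i) := by
    unfold rho
    refine Finset.prod_congr rfl fun i _ => ?_
    rw [hu]
    simp only [bb]
    field_simp
    ring
  constructor
  · rw [hr]
    exact Finset.prod_pos fun i _ => by linarith [hul i]
  · rw [hr, ← Finset.prod_inv_distrib]
    calc ∏ i, (1 + u i)⁻¹ ≤ ∏ i, Real.exp (-u i + 2 * u i ^ 2) := by
          refine Finset.prod_le_prod (fun i _ => ?_) (fun i _ => inv_le _ (hul i))
          exact inv_nonneg.mpr (by linarith [hul i])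
      _ = Real.exp (∑ i, (-u i + 2 * u i ^ 2)) := (Real.exp_sum _ _).symm
      _ ≤ _ := by
          refine Real.exp_le_exp.mpr ?_
          rw [Finset.sum_add_distrib, Finset.sum_neg_distrib]
          have e1 : ∑ i, u i = d / n * ∑ i, bb n x i (c i) := by
            rw [Finset.mul_sum]
          have e2 : ∑ i, u i ^ 2 ≤ d ^ 2 * (nsq n x / n ^ 2) := by
            calc ∑ i, u i ^ 2 = (d / n) ^ 2 * ∑ i, bb n x i (c i) ^ 2 := by
                  rw [Finset.mul_sum]
                  refine Finset.sum_congr rfl fun i _ => ?_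
                  rw [hu]
                  ring
              _ ≤ (d / n) ^ 2 * nsq n x :=
                  mul_le_mul_of_nonneg_left (sum_sq_le x c) (sq_nonneg _)
              _ = _ := by
                  field_simp
          have e3 : ∑ i, 2 * u i ^ 2 = 2 * ∑ i, u i ^ 2 := by rw [Finset.mul_sum]
          linarith

/-- the constant `C'` -/
noncomputable def CC (d : ℕ) : ℝ := 2 * (d ^ 3 + 16 * d) * Real.exp (d + 2)

/-- the constant `L` -/
noncomputable def LL (d : ℕ) : ℝ := CC d + 2 * d ^ 2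

theorem CC_nonneg (d : ℕ) : 0 ≤ CC d := by
  unfold CC
  positivity

theorem LL_nonneg (d : ℕ) : 0 ≤ LL d := by
  unfold LL
  have := CC_nonneg d
  positivity

theorem mean_exp (hμ : Good μ) (hd : 1 ≤ d) (hn : 1 ≤ n) (x : Sq d) (h : ∀ i, ∑ a, x i a = n)
    (hb : ∀ i a, |bb n x i a| ≤ n / (2 * d)) (β : ℝ) (h0 : 0 ≤ β) (h1 : β ≤ 1) :
    ∑ σ : Equiv.Perm (Fin d), ∑ c : Fin d → Fin d, wt μ σ * Real.exp (EE n β x σ c) ≤
      Real.exp (CC d * (nsq n x / n ^ 2)) := by
  have hQ : 0 ≤ nsq n x / n ^ 2 := div_nonneg (nsq_nonneg x) (sq_nonneg _)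
  calc ∑ σ : Equiv.Perm (Fin d), ∑ c : Fin d → Fin d, wt μ σ * Real.exp (EE n β x σ c)
      ≤ ∑ σ : Equiv.Perm (Fin d), ∑ c : Fin d → Fin d,
        (wt μ σ * EE n β x σ c + wt μ σ * (1 + CC d * (nsq n x / n ^ 2))) := by
        refine Finset.sum_le_sum fun σ _ => Finset.sum_le_sum fun c _ => ?_
        rw [← mul_add]
        refine mul_le_mul_of_nonneg_left ?_ (wt_nonneg hμ σ)
        have e1 := exp_le (EE n β x σ c)
        have e2 := EE_sq hn x σ c β h0 h1
        have e3 : Real.exp |EE n β x σ c| ≤ Real.exp (d + 2) :=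
          Real.exp_le_exp.mpr (EE_abs hd hn x σ c β h0 h1 hb)
        have e4 : EE n β x σ c ^ 2 * Real.exp |EE n β x σ c| ≤
            2 * (d ^ 3 + 16 * d) * (nsq n x / n ^ 2) * Real.exp (d + 2) :=
          mul_le_mul e2 e3 (Real.exp_pos _).le (by positivity)
        unfold CC
        linarith
    _ = 1 + CC d * (nsq n x / n ^ 2) := by
        have s1 : ∑ σ : Equiv.Perm (Fin d), ∑ c : Fin d → Fin d,
            (wt μ σ * EE n β x σ c + wt μ σ * (1 + CC d * (nsq n x / n ^ 2))) =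
            (∑ σ : Equiv.Perm (Fin d), ∑ c : Fin d → Fin d, wt μ σ * EE n β x σ c) +
            (∑ σ : Equiv.Perm (Fin d), ∑ _c : Fin d → Fin d, wt μ σ) *
              (1 + CC d * (nsq n x / n ^ 2)) := by
          simp only [Finset.sum_add_distrib, Finset.sum_mul]
        rw [s1, mean_zero hd x h β, sum_wt hμ hd]
        ring
    _ ≤ _ := by
        rw [add_comm]
        exact Real.add_one_le_exp _

theorem main (hμ : Good μ) (hd : 1 ≤ d) (n : ℕ) (hn : 1 ≤ n) : ∀ k : ℕ, LL d * k ≤ n →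
    ∀ x : Sq d, (∀ i, ∑ a, x i a = n) →
      (∀ i a, |(x i a : ℝ) - n / d| ≤ n / (2 * d) - k) → ∀ Y : Finset (Sq d),
        ∑ y ∈ Y, Jk μ n k x y ≤ Real.exp (4 * d * k / n + LL d * k / n * (nsq n x / n)) := by
  have hn0 : (0 : ℝ) < n := by exact_mod_cast hn
  have hd0 : (0 : ℝ) < d := by exact_mod_cast hd
  intro k
  induction k with
  | zero =>
    intro _ x _ _ Y
    simp only [Jk]
    rw [Finset.sum_ite_eq]
    norm_num
    split_ifs <;> norm_num
  | succ k ih =>
    intro hk x hx hb Y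
    push_cast at hk hb
    have hL := LL_nonneg d
    have hkn : LL d * k ≤ n := by nlinarith
    have hb' : ∀ i a, |bb n x i a| ≤ n / (2 * d) := by
      intro i a
      refine (hb i a).trans ?_
      have : (0 : ℝ) ≤ k := Nat.cast_nonneg k
      linarith
    set β : ℝ := LL d * k / n with hβ
    have hβ0 : 0 ≤ β := by positivity
    have hβ1 : β ≤ 1 := by
      rw [hβ, div_le_one hn0]
      exact hkn
    set Q := nsq n x with hQdef
    have hQ : 0 ≤ Q := nsq_nonneg x
    set K0 : ℝ := 2 * d ^ 2 * (Q / n ^ 2) + 4 * d * k / n + β * (Q / n) + 4 * d / n with hK0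
    have hstep : ∀ σ : Equiv.Perm (Fin d), ∀ c : Fin d → Fin d,
        wt μ σ * (rho n x c)⁻¹ * ∑ y ∈ Y, Jk μ n k (x + delta σ c) y ≤
          wt μ σ * Real.exp (EE n β x σ c) * Real.exp K0 := by
      intro σ c
      obtain ⟨hr0, hr⟩ := rho_inv_le hd hn x c hb'
      have hrow : ∀ i, ∑ a, (x + delta σ c) i a = n := by
        intro i
        simp only [Pi.add_apply, delta]
        rw [Finset.sum_add_distrib, hx i, Finset.sum_sub_distrib]
        simp
      have hbnd : ∀ i a, |(((x + delta σ c) i a : ℤ) : ℝ) - n / d| ≤ n / (2 * d) - k := by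
        intro i a
        have h1 := hb i a
        have h2 : |((delta σ c i a : ℤ) : ℝ)| ≤ 1 := by
          unfold delta
          split_ifs <;> norm_num
        calc |(((x + delta σ c) i a : ℤ) : ℝ) - n / d|
            = |((x i a : ℝ) - n / d) + ((delta σ c i a : ℤ) : ℝ)| := by
              congr 1
              simp only [Pi.add_apply]
              push_cast
              ring
          _ ≤ |(x i a : ℝ) - n / d| + |((delta σ c i a : ℤ) : ℝ)| := abs_add_le _ _
          _ ≤ _ := by linarith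
      have hI := ih hkn (x + delta σ c) hrow hbnd Y
      have hN := nsq_add (n := n) x σ c
      have hw := wt_nonneg hμ σ
      have e1 : Real.exp (4 * d * k / n + β * (nsq n (x + delta σ c) / n)) ≤
          Real.exp (4 * d * k / n + β * ((Q + 2 * GG n x σ c + 4 * d) / n)) := by
        refine Real.exp_le_exp.mpr ?_
        have : nsq n (x + delta σ c) / n ≤ (Q + 2 * GG n x σ c + 4 * d) / n :=
          div_le_div_of_nonneg_right hN hn0.le
        have := mul_le_mul_of_nonneg_left this hβ0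
        linarith
      calc wt μ σ * (rho n x c)⁻¹ * ∑ y ∈ Y, Jk μ n k (x + delta σ c) y
          ≤ wt μ σ * (rho n x c)⁻¹ *
            Real.exp (4 * d * k / n + β * ((Q + 2 * GG n x σ c + 4 * d) / n)) :=
            mul_le_mul_of_nonneg_left (hI.trans e1) (mul_nonneg hw (inv_nonneg.mpr hr0.le))
        _ ≤ wt μ σ * Real.exp (-(d / n * ∑ i, bb n x i (c i)) + 2 * d ^ 2 * (Q / n ^ 2)) *
            Real.exp (4 * d * k / n + β * ((Q + 2 * GG n x σ c + 4 * d) / n)) := by
            refine mul_le_mul_of_nonneg_right ?_ (Real.exp_pos _).le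
            exact mul_le_mul_of_nonneg_left hr hw
        _ ≤ wt μ σ * Real.exp (EE n β x σ c) * Real.exp K0 := by
            rw [mul_assoc (wt μ σ), mul_assoc (wt μ σ), ← Real.exp_add, ← Real.exp_add]
            refine mul_le_mul_of_nonneg_left ?_ hw
            refine Real.exp_le_exp.mpr ?_
            unfold EE
            rw [hK0]
            have h5 : β * (4 * d / n) ≤ 1 * (4 * d / n) :=
              mul_le_mul_of_nonneg_right hβ1 (by positivity)
            have h6 : β * ((Q + 2 * GG n x σ c + 4 * d) / n) =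
                β * (Q / n) + 2 * β / n * GG n x σ c + β * (4 * d / n) := by
              field_simp
            rw [h6]
            linarith
    have hsum : ∑ y ∈ Y, Jk μ n (k + 1) x y = ∑ σ : Equiv.Perm (Fin d), ∑ c : Fin d → Fin d,
        wt μ σ * (rho n x c)⁻¹ * ∑ y ∈ Y, Jk μ n k (x + delta σ c) y := by
      simp only [Jk]
      rw [Finset.sum_comm]
      refine Finset.sum_congr rfl fun σ _ => ?_
      rw [Finset.sum_comm]
      refine Finset.sum_congr rfl fun c _ => ?_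
      rw [Finset.mul_sum]
    rw [hsum]
    calc ∑ σ : Equiv.Perm (Fin d), ∑ c : Fin d → Fin d,
        wt μ σ * (rho n x c)⁻¹ * ∑ y ∈ Y, Jk μ n k (x + delta σ c) y
        ≤ ∑ σ : Equiv.Perm (Fin d), ∑ c : Fin d → Fin d,
          wt μ σ * Real.exp (EE n β x σ c) * Real.exp K0 :=
          Finset.sum_le_sum fun σ _ => Finset.sum_le_sum fun c _ => hstep σ c
      _ = (∑ σ : Equiv.Perm (Fin d), ∑ c : Fin d → Fin d,
          wt μ σ * Real.exp (EE n β x σ c)) * Real.exp K0 := by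
          simp only [Finset.sum_mul]
      _ ≤ Real.exp (CC d * (Q / n ^ 2)) * Real.exp K0 :=
          mul_le_mul_of_nonneg_right (mean_exp hμ hd hn x hx hb' β hβ0 hβ1) (Real.exp_pos _).le
      _ = Real.exp (CC d * (Q / n ^ 2) + K0) := (Real.exp_add _ _).symm
      _ ≤ _ := by
          refine Real.exp_le_exp.mpr (le_of_eq ?_)
          rw [hK0, hβ]
          push_cast
          unfold LL
          field_simp
          ring

end JB

/-- **Bound of the mass of `Jk`.** There is `δ > 0` (depending on `d`) such that for all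
`k ≤ δ n` and all `x` with row sums `n` and entries within `n/(2d) - k` of `n/d` the mass is at most
`exp (1 + nsq n x / n)`.

Proof. Write `b i a = x i a - n/d` (`∑_a b i a = 0`), `u i a = d * b i a / n`, `|u i a| ≤ 1/2`;
`rho⁻¹ = ∏ i, (1 + u i (c i))⁻¹ ≤ exp (∑ i, (- u i (c i) + 2 u i (c i)²))`. Claim by induction on
`k`: if `L k ≤ n` then the mass is at most `exp (4 d k / n + (L k / n) nsq n x / n)`. -/
theorem Jk_mass (hμ : Good μ) (hd : 1 ≤ d) : ∃ δ : ℝ, 0 < δ ∧ ∀ n : ℕ, 1 ≤ n → ∀ k : ℕ,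
    (k : ℝ) ≤ δ * n → ∀ x : Sq d, (∀ i, ∑ a, x i a = n) →
      (∀ i a, |(x i a : ℝ) - n / d| ≤ n / (2 * d) - k) → ∀ Y : Finset (Sq d),
        ∑ y ∈ Y, Jk μ n k x y ≤ Real.exp (1 + nsq n x / n) := by
  have hL := JB.LL_nonneg d
  have hd0 : (0 : ℝ) < d := by exact_mod_cast hd
  refine ⟨1 / (JB.LL d + 4 * d + 1), by positivity, ?_⟩
  intro n hn k hk x hx hb Y
  have hn0 : (0 : ℝ) < n := by exact_mod_cast hn
  have hk0 : (0 : ℝ) ≤ k := Nat.cast_nonneg k
  have h1 : (JB.LL d + 4 * d + 1) * k ≤ n := by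
    rw [one_div, inv_mul_eq_div, le_div_iff₀ (by positivity)] at hk
    linarith
  have h2 : JB.LL d * k ≤ n := by nlinarith
  have h3 : 4 * d * k ≤ (n : ℝ) := by nlinarith
  refine (JB.main hμ hd n hn k h2 x hx hb Y).trans ?_
  refine Real.exp_le_exp.mpr ?_
  have h4 : 4 * d * k / n ≤ (1 : ℝ) := by
    rw [div_le_one hn0]
    exact h3
  have h5 : JB.LL d * k / n ≤ (1 : ℝ) := by
    rw [div_le_one hn0]
    exact h2
  have h6 : 0 ≤ nsq n x / n := div_nonneg (JB.nsq_nonneg x) hn0.le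
  have h7 := mul_le_mul_of_nonneg_right h5 h6
  linarith

end Pool.Agent.T2H73.BL
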