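import Pool.Agent.T2H73.BL.Basic

/-!
# Package KE: the chain on integer matrices, the ideal walk, Cauchy–Schwarz
-/

set_option autoImplicit false

namespace Pool.Agent.T2H73.BL

open Filter Topology
open scoped BigOperators

variable {d n : ℕ} {μ : Equiv.Perm (Fin d) → ℝ}

/-- ideal weight of a step: colours are uniform -/
noncomputable def wt (μ : Equiv.Perm (Fin d) → ℝ) (σ : Equiv.Perm (Fin d)) : ℝ :=
  μ σ * (1 / (d : ℝ)) ^ d

/-- the density of the true step with respect to the ideal one -/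
noncomputable def rho (n : ℕ) (x : Sq d) (c : Fin d → Fin d) : ℝ :=
  ∏ i, ((d : ℝ) * (x i (c i) : ℝ) / n)

/-- `k` steps of the true chain (extended to integer matrices) -/
noncomputable def Tk (μ : Equiv.Perm (Fin d) → ℝ) (n : ℕ) : ℕ → Sq d → Sq d → ℝ
  | 0, x, y => if x = y then 1 else 0
  | k + 1, x, y => ∑ σ : Equiv.Perm (Fin d), ∑ c : Fin d → Fin d,
      wt μ σ * rho n x c * Tk μ n k (x + delta σ c) y

/-- `k` steps of the ideal walk -/
noncomputable def Ik (μ : Equiv.Perm (Fin d) → ℝ) : ℕ → Sq d → Sq d → ℝ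
  | 0, x, y => if x = y then 1 else 0
  | k + 1, x, y => ∑ σ : Equiv.Perm (Fin d), ∑ c : Fin d → Fin d,
      wt μ σ * Ik μ k (x + delta σ c) y

/-- `k` steps with the inverse density -/
noncomputable def Jk (μ : Equiv.Perm (Fin d) → ℝ) (n : ℕ) : ℕ → Sq d → Sq d → ℝ
  | 0, x, y => if x = y then 1 else 0
  | k + 1, x, y => ∑ σ : Equiv.Perm (Fin d), ∑ c : Fin d → Fin d,
      wt μ σ * (rho n x c)⁻¹ * Jk μ n k (x + delta σ c) y

theorem wt_nonneg (hμ : Good μ) (σ : Equiv.Perm (Fin d)) : 0 ≤ wt μ σ :=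
  mul_nonneg (hμ.nonneg σ) (by positivity)

theorem KE.toZ_inj {x y : State d n} (h : x.toZ = y.toZ) : x = y := by
  apply Subtype.ext
  funext i a
  apply Fin.ext
  have h1 := congrFun (congrFun h i) a
  unfold State.toZ at h1
  exact_mod_cast h1

theorem KE.wt_rho (x : State d n) (σ : Equiv.Perm (Fin d)) (c : Fin d → Fin d) :
    wt μ σ * rho n x.toZ c = μ σ * ∏ i, (((x.1 i (c i) : ℕ) : ℝ) / n) := by
  unfold wt rho State.toZ
  rw [mul_assoc]
  congr 1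
  rcases Nat.eq_zero_or_pos d with hd | hd
  · subst hd
    simp
  · have hd' : (d : ℝ) ≠ 0 := by positivity
    have e : ∀ i : Fin d, (d : ℝ) * ((((x.1 i (c i) : ℕ) : ℤ)) : ℝ) / n =
        (d : ℝ) * ((((x.1 i (c i) : ℕ)) : ℝ) / n) := by
      intro i
      push_cast
      ring
    rw [Finset.prod_congr rfl fun i _ => e i, Finset.prod_mul_distrib, Finset.prod_const, Finset.card_univ,
      Fintype.card_fin, ← mul_assoc, ← mul_pow, one_div, inv_mul_cancel₀ hd', one_pow, one_mul]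

theorem KE.Tk_succ (hμ : Good μ) (k : ℕ) (x : State d n) (y : Sq d) :
    Tk μ n (k + 1) x.toZ y = ∑ N', stepM μ n x N' * Tk μ n k N'.toZ y := by
  rw [stepM_apply hμ x fun z => Tk μ n k z y]
  show (∑ σ : Equiv.Perm (Fin d), ∑ c : Fin d → Fin d,
      wt μ σ * rho n x.toZ c * Tk μ n k (x.toZ + delta σ c) y) = _
  refine Finset.sum_congr rfl fun σ _ => Finset.sum_congr rfl fun c _ => ?_
  rw [KE.wt_rho]

theorem KE.delta_ge (σ : Equiv.Perm (Fin d)) (c : Fin d → Fin d) (i a : Fin d) : -1 ≤ delta σ c i a := by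
  unfold delta
  split_ifs <;> norm_num

theorem KE.shift {k : ℕ} {x : Sq d} (hx : ∀ i a, ((k + 1 : ℕ) : ℤ) ≤ x i a) (σ : Equiv.Perm (Fin d))
    (c : Fin d → Fin d) (i a : Fin d) : (k : ℤ) ≤ (x + delta σ c) i a := by
  have h1 := hx i a
  have h2 := KE.delta_ge σ c i a
  have h3 : (x + delta σ c) i a = x i a + delta σ c i a := rfl
  rw [h3]
  push_cast at h1
  linarith

theorem KE.rho_nonneg {k : ℕ} {x : Sq d} (hx : ∀ i a, (k : ℤ) ≤ x i a) (c : Fin d → Fin d) :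
    0 ≤ rho n x c := by
  unfold rho
  refine Finset.prod_nonneg fun i _ => ?_
  have h1 : (0 : ℤ) ≤ x i (c i) := le_trans (by positivity) (hx i (c i))
  have h2 : (0 : ℝ) ≤ (x i (c i) : ℝ) := by exact_mod_cast h1
  positivity

theorem KE.rho_pos (hd : 1 ≤ d) (hn : 1 ≤ n) {k : ℕ} {x : Sq d} (hx : ∀ i a, ((k + 1 : ℕ) : ℤ) ≤ x i a)
    (c : Fin d → Fin d) : 0 < rho n x c := by
  unfold rho
  refine Finset.prod_pos fun i _ => ?_
  have h1 : (0 : ℤ) < x i (c i) := lt_of_lt_of_le (by positivity) (hx i (c i))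
  have h2 : (0 : ℝ) < (x i (c i) : ℝ) := by exact_mod_cast h1
  have h3 : (0 : ℝ) < (n : ℝ) := by exact_mod_cast hn
  have h4 : (0 : ℝ) < (d : ℝ) := by exact_mod_cast hd
  positivity

/-- Cauchy–Schwarz with inequalities. -/
theorem KE.cs {ι : Type} (s : Finset ι) (r f g : ι → ℝ) (hr : ∀ i ∈ s, 0 ≤ r i) (hf : ∀ i ∈ s, 0 ≤ f i)
    (hg : ∀ i ∈ s, 0 ≤ g i) (h : ∀ i ∈ s, r i ^ 2 ≤ f i * g i) :
    (∑ i ∈ s, r i) ^ 2 ≤ (∑ i ∈ s, f i) * ∑ i ∈ s, g i := by
  have h1 : ∑ i ∈ s, r i ≤ ∑ i ∈ s, Real.sqrt (f i * g i) :=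
    Finset.sum_le_sum fun i hi => Real.le_sqrt_of_sq_le (h i hi)
  have h2 : (∑ i ∈ s, Real.sqrt (f i * g i)) ^ 2 ≤ (∑ i ∈ s, f i) * ∑ i ∈ s, g i :=
    Finset.sum_sq_le_sum_mul_sum_of_sq_eq_mul s hf hg fun i hi =>
      Real.sq_sqrt (mul_nonneg (hf i hi) (hg i hi))
  exact (pow_le_pow_left₀ (Finset.sum_nonneg hr) h1 2).trans h2

/-- Induction on `k` (`pow_succ'`), `stepM_apply` with `g z = Tk μ n k z x'.toZ`
(`wt μ σ * rho n x c = μ σ * ∏ i, x i (c i) / n` as `d ≥ 1`). -/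
theorem pow_eq_Tk (hμ : Good μ) (hd : 1 ≤ d) (k : ℕ) (x x' : State d n) :
    (stepM μ n ^ k) x x' = Tk μ n k x.toZ x'.toZ := by
  induction k generalizing x with
  | zero =>
    rw [pow_zero, Matrix.one_apply]
    show _ = (if x.toZ = x'.toZ then (1 : ℝ) else 0)
    by_cases h : x = x'
    · rw [if_pos h, if_pos (by rw [h])]
    · rw [if_neg h, if_neg fun h' => h (KE.toZ_inj h')]
  | succ k ih =>
    rw [pow_succ', Matrix.mul_apply, KE.Tk_succ hμ]
    exact Finset.sum_congr rfl fun y _ => by rw [ih y]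

/-- From a state the true chain only reaches states (same induction: if the product
`∏ i, N i (c i)` does not vanish then `x.toZ + delta σ c` is `toZ` of a state). -/
theorem Tk_eq_zero (hμ : Good μ) (k : ℕ) (x : State d n) (y : Sq d)
    (hy : ∀ x' : State d n, x'.toZ ≠ y) : Tk μ n k x.toZ y = 0 := by
  induction k generalizing x with
  | zero =>
    show (if x.toZ = y then (1 : ℝ) else 0) = 0
    rw [if_neg (hy x)]
  | succ k ih =>
    rw [KE.Tk_succ hμ]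
    exact Finset.sum_eq_zero fun N' _ => by rw [ih N', mul_zero]

theorem Ik_nonneg (hμ : Good μ) (k : ℕ) (x y : Sq d) : 0 ≤ Ik μ k x y := by
  induction k generalizing x with
  | zero =>
    show (0 : ℝ) ≤ (if x = y then (1 : ℝ) else 0)
    split_ifs <;> norm_num
  | succ k ih =>
    show (0 : ℝ) ≤ ∑ σ : Equiv.Perm (Fin d), ∑ c : Fin d → Fin d, wt μ σ * Ik μ k (x + delta σ c) y
    exact Finset.sum_nonneg fun σ _ => Finset.sum_nonneg fun c _ => mul_nonneg (wt_nonneg hμ σ) (ih _)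

/-- Entries change by at most `1` in one step, so they stay nonnegative for `k` steps. -/
theorem Tk_nonneg (hμ : Good μ) (k : ℕ) (x y : Sq d) (hx : ∀ i a, (k : ℤ) ≤ x i a) :
    0 ≤ Tk μ n k x y := by
  induction k generalizing x with
  | zero =>
    show (0 : ℝ) ≤ (if x = y then (1 : ℝ) else 0)
    split_ifs <;> norm_num
  | succ k ih =>
    show (0 : ℝ) ≤ ∑ σ : Equiv.Perm (Fin d), ∑ c : Fin d → Fin d,
      wt μ σ * rho n x c * Tk μ n k (x + delta σ c) y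
    exact Finset.sum_nonneg fun σ _ => Finset.sum_nonneg fun c _ =>
      mul_nonneg (mul_nonneg (wt_nonneg hμ σ) (KE.rho_nonneg hx c)) (ih _ (KE.shift hx σ c))

theorem Jk_nonneg (hμ : Good μ) (k : ℕ) (x y : Sq d) (hx : ∀ i a, (k : ℤ) ≤ x i a) :
    0 ≤ Jk μ n k x y := by
  induction k generalizing x with
  | zero =>
    show (0 : ℝ) ≤ (if x = y then (1 : ℝ) else 0)
    split_ifs <;> norm_num
  | succ k ih =>
    show (0 : ℝ) ≤ ∑ σ : Equiv.Perm (Fin d), ∑ c : Fin d → Fin d,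
      wt μ σ * (rho n x c)⁻¹ * Jk μ n k (x + delta σ c) y
    exact Finset.sum_nonneg fun σ _ => Finset.sum_nonneg fun c _ =>
      mul_nonneg (mul_nonneg (wt_nonneg hμ σ) (inv_nonneg.2 (KE.rho_nonneg hx c))) (ih _ (KE.shift hx σ c))

/-- **Cauchy–Schwarz.** Induction on `k`: `Ik (k+1) x y = ∑ w I ≤ ∑ w √T √J =
∑ √(w ρ T) √(w ρ⁻¹ J) ≤ √(Tk (k+1)) √(Jk (k+1))` (`Finset.sum_mul_sq_le_sq_mul_sq` or
`Finset.sum_sq_le_sum_mul_sum_of_sq_eq_mul`, over the pairs `(σ, c)`; `ρ > 0` because all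
entries are `≥ 1`). -/
theorem Ik_sq_le (hμ : Good μ) (hd : 1 ≤ d) (hn : 1 ≤ n) (k : ℕ) (x y : Sq d)
    (hx : ∀ i a, (k : ℤ) ≤ x i a) : Ik μ k x y ^ 2 ≤ Tk μ n k x y * Jk μ n k x y := by
  induction k generalizing x with
  | zero =>
    show (if x = y then (1 : ℝ) else 0) ^ 2 ≤ (if x = y then (1 : ℝ) else 0) * (if x = y then (1 : ℝ) else 0)
    split_ifs <;> norm_num
  | succ k ih =>
    show (∑ σ : Equiv.Perm (Fin d), ∑ c : Fin d → Fin d, wt μ σ * Ik μ k (x + delta σ c) y) ^ 2 ≤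
      (∑ σ : Equiv.Perm (Fin d), ∑ c : Fin d → Fin d, wt μ σ * rho n x c * Tk μ n k (x + delta σ c) y) *
      ∑ σ : Equiv.Perm (Fin d), ∑ c : Fin d → Fin d,
        wt μ σ * (rho n x c)⁻¹ * Jk μ n k (x + delta σ c) y
    rw [← Fintype.sum_prod_type' (f := fun (σ : Equiv.Perm (Fin d)) (c : Fin d → Fin d) =>
        wt μ σ * Ik μ k (x + delta σ c) y),
      ← Fintype.sum_prod_type' (f := fun (σ : Equiv.Perm (Fin d)) (c : Fin d → Fin d) =>
        wt μ σ * rho n x c * Tk μ n k (x + delta σ c) y),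
      ← Fintype.sum_prod_type' (f := fun (σ : Equiv.Perm (Fin d)) (c : Fin d → Fin d) =>
        wt μ σ * (rho n x c)⁻¹ * Jk μ n k (x + delta σ c) y)]
    refine KE.cs _ _ _ _ (fun q _ => mul_nonneg (wt_nonneg hμ q.1) (Ik_nonneg hμ k _ y))
      (fun q _ => mul_nonneg (mul_nonneg (wt_nonneg hμ q.1) (KE.rho_nonneg hx q.2))
        (Tk_nonneg hμ k _ y (KE.shift hx q.1 q.2)))
      (fun q _ => mul_nonneg (mul_nonneg (wt_nonneg hμ q.1) (inv_nonneg.2 (KE.rho_nonneg hx q.2)))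
        (Jk_nonneg hμ k _ y (KE.shift hx q.1 q.2))) fun q _ => ?_
    have hρ : rho n x q.2 ≠ 0 := (KE.rho_pos hd hn hx q.2).ne'
    have h1 := ih (x + delta q.1 q.2) (KE.shift hx q.1 q.2)
    calc (wt μ q.1 * Ik μ k (x + delta q.1 q.2) y) ^ 2 = wt μ q.1 ^ 2 * Ik μ k (x + delta q.1 q.2) y ^ 2 := by
          ring
      _ ≤ wt μ q.1 ^ 2 * (Tk μ n k (x + delta q.1 q.2) y * Jk μ n k (x + delta q.1 q.2) y) :=
          mul_le_mul_of_nonneg_left h1 (sq_nonneg _)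
      _ = (rho n x q.2 * (rho n x q.2)⁻¹) * (wt μ q.1 ^ 2 *
            (Tk μ n k (x + delta q.1 q.2) y * Jk μ n k (x + delta q.1 q.2) y)) := by
          rw [mul_inv_cancel₀ hρ, one_mul]
      _ = _ := by ring

/-- **Overlap of the true chain from the overlap of the ideal walk.** With
`i(y) = min (Ik x y) (Ik x' y)`: `min (Tk x y) (Tk x' y) * (Jk x y + Jk x' y) ≥ i(y)²`, and
`(∑ i)² ≤ (∑ min T T') (∑ (J + J'))`. -/
theorem overlap_T (hμ : Good μ) (hd : 1 ≤ d) (hn : 1 ≤ n) (k : ℕ) (x x' : Sq d)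
    (hx : ∀ i a, (k : ℤ) ≤ x i a) (hx' : ∀ i a, (k : ℤ) ≤ x' i a) (Y : Finset (Sq d))
    {ε B : ℝ} (hε : 0 ≤ ε) (hB : 0 < B)
    (h : ε ≤ ∑ y ∈ Y, min (Ik μ k x y) (Ik μ k x' y)) (h1 : ∑ y ∈ Y, Jk μ n k x y ≤ B)
    (h2 : ∑ y ∈ Y, Jk μ n k x' y ≤ B) :
    ε ^ 2 / (2 * B) ≤ ∑ y ∈ Y, min (Tk μ n k x y) (Tk μ n k x' y) := by
  have hT : ∀ y, 0 ≤ Tk μ n k x y := fun y => Tk_nonneg hμ k x y hx
  have hT' : ∀ y, 0 ≤ Tk μ n k x' y := fun y => Tk_nonneg hμ k x' y hx'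
  have hJ : ∀ y, 0 ≤ Jk μ n k x y := fun y => Jk_nonneg hμ k x y hx
  have hJ' : ∀ y, 0 ≤ Jk μ n k x' y := fun y => Jk_nonneg hμ k x' y hx'
  have hI : ∀ y, 0 ≤ Ik μ k x y := fun y => Ik_nonneg hμ k x y
  have hI' : ∀ y, 0 ≤ Ik μ k x' y := fun y => Ik_nonneg hμ k x' y
  have hcs := KE.cs Y (fun y => min (Ik μ k x y) (Ik μ k x' y)) (fun y => min (Tk μ n k x y) (Tk μ n k x' y))
    (fun y => Jk μ n k x y + Jk μ n k x' y) (fun y _ => le_min (hI y) (hI' y))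
    (fun y _ => le_min (hT y) (hT' y)) (fun y _ => add_nonneg (hJ y) (hJ' y)) fun y _ => by
      have a1 := Ik_sq_le hμ hd hn k x y hx
      have a2 := Ik_sq_le hμ hd hn k x' y hx'
      have b1 : min (Ik μ k x y) (Ik μ k x' y) ^ 2 ≤ Ik μ k x y ^ 2 :=
        pow_le_pow_left₀ (le_min (hI y) (hI' y)) (min_le_left _ _) 2
      have b2 : min (Ik μ k x y) (Ik μ k x' y) ^ 2 ≤ Ik μ k x' y ^ 2 :=
        pow_le_pow_left₀ (le_min (hI y) (hI' y)) (min_le_right _ _) 2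
      rcases min_choice (Tk μ n k x y) (Tk μ n k x' y) with h3 | h3
      · simp only [h3]
        have := mul_nonneg (hT y) (hJ' y)
        nlinarith
      · simp only [h3]
        have := mul_nonneg (hT' y) (hJ y)
        nlinarith
  have hm : 0 ≤ ∑ y ∈ Y, min (Tk μ n k x y) (Tk μ n k x' y) :=
    Finset.sum_nonneg fun y _ => le_min (hT y) (hT' y)
  have hsum : ∑ y ∈ Y, (Jk μ n k x y + Jk μ n k x' y) ≤ 2 * B := by
    rw [Finset.sum_add_distrib]
    linarith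
  rw [div_le_iff₀ (by positivity)]
  calc ε ^ 2 ≤ (∑ y ∈ Y, min (Ik μ k x y) (Ik μ k x' y)) ^ 2 := pow_le_pow_left₀ hε h 2
    _ ≤ _ := hcs
    _ ≤ _ := mul_le_mul_of_nonneg_left hsum hm

/-- Back to the states: `toZ` is injective and `Tk x y = 0` when `y` is not a state. -/
theorem overlap_P (hμ : Good μ) (hd : 1 ≤ d) (k : ℕ) (x x' : State d n) (Y : Finset (Sq d)) :
    ∑ y ∈ Y, min (Tk μ n k x.toZ y) (Tk μ n k x'.toZ y) ≤
      ∑ y : State d n, min ((stepM μ n ^ k) x y) ((stepM μ n ^ k) x' y) := by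
  classical
  have hpow : ∀ (k : ℕ) (x y : State d n), 0 ≤ (stepM μ n ^ k) x y := by
    intro k
    induction k with
    | zero =>
      intro x y
      rw [pow_zero, Matrix.one_apply]
      split_ifs <;> norm_num
    | succ k ih =>
      intro x y
      rw [pow_succ', Matrix.mul_apply]
      exact Finset.sum_nonneg fun z _ => mul_nonneg (stepM_nonneg hμ x z) (ih z y)
  set S : Finset (Sq d) := (Finset.univ : Finset (State d n)).image State.toZ with hS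
  have h1 : ∑ y ∈ Y, min (Tk μ n k x.toZ y) (Tk μ n k x'.toZ y) =
      ∑ y ∈ Y.filter (fun y => y ∈ S), min (Tk μ n k x.toZ y) (Tk μ n k x'.toZ y) := by
    rw [Finset.sum_filter]
    refine Finset.sum_congr rfl fun y _ => ?_
    split_ifs with h
    · rfl
    · have hy : ∀ z : State d n, z.toZ ≠ y := by
        intro z hz
        exact h (Finset.mem_image.2 ⟨z, Finset.mem_univ z, hz⟩)
      rw [Tk_eq_zero hμ k x y hy, Tk_eq_zero hμ k x' y hy, min_self]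
  have hF : ∀ y ∈ S, 0 ≤ min (Tk μ n k x.toZ y) (Tk μ n k x'.toZ y) := by
    intro y hy
    obtain ⟨z, -, rfl⟩ := Finset.mem_image.1 hy
    rw [← pow_eq_Tk hμ hd, ← pow_eq_Tk hμ hd]
    exact le_min (hpow k x z) (hpow k x' z)
  rw [h1]
  refine (Finset.sum_le_sum_of_subset_of_nonneg (t := S) (fun y hy => (Finset.mem_filter.1 hy).2)
    fun y hy _ => hF y hy).trans (le_of_eq ?_)
  rw [hS, Finset.sum_image fun a _ b _ hab => KE.toZ_inj hab]
  exact Finset.sum_congr rfl fun z _ => by rw [pow_eq_Tk hμ hd, pow_eq_Tk hμ hd]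

end Pool.Agent.T2H73.BL
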