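import Pool.Agent.T2H73.BL.Basic
import Pool.Agent.T2H73.BL.Expo

/-!
# Package LI: linear functions of the state
-/

set_option autoImplicit false

namespace Pool.Agent.T2H73.BL

open Filter Topology
open scoped BigOperators

variable {d n : ℕ} {μ : Equiv.Perm (Fin d) → ℝ}

/-- `lin n a v N = ∑ i, v i * N i a` -/
noncomputable def lin (n : ℕ) (a : Fin d) : (Fin d → ℝ) →ₗ[ℝ] (State d n → ℝ) where
  toFun v := fun N => ∑ i, v i * ((N.1 i a : ℕ) : ℝ)
  map_add' := by
    intro v w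
    funext N
    simp [add_mul, Finset.sum_add_distrib]
  map_smul' := by
    intro r v
    funext N
    simp [Finset.mul_sum, mul_assoc]

theorem lin_apply (a : Fin d) (v : Fin d → ℝ) (N : State d n) :
    lin n a v N = ∑ i, v i * ((N.1 i a : ℕ) : ℝ) := rfl

/-- `Pt` is `ex` of `stepM` (by definition). -/
theorem Pt_eq (t : ℝ) : Pt μ n t = ex (stepM μ n) t := rfl

namespace LinAux

theorem sum_pi {d : ℕ} (w : Fin d → Fin d → ℝ) :
    ∑ c : Fin d → Fin d, ∏ i, w i (c i) = ∏ i, ∑ b, w i b := by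
  rw [Finset.prod_univ_sum, Fintype.piFinset_univ]

theorem sum_pi_ind {d : ℕ} (w : Fin d → Fin d → ℝ) (hw : ∀ i, ∑ b, w i b = 1) (i₀ a : Fin d) :
    ∑ c : Fin d → Fin d, (∏ i, w i (c i)) * (if c i₀ = a then (1 : ℝ) else 0) = w i₀ a := by
  have h1 : ∀ c : Fin d → Fin d, (∏ i, w i (c i)) * (if c i₀ = a then (1 : ℝ) else 0) =
      ∏ i, (fun (i b : Fin d) => w i b * (if i = i₀ then (if b = a then (1 : ℝ) else 0) else 1)) i (c i) := by
    intro c
    simp only
    rw [Finset.prod_mul_distrib]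
    congr 1
    rw [Finset.prod_eq_single i₀]
    · simp
    · intro b _ hb
      simp [hb]
    · intro h
      exact absurd (Finset.mem_univ _) h
  refine (Finset.sum_congr rfl fun c _ => h1 c).trans ((sum_pi
    (fun (i b : Fin d) => w i b * (if i = i₀ then (if b = a then (1 : ℝ) else 0) else 1))).trans ?_)
  rw [Finset.prod_eq_single i₀]
  · simp
  · intro b _ hb
    simp [hb, hw]
  · intro h
    exact absurd (Finset.mem_univ _) h

theorem row (N : State d n) (hn : 1 ≤ n) (i : Fin d) : ∑ b, ((N.1 i b : ℕ) : ℝ) / n = 1 := by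
  have h0 : (n : ℝ) ≠ 0 := by
    have : 0 < n := hn
    positivity
  rw [← Finset.sum_div, ← Nat.cast_sum, N.2.1 i, div_self h0]

theorem tot (N : State d n) (hn : 1 ≤ n) :
    ∑ c : Fin d → Fin d, ∏ i, (((N.1 i (c i) : ℕ) : ℝ) / n) = 1 := by
  rw [sum_pi (fun i b => ((N.1 i b : ℕ) : ℝ) / n)]
  exact Finset.prod_eq_one fun i _ => row N hn i

theorem chg (σ : Equiv.Perm (Fin d)) (c : Fin d → Fin d) (a : Fin d) (v : Fin d → ℝ) :
    ∑ j, v j * ((delta σ c j a : ℤ) : ℝ) =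
      ∑ i, (v (σ i) - v i) * (if c i = a then (1 : ℝ) else 0) := by
  have h1 : ∀ j, v j * ((delta σ c j a : ℤ) : ℝ) =
      v j * (if c (σ.symm j) = a then (1 : ℝ) else 0) - v j * (if c j = a then (1 : ℝ) else 0) := by
    intro j
    unfold delta
    push_cast
    ring
  rw [Finset.sum_congr rfl fun j _ => h1 j, Finset.sum_sub_distrib,
    ← Equiv.sum_comp σ (fun j => v j * (if c (σ.symm j) = a then (1 : ℝ) else 0)),
    ← Finset.sum_sub_distrib]
  refine Finset.sum_congr rfl fun i _ => ?_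
  simp only [Equiv.symm_apply_apply]
  ring

theorem lin_toZ (a : Fin d) (v : Fin d → ℝ) (N : State d n) :
    lin n a v N = ∑ i, v i * ((N.toZ i a : ℤ) : ℝ) := by
  rw [lin_apply]
  refine Finset.sum_congr rfl fun i _ => ?_
  unfold State.toZ
  push_cast
  rfl

theorem lin_add (a : Fin d) (v : Fin d → ℝ) (N : State d n) (σ : Equiv.Perm (Fin d))
    (c : Fin d → Fin d) :
    ∑ i, v i * (((N.toZ + delta σ c) i a : ℤ) : ℝ) =
      lin n a v N + ∑ i, (v (σ i) - v i) * (if c i = a then (1 : ℝ) else 0) := by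
  rw [lin_toZ, ← chg, ← Finset.sum_add_distrib]
  refine Finset.sum_congr rfl fun i _ => ?_
  rw [Pi.add_apply, Pi.add_apply]
  push_cast
  ring

theorem U_mulVec (μ : Equiv.Perm (Fin d) → ℝ) (v : Fin d → ℝ) (i : Fin d) :
    (U μ).mulVec v i = ∑ σ : Equiv.Perm (Fin d), μ σ * v (σ i) := by
  unfold U Matrix.mulVec dotProduct
  simp_rw [Finset.sum_mul]
  rw [Finset.sum_comm]
  refine Finset.sum_congr rfl fun σ _ => ?_
  simp [ite_mul]

end LinAux

open LinAux

/-- One step: by `stepM_apply` with `g x = ∑ i, v i * x i a` the change of `lin n a v` is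
`∑ j, v j * delta σ c j a = ∑ i, (v (σ i) - v i) [c i = a]` (reindex `j = σ i`), and
`∑_c ∏_i (N i (c i) / n) [c i₀ = a] = N i₀ a / n` (the factors with `i ≠ i₀` sum up to `1`). -/
theorem stepM_lin (hμ : Good μ) (hn : 1 ≤ n) (a : Fin d) (v : Fin d → ℝ) :
    (stepM μ n).mulVec (lin n a v) =
      lin n a ((1 + (1 / (n : ℝ)) • (U μ - 1)).mulVec v) := by
  funext x
  have h1 : (stepM μ n).mulVec (lin n a v) x =
      ∑ y, stepM μ n x y * (fun z : Sq d => ∑ i, v i * ((z i a : ℤ) : ℝ)) y.toZ := by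
    unfold Matrix.mulVec dotProduct
    refine Finset.sum_congr rfl fun y _ => ?_
    rw [lin_toZ]
  refine (h1.trans (stepM_apply hμ x (fun z : Sq d => ∑ i, v i * ((z i a : ℤ) : ℝ)))).trans ?_
  simp only [lin_add]
  have h2 : ∀ σ : Equiv.Perm (Fin d), ∑ c : Fin d → Fin d,
      μ σ * (∏ i, (((x.1 i (c i) : ℕ) : ℝ) / n)) *
        (lin n a v x + ∑ i, (v (σ i) - v i) * (if c i = a then (1 : ℝ) else 0)) =
      μ σ * lin n a v x + ∑ i, μ σ * (v (σ i) - v i) * (((x.1 i a : ℕ) : ℝ) / n) := by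
    intro σ
    have h3 : ∀ c : Fin d → Fin d, μ σ * (∏ i, (((x.1 i (c i) : ℕ) : ℝ) / n)) *
        (lin n a v x + ∑ i, (v (σ i) - v i) * (if c i = a then (1 : ℝ) else 0)) =
        μ σ * lin n a v x * (∏ i, (((x.1 i (c i) : ℕ) : ℝ) / n)) +
        ∑ i, μ σ * (v (σ i) - v i) *
          ((∏ i, (((x.1 i (c i) : ℕ) : ℝ) / n)) * (if c i = a then (1 : ℝ) else 0)) := by
      intro c
      rw [mul_add, Finset.mul_sum]
      congr 1
      · ring
      · refine Finset.sum_congr rfl fun i _ => ?_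
        ring
    rw [Finset.sum_congr rfl fun c _ => h3 c, Finset.sum_add_distrib, ← Finset.mul_sum,
      tot x hn, mul_one, Finset.sum_comm]
    congr 1
    refine Finset.sum_congr rfl fun i _ => ?_
    rw [← Finset.mul_sum, sum_pi_ind (fun i b => ((x.1 i b : ℕ) : ℝ) / n) (row x hn)]
  rw [Finset.sum_congr rfl fun σ _ => h2 σ, Finset.sum_add_distrib, ← Finset.sum_mul,
    hμ.sum_eq_one, one_mul, Finset.sum_comm, lin_apply, lin_apply, ← Finset.sum_add_distrib]
  refine Finset.sum_congr rfl fun i _ => ?_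
  rw [Matrix.add_mulVec, Matrix.one_mulVec, Matrix.smul_mulVec, Matrix.sub_mulVec,
    Matrix.one_mulVec]
  simp only [Pi.add_apply, Pi.smul_apply, Pi.sub_apply, smul_eq_mul]
  rw [U_mulVec, ← Finset.sum_mul]
  have h4 : ∑ σ : Equiv.Perm (Fin d), μ σ * (v (σ i) - v i) =
      (∑ σ : Equiv.Perm (Fin d), μ σ * v (σ i)) - v i := by
    simp_rw [mul_sub]
    rw [Finset.sum_sub_distrib, ← Finset.sum_mul, hμ.sum_eq_one, one_mul]
  rw [h4]
  ring

/-- `ex_intertwine` with `A = 1 + (1/n) (U - 1)`, `t (A - 1) = (t / n) (U - 1)`. -/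
theorem Pt_lin (hμ : Good μ) (hn : 1 ≤ n) (a : Fin d) (v : Fin d → ℝ) (t : ℝ) :
    (Pt μ n t).mulVec (lin n a v) = lin n a ((ex (U μ) (t / n)).mulVec v) := by
  rw [Pt_eq, ex_intertwine (stepM μ n) (1 + (1 / (n : ℝ)) • (U μ - 1)) (lin n a)
    (stepM_lin hμ hn a) t v]
  congr 2
  unfold ex
  congr 1
  rw [add_sub_cancel_left, smul_smul]
  congr 1
  ring

/-- For every state and every increment: `∑ y, stepM x y (lin v y - lin v x)² ≤ (d * osc)²` if
`|v i - m| ≤ osc / 2` for all `i` (the change is `∑ i, (v (σ i) - v i) [c i = a]`, at most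
`d * osc` in absolute value; `stepM_apply` with `g z = (∑ i, v i * z i a - lin v x)²`). -/
theorem gamma_lin (hμ : Good μ) (hn : 1 ≤ n) (a : Fin d) (v : Fin d → ℝ) (m o : ℝ)
    (hv : ∀ i, |v i - m| ≤ o / 2) (x : State d n) :
    ∑ y, stepM μ n x y * (lin n a v y - lin n a v x) ^ 2 ≤ (d * o) ^ 2 := by
  have h1 : ∑ y, stepM μ n x y * (lin n a v y - lin n a v x) ^ 2 =
      ∑ y, stepM μ n x y *
        (fun z : Sq d => ((∑ i, v i * ((z i a : ℤ) : ℝ)) - lin n a v x) ^ 2) y.toZ := by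
    refine Finset.sum_congr rfl fun y _ => ?_
    rw [lin_toZ a v y]
  refine (h1.trans (stepM_apply hμ x
    (fun z : Sq d => ((∑ i, v i * ((z i a : ℤ) : ℝ)) - lin n a v x) ^ 2))).le.trans ?_
  simp only [lin_add, add_sub_cancel_left]
  have h2 : ∀ (σ : Equiv.Perm (Fin d)) (c : Fin d → Fin d),
      (∑ i, (v (σ i) - v i) * (if c i = a then (1 : ℝ) else 0)) ^ 2 ≤ (d * o) ^ 2 := by
    intro σ c
    rw [← sq_abs]
    refine pow_le_pow_left₀ (abs_nonneg _) ?_ 2
    refine (Finset.abs_sum_le_sum_abs _ _).trans ?_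
    have h3 : ∀ i ∈ (Finset.univ : Finset (Fin d)),
        |(v (σ i) - v i) * (if c i = a then (1 : ℝ) else 0)| ≤ o := by
      intro i _
      have h4 : |v (σ i) - v i| ≤ o := by
        have h5 := abs_le.1 (hv (σ i))
        have h6 := abs_le.1 (hv i)
        rw [abs_le]
        constructor <;> linarith [h5.1, h5.2, h6.1, h6.2]
      split_ifs
      · rwa [mul_one]
      · rw [mul_zero, abs_zero]
        exact (abs_nonneg _).trans h4
    refine (Finset.sum_le_card_nsmul _ _ _ h3).trans ?_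
    rw [Finset.card_univ, Fintype.card_fin, nsmul_eq_mul]
  calc ∑ σ : Equiv.Perm (Fin d), ∑ c : Fin d → Fin d,
        μ σ * (∏ i, (((x.1 i (c i) : ℕ) : ℝ) / n)) *
          (∑ i, (v (σ i) - v i) * (if c i = a then (1 : ℝ) else 0)) ^ 2
      ≤ ∑ σ : Equiv.Perm (Fin d), ∑ c : Fin d → Fin d,
        μ σ * (∏ i, (((x.1 i (c i) : ℕ) : ℝ) / n)) * (d * o) ^ 2 := by
        refine Finset.sum_le_sum fun σ _ => Finset.sum_le_sum fun c _ => ?_
        refine mul_le_mul_of_nonneg_left (h2 σ c) ?_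
        refine mul_nonneg (hμ.nonneg σ) (Finset.prod_nonneg fun i _ => by positivity)
    _ = (d * o) ^ 2 := by
        have h5 : ∀ σ : Equiv.Perm (Fin d), ∑ c : Fin d → Fin d,
            μ σ * (∏ i, (((x.1 i (c i) : ℕ) : ℝ) / n)) * (d * o) ^ 2 = μ σ * (d * o) ^ 2 := by
          intro σ
          rw [← Finset.sum_mul, ← Finset.mul_sum, tot x hn, mul_one]
        rw [Finset.sum_congr rfl fun σ _ => h5 σ, ← Finset.sum_mul, hμ.sum_eq_one, one_mul]

end Pool.Agent.T2H73.BL
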