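import Pool.Agent.T2H73.BL.Over

/-!
# Assembly
-/

set_option autoImplicit false

namespace Pool.Agent.T2H73.BL

open Filter Topology
open scoped BigOperators

variable {d n : ℕ} {μ : Equiv.Perm (Fin d) → ℝ}

section tv

variable {S : Type} [Fintype S]

theorem tv_nonneg (p q : S → ℝ) : 0 ≤ tv p q := by
  unfold tv
  have : 0 ≤ ∑ x, |p x - q x| := Finset.sum_nonneg fun _ _ => abs_nonneg _
  linarith

theorem tv_eq {p q : S → ℝ} (hp : ∑ x, p x = 1) (hq : ∑ x, q x = 1) :
    tv p q = 1 - ∑ x, min (p x) (q x) := by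
  unfold tv
  have h : ∀ x, |p x - q x| = p x + q x - 2 * min (p x) (q x) := by
    intro x
    rcases le_total (p x) (q x) with h | h
    · rw [min_eq_left h, abs_of_nonpos (by linarith)]; ring
    · rw [min_eq_right h, abs_of_nonneg (by linarith)]; ring
  simp_rw [h]
  rw [Finset.sum_sub_distrib, Finset.sum_add_distrib, hp, hq, ← Finset.mul_sum]
  ring

theorem tv_le_one {p q : S → ℝ} (hp0 : ∀ x, 0 ≤ p x) (hq0 : ∀ x, 0 ≤ q x)
    (hp : ∑ x, p x = 1) (hq : ∑ x, q x = 1) : tv p q ≤ 1 := by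
  rw [tv_eq hp hq]
  have : 0 ≤ ∑ x, min (p x) (q x) := Finset.sum_nonneg fun x _ => le_min (hp0 x) (hq0 x)
  linarith

end tv

/-- urn `i` holds the `n` balls of colour `i` -/
def diagState (d n : ℕ) : State d n :=
  ⟨fun i a => if i = a then Fin.last n else 0, by
    constructor
    · intro i
      rw [Finset.sum_eq_single i]
      · simp
      · intro b _ hb
        simp [Ne.symm hb]
      · simp
    · intro i
      rw [Finset.sum_eq_single i]
      · simp
      · intro b _ hb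
        simp [hb]
      · simp⟩

theorem Pt_nonneg (hμ : Good μ) {t : ℝ} (ht : 0 ≤ t) (x y : State d n) : 0 ≤ Pt μ n t x y :=
  ex_nonneg (stepM_nonneg hμ) ht x y

theorem Pt_sum (hμ : Good μ) (hn : 1 ≤ n) (t : ℝ) (x : State d n) : ∑ y, Pt μ n t x y = 1 :=
  ex_sum (stepM_sum hμ hn) t x

theorem Pt_add (s t : ℝ) (x y : State d n) :
    Pt μ n (s + t) x y = ∑ z, Pt μ n s x z * Pt μ n t z y := by
  rw [Pt_eq, ex_add, Matrix.mul_apply]
  rfl

theorem worst_eq (π : State d n → ℝ) {t : ℝ} (ht : 0 ≤ t) :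
    worst μ n π t = ⨆ η : State d n, tv (Pt μ n t η) π := by
  unfold worst
  rw [max_eq_left ht]

theorem tv_le_worst (π : State d n → ℝ) {t : ℝ} (ht : 0 ≤ t) (η : State d n) :
    tv (Pt μ n t η) π ≤ worst μ n π t := by
  rw [worst_eq π ht]
  exact le_ciSup (f := fun η : State d n => tv (Pt μ n t η) π) (Set.finite_range _).bddAbove η

theorem worst_nonneg (π : State d n → ℝ) (t : ℝ) : 0 ≤ worst μ n π t :=
  Real.iSup_nonneg fun _ => tv_nonneg _ _

theorem worst_le {π : State d n → ℝ} {t b : ℝ} (hb : 0 ≤ b)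
    (h : ∀ η : State d n, tv (Pt μ n (max t 0) η) π ≤ b) : worst μ n π t ≤ b := by
  unfold worst
  exact Real.iSup_le h hb

theorem worst_le_one (hμ : Good μ) (hn : 1 ≤ n) {π : State d n → ℝ}
    (hπ : IsStationary μ n π) (t : ℝ) : worst μ n π t ≤ 1 :=
  worst_le zero_le_one fun η => tv_le_one (Pt_nonneg hμ (le_max_right _ _) η) hπ.nonneg
    (Pt_sum hμ hn _ η) hπ.sum_eq_one

/-- monotonicity -/
theorem worst_anti (hμ : Good μ) (hn : 1 ≤ n) {π : State d n → ℝ} {s t : ℝ} (hs : 0 ≤ s)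
    (hst : s ≤ t) : worst μ n π t ≤ worst μ n π s := by
  refine worst_le (worst_nonneg _ _) fun η => ?_
  rw [max_eq_left (hs.trans hst)]
  have h0 : 0 ≤ t - s := sub_nonneg.2 hst
  have e : ∀ y, Pt μ n t η y = ∑ z, Pt μ n (t - s) η z * Pt μ n s z y := by
    intro y
    rw [← Pt_add]
    congr 2
    ring
  have e2 : ∀ y, π y = ∑ z, Pt μ n (t - s) η z * π y := by
    intro y
    rw [← Finset.sum_mul, Pt_sum hμ hn, one_mul]
  have h1 : ∀ y, |Pt μ n t η y - π y| ≤
      ∑ z, Pt μ n (t - s) η z * |Pt μ n s z y - π y| := by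
    intro y
    have : Pt μ n t η y - π y = ∑ z, Pt μ n (t - s) η z * (Pt μ n s z y - π y) := by
      rw [e y]
      conv_lhs => rw [e2 y]
      rw [← Finset.sum_sub_distrib]
      exact Finset.sum_congr rfl fun z _ => by ring
    rw [this]
    refine (Finset.abs_sum_le_sum_abs _ _).trans (le_of_eq ?_)
    exact Finset.sum_congr rfl fun z _ => by
      rw [abs_mul, abs_of_nonneg (Pt_nonneg hμ h0 η z)]
  calc tv (Pt μ n t η) π ≤ (1 / 2) * ∑ y, ∑ z, Pt μ n (t - s) η z * |Pt μ n s z y - π y| := by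
        unfold tv
        have := Finset.sum_le_sum fun y (_ : y ∈ Finset.univ) => h1 y
        linarith
    _ = ∑ z, Pt μ n (t - s) η z * tv (Pt μ n s z) π := by
        rw [Finset.sum_comm, Finset.mul_sum]
        refine Finset.sum_congr rfl fun z _ => ?_
        unfold tv
        rw [← Finset.mul_sum]
        ring
    _ ≤ ∑ z, Pt μ n (t - s) η z * worst μ n π s :=
        Finset.sum_le_sum fun z _ =>
          mul_le_mul_of_nonneg_left (tv_le_worst π hs z) (Pt_nonneg hμ h0 η z)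
    _ = worst μ n π s := by rw [← Finset.sum_mul, Pt_sum hμ hn, one_mul]

theorem tmix_nonneg (π : State d n → ℝ) : 0 ≤ tmix μ n π :=
  Real.sInf_nonneg fun _ h => h.1

open Classical in
/-- mixtures of overlapping laws overlap -/
theorem mixture (hμ : Good μ) (hn : 1 ≤ n) {π : State d n → ℝ} (hπ : IsStationary μ n π)
    {K ε s t : ℝ} (hs : 0 ≤ s) (ht : 0 ≤ t) (hε : 0 ≤ ε) (η : State d n)
    (h1 : 3 / 4 ≤ ∑ x with InBall K x, Pt μ n s η x) (h2 : 3 / 4 ≤ ∑ x with InBall K x, π x)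
    (h : ∀ x x' : State d n, InBall K x → InBall K x' →
      ε ≤ ∑ y, min (Pt μ n t x y) (Pt μ n t x' y)) :
    9 / 16 * ε ≤ ∑ y, min (Pt μ n (s + t) η y) (π y) := by
  set B : Finset (State d n) := Finset.univ.filter fun x => InBall K x with hB
  have a1 : ∑ x, Pt μ n s η x = 1 := Pt_sum hμ hn _ _
  have a2 : ∑ x, π x = 1 := hπ.sum_eq_one
  have key : ∀ y, ∑ x, ∑ x', Pt μ n s η x * π x' * min (Pt μ n t x y) (Pt μ n t x' y) ≤
      min (Pt μ n (s + t) η y) (π y) := by
    intro y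
    refine le_min ?_ ?_
    · rw [Pt_add]
      refine Finset.sum_le_sum fun x _ => ?_
      calc ∑ x', Pt μ n s η x * π x' * min (Pt μ n t x y) (Pt μ n t x' y)
          ≤ ∑ x', Pt μ n s η x * π x' * Pt μ n t x y :=
            Finset.sum_le_sum fun x' _ => mul_le_mul_of_nonneg_left (min_le_left _ _)
              (mul_nonneg (Pt_nonneg hμ hs _ _) (hπ.nonneg _))
        _ = Pt μ n s η x * Pt μ n t x y := by
            rw [← Finset.sum_mul, ← Finset.mul_sum, a2, mul_one]
    · have e : π y = ∑ x', π x' * Pt μ n t x' y := (ex_stat hπ.stationary t y).symm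
      rw [e, Finset.sum_comm]
      refine Finset.sum_le_sum fun x' _ => ?_
      calc ∑ x, Pt μ n s η x * π x' * min (Pt μ n t x y) (Pt μ n t x' y)
          ≤ ∑ x, Pt μ n s η x * π x' * Pt μ n t x' y :=
            Finset.sum_le_sum fun x _ => mul_le_mul_of_nonneg_left (min_le_right _ _)
              (mul_nonneg (Pt_nonneg hμ hs _ _) (hπ.nonneg _))
        _ = π x' * Pt μ n t x' y := by
            rw [← Finset.sum_mul, ← Finset.sum_mul, a1, one_mul]
  calc 9 / 16 * ε = (3 / 4) * (3 / 4) * ε := by ring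
    _ ≤ (∑ x ∈ B, Pt μ n s η x) * (∑ x ∈ B, π x) * ε := by
        refine mul_le_mul_of_nonneg_right ?_ hε
        exact mul_le_mul h1 h2 (by norm_num) (le_trans (by norm_num) h1)
    _ = ∑ x ∈ B, ∑ x' ∈ B, Pt μ n s η x * π x' * ε := by
        rw [Finset.sum_mul_sum, Finset.sum_mul]
        exact Finset.sum_congr rfl fun x _ => by rw [Finset.sum_mul]
    _ ≤ ∑ x ∈ B, ∑ x' ∈ B, Pt μ n s η x * π x' *
          ∑ y, min (Pt μ n t x y) (Pt μ n t x' y) := by
        refine Finset.sum_le_sum fun x hx => Finset.sum_le_sum fun x' hx' => ?_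
        exact mul_le_mul_of_nonneg_left (h x x' (Finset.mem_filter.1 hx).2
          (Finset.mem_filter.1 hx').2) (mul_nonneg (Pt_nonneg hμ hs _ _) (hπ.nonneg _))
    _ ≤ ∑ x, ∑ x', Pt μ n s η x * π x' * ∑ y, min (Pt μ n t x y) (Pt μ n t x' y) := by
        have hnn : ∀ x x', 0 ≤ Pt μ n s η x * π x' * ∑ y, min (Pt μ n t x y) (Pt μ n t x' y) :=
          fun x x' => mul_nonneg (mul_nonneg (Pt_nonneg hμ hs _ _) (hπ.nonneg _))
            (Finset.sum_nonneg fun y _ => le_min (Pt_nonneg hμ ht _ _) (Pt_nonneg hμ ht _ _))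
        calc _ ≤ ∑ x ∈ B, ∑ x', Pt μ n s η x * π x' *
              ∑ y, min (Pt μ n t x y) (Pt μ n t x' y) :=
              Finset.sum_le_sum fun x _ => Finset.sum_le_sum_of_subset_of_nonneg
                (Finset.subset_univ _) fun x' _ _ => hnn x x'
          _ ≤ _ := Finset.sum_le_sum_of_subset_of_nonneg (Finset.subset_univ _)
                fun x _ _ => Finset.sum_nonneg fun x' _ => hnn x x'
    _ = ∑ y, ∑ x, ∑ x', Pt μ n s η x * π x' * min (Pt μ n t x y) (Pt μ n t x' y) := by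
        simp_rw [Finset.mul_sum]
        rw [Finset.sum_congr rfl fun x _ => Finset.sum_comm]
        exact Finset.sum_comm
    _ ≤ ∑ y, min (Pt μ n (s + t) η y) (π y) := Finset.sum_le_sum fun y _ => key y

/-- **Main theorem.** -/
theorem main (hd : 2 ≤ d) (hμ : Good μ) (π : ∀ n, State d n → ℝ)
    (hπ : ∀ n, 1 ≤ n → IsStationary μ n (π n)) :
    ¬ ∃ w : ℕ → ℝ, w =o[atTop] (fun n : ℕ => (n : ℝ)) ∧ HasCutoffWindow μ π w := by
  rintro ⟨w, hwn, -, h1, h2⟩
  obtain ⟨K, hK, hball⟩ := ball_prob hμ hd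
  obtain ⟨δ, ε, hδ0, hδ1, hε, n₁, hover⟩ := overlap hμ hd K hK
  obtain ⟨n₂, hearly⟩ := not_early hμ hd 2 (by norm_num)
  -- bounded
  have hb : ∀ u : ℕ → ℝ, ∀ᶠ n in atTop, worst μ n (π n) (u n) ≤ 1 := fun u => by
    filter_upwards [eventually_ge_atTop 1] with n hn
    exact worst_le_one hμ hn (hπ n hn) _
  have hb0 : ∀ u : ℕ → ℝ, ∀ᶠ n in atTop, 0 ≤ worst μ n (π n) (u n) := fun u =>
    Eventually.of_forall fun n => worst_nonneg _ _
  -- the set defining `tmix` is nonempty for large `n`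
  have hne : ∀ᶠ n : ℕ in atTop, ∃ t : ℝ, 0 ≤ t ∧ worst μ n (π n) t ≤ 1 / 4 := by
    have h3 : ∀ᶠ α : ℝ in atTop,
        limsup (fun n => worst μ n (π n) (tmix μ n (π n) + α * w n)) atTop < 1 / 4 :=
      h2.eventually (gt_mem_nhds (by norm_num))
    obtain ⟨α, hα⟩ := h3.exists
    have h4 := eventually_lt_of_limsup_lt hα
      (isBoundedUnder_of_eventually_le (hb fun n => tmix μ n (π n) + α * w n))
    filter_upwards [h4] with n hn
    refine ⟨max (tmix μ n (π n) + α * w n) 0, le_max_right _ _, ?_⟩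
    have e : worst μ n (π n) (max (tmix μ n (π n) + α * w n) 0) =
        worst μ n (π n) (tmix μ n (π n) + α * w n) := by
      unfold worst
      rw [max_eq_left (le_max_right (tmix μ n (π n) + α * w n) 0)]
    rw [e]
    exact hn.le
  -- the bound just before the mixing time
  have hkey : ∀ᶠ n : ℕ in atTop, ∀ t : ℝ, tmix μ n (π n) - n / 2 ≤ t →
      worst μ n (π n) t ≤ 1 - 9 / 16 * ε := by
    filter_upwards [hne, eventually_ge_atTop 1, eventually_ge_atTop n₁,
      eventually_ge_atTop n₂] with n hn hn1 hnn1 hnn2 t ht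
    have hnpos : (0 : ℝ) < n := by exact_mod_cast hn1
    obtain ⟨t', ⟨ht'0, ht'⟩, ht'lt⟩ := exists_lt_of_csInf_lt
      (s := {t : ℝ | 0 ≤ t ∧ worst μ n (π n) t ≤ 1 / 4}) hn
      (show sInf {t : ℝ | 0 ≤ t ∧ worst μ n (π n) t ≤ 1 / 4} < tmix μ n (π n) + n from by
        show tmix μ n (π n) < tmix μ n (π n) + n
        linarith)
    have htv : ∀ η : State d n, tv (Pt μ n t' η) (π n) ≤ 1 / 4 := fun η =>
      (tv_le_worst _ ht'0 η).trans ht'
    have hlate : 2 * (n : ℝ) < t' := hearly n hnn2 (π n) (hπ n hn1) t' ht'0 htv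
    obtain ⟨hb1, hb2⟩ := hball n hn1 (π n) (hπ n hn1) t' hlate.le htv
    have hs0 : 0 ≤ t' - 2 * n := by linarith
    have hδn : 0 ≤ δ * n := by positivity
    set s1 : ℝ := (t' - 2 * n) + δ * n with hs1
    have hs1t : s1 ≤ t := by
      have : δ * n ≤ 1 / 2 * n := mul_le_mul_of_nonneg_right hδ1 hnpos.le
      rw [hs1]
      linarith
    have hs10 : 0 ≤ s1 := add_nonneg hs0 hδn
    have hov : ∀ η : State d n, tv (Pt μ n s1 η) (π n) ≤ 1 - 9 / 16 * ε := by
      intro η
      rw [tv_eq (Pt_sum hμ hn1 _ _) (hπ n hn1).sum_eq_one]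
      have := mixture hμ hn1 (hπ n hn1) hs0 hδn hε.le η (hb1 η) hb2 (hover n hnn1)
      rw [hs1]
      linarith
    have hε1 : 0 ≤ 1 - 9 / 16 * ε := by
      exact (tv_nonneg _ _).trans (hov (diagState d n))
    calc worst μ n (π n) t ≤ worst μ n (π n) s1 := worst_anti hμ hn1 hs10 hs1t
      _ ≤ 1 - 9 / 16 * ε := worst_le hε1 fun η => by
          rw [max_eq_left hs10]
          exact hov η
  -- contradiction with the lower limit
  have h5 : ∀ᶠ α : ℝ in atTop,
      liminf (fun n => worst μ n (π n) (tmix μ n (π n) - α * w n)) atTop ≤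
        1 - 9 / 16 * ε := by
    filter_upwards [eventually_gt_atTop (0 : ℝ)] with α hα
    refine liminf_le_of_frequently_le ?_
      (isBoundedUnder_of_eventually_ge (hb0 fun n => tmix μ n (π n) - α * w n))
    apply Eventually.frequently
    have h6 := hwn.def (c := 1 / (2 * α)) (by positivity)
    filter_upwards [hkey, h6] with n hn hwn'
    apply hn
    rw [Real.norm_of_nonneg (Nat.cast_nonneg n)] at hwn'
    have : α * w n ≤ n / 2 := by
      calc α * w n ≤ α * (1 / (2 * α) * n) :=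
            mul_le_mul_of_nonneg_left ((Real.le_norm_self _).trans hwn') hα.le
        _ = n / 2 := by field_simp
    linarith
  have h7 := le_of_tendsto h1 h5
  linarith

end Pool.Agent.T2H73.BL
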