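import Mathlib

/-!
# Package PO: Poisson weights near the mean (pure Mathlib)
-/

set_option autoImplicit false

namespace Pool.Agent.T2H73.BL

open Filter Topology
open scoped BigOperators

/-- Chebyshev for the Poisson law: `∑ p_k = 1`, `∑ k p_k = λ`, `∑ k (k - 1) p_k = λ²`, so
`∑ (k - λ)² p_k = λ`, and the mass of `|k - λ| > λ / 2` is at most `4 / λ ≤ 1/2` for `λ ≥ 8`. -/
theorem poisson_mass (l : ℝ) (hl : 8 ≤ l) :
    1 / 2 ≤ ∑ k ∈ Finset.Icc ⌈l / 2⌉₊ ⌊2 * l⌋₊, Real.exp (-l) * l ^ k / k.factorial := by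
  have hl0 : 0 < l := by linarith
  have h0 : HasSum (fun k : ℕ => l ^ k / (k.factorial : ℝ)) (Real.exp l) := by
    have h := NormedSpace.expSeries_div_hasSum_exp (𝔸 := ℝ) l
    rwa [← Real.exp_eq_exp_ℝ] at h
  have h1 : HasSum (fun k : ℕ => (k : ℝ) * (l ^ k / (k.factorial : ℝ))) (l * Real.exp l) := by
    have h := (hasSum_nat_add_iff (f := fun k : ℕ => (k : ℝ) * (l ^ k / (k.factorial : ℝ))) 1
      (g := l * Real.exp l)).1 (by
        refine (h0.mul_left l).congr_fun ?_
        intro k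
        have hk : ((k : ℝ) + 1) ≠ 0 := by positivity
        have hf : (k.factorial : ℝ) ≠ 0 := by positivity
        push_cast [Nat.factorial_succ]
        field_simp
        ring)
    simpa using h
  have h2 : HasSum (fun k : ℕ => (k : ℝ) * ((k : ℝ) - 1) * (l ^ k / (k.factorial : ℝ)))
      (l ^ 2 * Real.exp l) := by
    have h := (hasSum_nat_add_iff
      (f := fun k : ℕ => (k : ℝ) * ((k : ℝ) - 1) * (l ^ k / (k.factorial : ℝ))) 2
      (g := l ^ 2 * Real.exp l)).1 (by
        refine (h0.mul_left (l ^ 2)).congr_fun ?_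
        intro k
        have hk : ((k : ℝ) + 1) ≠ 0 := by positivity
        have hk2 : ((k : ℝ) + 2) ≠ 0 := by positivity
        have hf : (k.factorial : ℝ) ≠ 0 := by positivity
        have e : ((k + 2).factorial : ℝ) = ((k : ℝ) + 2) * (((k : ℝ) + 1) * k.factorial) := by
          rw [Nat.factorial_succ, Nat.factorial_succ]
          push_cast
          ring
        rw [e]
        push_cast
        field_simp
        ring)
    simpa [Finset.sum_range_succ] using h
  have h3 : HasSum (fun k : ℕ => Real.exp (-l) * l ^ k / (k.factorial : ℝ) *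
      (1 - 4 / l ^ 2 * ((k : ℝ) - l) ^ 2)) (1 - 4 / l) := by
    have h := (((h0.mul_left (1 - 4 : ℝ)).sub ((h2.add h1).mul_left (4 / l ^ 2))).add
      (h1.mul_left (8 / l))).mul_left (Real.exp (-l))
    have e1 : Real.exp (-l) * ((1 - 4 : ℝ) * Real.exp l -
        4 / l ^ 2 * (l ^ 2 * Real.exp l + l * Real.exp l) + 8 / l * (l * Real.exp l)) =
        1 - 4 / l := by
      have : Real.exp (-l) * Real.exp l = 1 := by rw [← Real.exp_add]; simp
      have h5 : Real.exp (-l) * ((1 - 4 : ℝ) * Real.exp l -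
        4 / l ^ 2 * (l ^ 2 * Real.exp l + l * Real.exp l) + 8 / l * (l * Real.exp l)) =
        (Real.exp (-l) * Real.exp l) * ((1 - 4) - 4 / l ^ 2 * (l ^ 2 + l) + 8 / l * l) := by ring
      rw [h5, this]
      field_simp
      ring
    rw [e1] at h
    refine h.congr_fun ?_
    intro k
    have hf : (k.factorial : ℝ) ≠ 0 := by positivity
    field_simp
    ring
  have h4 : 1 - 4 / l ≤ ∑ k ∈ Finset.Icc ⌈l / 2⌉₊ ⌊2 * l⌋₊, Real.exp (-l) * l ^ k / k.factorial := by
    have hs : HasSum (fun k : ℕ => if k ∈ Finset.Icc ⌈l / 2⌉₊ ⌊2 * l⌋₊ then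
        Real.exp (-l) * l ^ k / (k.factorial : ℝ) else 0)
        (∑ k ∈ Finset.Icc ⌈l / 2⌉₊ ⌊2 * l⌋₊, Real.exp (-l) * l ^ k / k.factorial) := by
      have := hasSum_sum_of_ne_finset_zero (f := fun k : ℕ => if k ∈ Finset.Icc ⌈l / 2⌉₊ ⌊2 * l⌋₊ then
        Real.exp (-l) * l ^ k / (k.factorial : ℝ) else 0) (s := Finset.Icc ⌈l / 2⌉₊ ⌊2 * l⌋₊)
        (L := SummationFilter.unconditional ℕ) (by intro b hb; simp only [if_neg hb])
      rwa [Finset.sum_ite_mem, Finset.inter_self] at this
    refine hasSum_le ?_ h3 hs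
    intro k
    have hw : 0 ≤ Real.exp (-l) * l ^ k / (k.factorial : ℝ) := by positivity
    by_cases hk : k ∈ Finset.Icc ⌈l / 2⌉₊ ⌊2 * l⌋₊
    · simp only [if_pos hk]
      have : 0 ≤ 4 / l ^ 2 * ((k : ℝ) - l) ^ 2 := by positivity
      nlinarith
    · simp only [if_neg hk]
      have h5 : 1 ≤ 4 / l ^ 2 * ((k : ℝ) - l) ^ 2 := by
        have h6 : (l / 2) ^ 2 ≤ ((k : ℝ) - l) ^ 2 := by
          rw [Finset.mem_Icc, not_and_or] at hk
          rcases hk with hk | hk
          · have h7 : (k : ℝ) < l / 2 := by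
              have := Nat.lt_ceil.1 (not_le.1 hk)
              exact this
            have h8 : (k : ℝ) - l < 0 := by linarith
            nlinarith
          · have h7 : 2 * l < k := by
              have := (Nat.floor_lt (by positivity)).1 (not_le.1 hk)
              exact this
            nlinarith
        rw [div_mul_eq_mul_div, le_div_iff₀ (by positivity)]
        nlinarith
      nlinarith
  have h5 : 4 / l ≤ 1 / 2 := by
    rw [div_le_iff₀ hl0]
    linarith
  linarith

end Pool.Agent.T2H73.BL
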