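import Pool.Agent.T2H73.BL.JB
import Pool.Agent.T2H73.BL.Ideal
import Pool.Agent.T2H73.BL.Pois
import Pool.Agent.T2H73.BL.Ball

/-!
# Package OP (helper73): the chains from two states of the ball overlap after time `δ n`
-/

set_option autoImplicit false

namespace Pool.Agent.T2H73.BL

open Filter Topology
open scoped BigOperators

variable {d : ℕ} {μ : Equiv.Perm (Fin d) → ℝ}

theorem toZ_row {n : ℕ} (x : State d n) (i : Fin d) : ∑ a, x.toZ i a = n := by
  have h := x.2.1 i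
  unfold State.toZ
  exact_mod_cast h

theorem toZ_col {n : ℕ} (x : State d n) (a : Fin d) : ∑ i, x.toZ i a = n := by
  have h := x.2.2 a
  unfold State.toZ
  exact_mod_cast h

theorem toZ_cast {n : ℕ} (x : State d n) (i a : Fin d) :
    ((x.toZ i a : ℤ) : ℝ) = ((x.1 i a : ℕ) : ℝ) := by
  unfold State.toZ
  push_cast
  rfl

theorem nsq_le {n : ℕ} {K : ℝ} (x : State d n) (hx : InBall K x) :
    nsq n x.toZ ≤ (d : ℝ) ^ 2 * K ^ 2 * n := by
  unfold nsq
  have h : ∀ i a, ((x.toZ i a : ℝ) - n / d) ^ 2 ≤ K ^ 2 * n := by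
    intro i a
    rw [toZ_cast]
    have h1 := hx i a
    have h2 : (((x.1 i a : ℕ) : ℝ) - n / d) ^ 2 ≤ (K * √n) ^ 2 := by
      rw [← sq_abs]
      exact pow_le_pow_left₀ (abs_nonneg _) h1 2
    rwa [mul_pow, Real.sq_sqrt (Nat.cast_nonneg n)] at h2
  calc ∑ i, ∑ a, ((x.toZ i a : ℝ) - n / d) ^ 2 ≤ ∑ _i : Fin d, ∑ _a : Fin d, K ^ 2 * n :=
        Finset.sum_le_sum fun i _ => Finset.sum_le_sum fun a _ => h i a
    _ = (d : ℝ) ^ 2 * K ^ 2 * n := by
        simp
        ring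

theorem overlap (hμ : Good μ) (hd : 2 ≤ d) (K : ℝ) (hK : 0 < K) : ∃ δ ε : ℝ, 0 < δ ∧ δ ≤ 1 / 2 ∧
    0 < ε ∧ ∃ n₀ : ℕ, ∀ n : ℕ, n₀ ≤ n → ∀ x x' : State d n, InBall K x → InBall K x' →
      ε ≤ ∑ y, min (Pt μ n (δ * n) x y) (Pt μ n (δ * n) x' y) := by
  have hd1 : 1 ≤ d := by omega
  have hdR : (2 : ℝ) ≤ d := by exact_mod_cast hd
  have hd0 : (0 : ℝ) < d := by linarith
  obtain ⟨δJ, hδJ, hJ⟩ := Jk_mass hμ hd1
  set δ : ℝ := min (δJ / 2) (1 / (16 * d)) with hδdef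
  have hδ : 0 < δ := lt_min (by positivity) (by positivity)
  have hδ1 : δ ≤ δJ / 2 := min_le_left _ _
  have hδ2 : δ ≤ 1 / (16 * d) := min_le_right _ _
  have hδ3 : δ ≤ 1 / 2 := by
    refine hδ2.trans ?_
    rw [div_le_div_iff₀ (by positivity) (by norm_num)]
    linarith
  obtain ⟨εI, hεI, k₀, hI⟩ := ideal_overlap hμ hd (8 * K ^ 2 / δ) (by positivity)
  set B : ℝ := Real.exp (1 + (d : ℝ) ^ 2 * K ^ 2) with hB
  have hB0 : 0 < B := Real.exp_pos _
  set ε1 : ℝ := εI ^ 2 / (2 * B) with hε1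
  have hε10 : 0 < ε1 := by positivity
  obtain ⟨n₁, hn₁⟩ := exists_nat_ge (max (8 / δ) (max (2 * k₀ / δ) (max ((4 * d * K) ^ 2) 1)))
  refine ⟨δ, ε1 / 2, hδ, hδ3, by positivity, n₁, ?_⟩
  intro n hn x x' hx hx'
  have hnR : max (8 / δ) (max (2 * k₀ / δ) (max ((4 * d * K) ^ 2) 1)) ≤ (n : ℝ) :=
    hn₁.trans (by exact_mod_cast hn)
  have a1 : 8 / δ ≤ (n : ℝ) := (le_max_left _ _).trans hnR
  have a2 : 2 * k₀ / δ ≤ (n : ℝ) := ((le_max_left _ _).trans (le_max_right _ _)).trans hnR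
  have a3 : (4 * d * K) ^ 2 ≤ (n : ℝ) :=
    (((le_max_left _ _).trans (le_max_right _ _)).trans (le_max_right _ _)).trans hnR
  have a4 : (1 : ℝ) ≤ n :=
    (((le_max_right _ _).trans (le_max_right _ _)).trans (le_max_right _ _)).trans hnR
  have hn1 : 1 ≤ n := by exact_mod_cast a4
  have hn0 : (0 : ℝ) < n := by linarith
  have hδn8 : 8 ≤ δ * n := by
    rw [div_le_iff₀ hδ] at a1
    linarith
  -- `K √n ≤ n / (4 d)`
  have hKn : K * √n ≤ n / (4 * d) := by
    have h1 : 4 * d * K ≤ √n := Real.le_sqrt_of_sq_le a3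
    have h2 : √n * √n = n := Real.mul_self_sqrt hn0.le
    rw [le_div_iff₀ (by positivity)]
    calc K * √n * (4 * d) = (4 * d * K) * √n := by ring
      _ ≤ √n * √n := mul_le_mul_of_nonneg_right h1 (Real.sqrt_nonneg _)
      _ = n := h2
  have hδn : 2 * (δ * n) ≤ n / (8 * d) := by
    have : δ * n ≤ 1 / (16 * d) * n := mul_le_mul_of_nonneg_right hδ2 hn0.le
    calc 2 * (δ * n) ≤ 2 * (1 / (16 * d) * n) := by linarith
      _ = n / (8 * d) := by field_simp; norm_num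
  -- the range of `k`
  have hk : ∀ k ∈ Finset.Icc ⌈δ * n / 2⌉₊ ⌊2 * (δ * n)⌋₊,
      ε1 ≤ ∑ y, min ((stepM μ n ^ k) x y) ((stepM μ n ^ k) x' y) := by
    intro k hk
    rw [Finset.mem_Icc] at hk
    have k1 : δ * n / 2 ≤ k := (Nat.le_ceil _).trans (by exact_mod_cast hk.1)
    have k2 : (k : ℝ) ≤ 2 * (δ * n) :=
      le_trans (by exact_mod_cast hk.2) (Nat.floor_le (by positivity))
    have k3 : (k : ℝ) ≤ δJ * n := by
      have : δ * n ≤ δJ / 2 * n := mul_le_mul_of_nonneg_right hδ1 hn0.le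
      linarith
    have k4 : (k : ℝ) ≤ n / (8 * d) := k2.trans hδn
    have k5 : k₀ ≤ k := by
      rw [div_le_iff₀ hδ] at a2
      have : (k₀ : ℝ) ≤ k := by linarith
      exact_mod_cast this
    have e8 : (n : ℝ) / (8 * d) = n / d / 8 := by field_simp
    have e4 : (n : ℝ) / (4 * d) = n / d / 4 := by field_simp
    have e2 : (n : ℝ) / (2 * d) = n / d / 2 := by field_simp
    have hnd : 0 < (n : ℝ) / d := by positivity
    rw [e8] at k4
    have hKn' := hKn
    rw [e4] at hKn'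
    have low : ∀ z : State d n, InBall K z → ∀ i a, (k : ℤ) ≤ z.toZ i a := by
      intro z hz i a
      have h1 := (abs_le.1 (hz i a)).1
      have h2 : (k : ℝ) ≤ ((z.toZ i a : ℤ) : ℝ) := by
        rw [toZ_cast]
        linarith
      exact_mod_cast h2
    have near : ∀ z : State d n, InBall K z → ∀ i a,
        |((z.toZ i a : ℤ) : ℝ) - n / d| ≤ n / (2 * d) - k := by
      intro z hz i a
      rw [toZ_cast, e2]
      have h1 := hz i a
      linarith
    have mass : ∀ z : State d n, InBall K z → ∀ Y : Finset (Sq d),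
        ∑ y ∈ Y, Jk μ n k z.toZ y ≤ B := by
      intro z hz Y
      refine (hJ n hn1 k k3 z.toZ (toZ_row z) (near z hz) Y).trans ?_
      rw [hB]
      apply Real.exp_le_exp.2
      have : nsq n z.toZ / n ≤ (d : ℝ) ^ 2 * K ^ 2 := by
        rw [div_le_iff₀ hn0]
        exact nsq_le z hz
      linarith
    have hdiff : ∀ i a, ((x'.toZ i a - x.toZ i a : ℤ) : ℝ) ^ 2 ≤ 8 * K ^ 2 / δ * k := by
      intro i a
      push_cast
      rw [toZ_cast, toZ_cast]
      have h1 := abs_le.1 (hx i a)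
      have h2 := abs_le.1 (hx' i a)
      have h3 : |((x'.1 i a : ℕ) : ℝ) - ((x.1 i a : ℕ) : ℝ)| ≤ 2 * (K * √n) := by
        rw [abs_le]
        constructor <;> linarith [h1.1, h1.2, h2.1, h2.2]
      have h4 : (((x'.1 i a : ℕ) : ℝ) - ((x.1 i a : ℕ) : ℝ)) ^ 2 ≤ (2 * (K * √n)) ^ 2 := by
        rw [← sq_abs]
        exact pow_le_pow_left₀ (abs_nonneg _) h3 2
      have h5 : (2 * (K * √n)) ^ 2 = 4 * K ^ 2 * n := by
        rw [mul_pow, mul_pow, Real.sq_sqrt hn0.le]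
        ring
      calc _ ≤ 4 * K ^ 2 * n := by rw [← h5]; exact h4
        _ = 8 * K ^ 2 / δ * (δ * n / 2) := by field_simp; norm_num
        _ ≤ 8 * K ^ 2 / δ * k := mul_le_mul_of_nonneg_left k1 (by positivity)
    obtain ⟨Y, hY⟩ := hI k k5 x.toZ x'.toZ
      (fun i => by rw [toZ_row, toZ_row]) (fun a => by rw [toZ_col, toZ_col]) hdiff
    have h1 := overlap_T hμ hd1 hn1 k x.toZ x'.toZ (low x hx) (low x' hx') Y hεI.le hB0 hY
      (mass x hx Y) (mass x' hx' Y)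
    exact h1.trans (overlap_P hμ hd1 k x x' Y)
  -- Poissonisation
  set l : ℝ := δ * n with hl
  have hl0 : 0 ≤ l := by linarith
  set p : ℕ → ℝ := fun k => Real.exp (-l) * l ^ k / k.factorial with hp
  have hp0 : ∀ k, 0 ≤ p k := fun k => by
    rw [hp]
    positivity
  have hpow : ∀ (k : ℕ) (u v : State d n), 0 ≤ (stepM μ n ^ k) u v := by
    intro k
    induction k with
    | zero =>
      intro u v
      rw [pow_zero, Matrix.one_apply]
      split_ifs <;> norm_num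
    | succ k ih =>
      intro u v
      rw [pow_succ, Matrix.mul_apply]
      exact Finset.sum_nonneg fun z _ => mul_nonneg (ih u z) (stepM_nonneg hμ z v)
  set I : Finset ℕ := Finset.Icc ⌈l / 2⌉₊ ⌊2 * l⌋₊ with hIdef
  have hlow : ∀ u v : State d n, ∑ k ∈ I, p k * (stepM μ n ^ k) u v ≤ Pt μ n l u v := by
    intro u v
    exact sum_le_hasSum I (fun k _ => mul_nonneg (hp0 k) (hpow k u v))
      (ex_series (stepM μ n) l u v)
  have hmin : ∀ y, ∑ k ∈ I, p k * min ((stepM μ n ^ k) x y) ((stepM μ n ^ k) x' y) ≤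
      min (Pt μ n l x y) (Pt μ n l x' y) := by
    intro y
    refine le_min ?_ ?_
    · exact (Finset.sum_le_sum fun k _ => mul_le_mul_of_nonneg_left (min_le_left _ _)
        (hp0 k)).trans (hlow x y)
    · exact (Finset.sum_le_sum fun k _ => mul_le_mul_of_nonneg_left (min_le_right _ _)
        (hp0 k)).trans (hlow x' y)
  calc ε1 / 2 = 1 / 2 * ε1 := by ring
    _ ≤ (∑ k ∈ I, p k) * ε1 :=
        mul_le_mul_of_nonneg_right (poisson_mass l hδn8) hε10.le
    _ = ∑ k ∈ I, p k * ε1 := by rw [Finset.sum_mul]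
    _ ≤ ∑ k ∈ I, p k * ∑ y, min ((stepM μ n ^ k) x y) ((stepM μ n ^ k) x' y) :=
        Finset.sum_le_sum fun k hk' => mul_le_mul_of_nonneg_left (hk k hk') (hp0 k)
    _ = ∑ y, ∑ k ∈ I, p k * min ((stepM μ n ^ k) x y) ((stepM μ n ^ k) x' y) := by
        rw [Finset.sum_comm]
        exact Finset.sum_congr rfl fun k _ => by rw [Finset.mul_sum]
    _ ≤ ∑ y, min (Pt μ n l x y) (Pt μ n l x' y) := Finset.sum_le_sum fun y _ => hmin y

end Pool.Agent.T2H73.BL
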