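import Pool.Agent.T2H73.BL.Lin
import Pool.Agent.T2H73.BL.Osc
import Pool.Agent.T2H73.BL.ExpoVar

/-!
# Package VA: variances are at most `C n`
-/

set_option autoImplicit false

namespace Pool.Agent.T2H73.BL

open Filter Topology
open scoped BigOperators

variable {d : ℕ} {μ : Equiv.Perm (Fin d) → ℝ}

/-- `variance_le` with `P = stepM`, `g = lin n a v`, `ex P r g = lin n a (ex (U μ) (r / n) v)`
(`Pt_lin`), `gamma_lin` with `m` = the average of `v`, `o = 2 C exp (-c r / n)` (`osc_decay`): the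
constant is `A = (2 d C)²`, the rate `2 c / n`, so the variance is at most
`(2 d C)² n / (2 c)`. -/
theorem variance_Pt (hμ : Good μ) : ∃ C : ℝ, 0 < C ∧ ∀ n : ℕ, 1 ≤ n → ∀ t : ℝ, 0 ≤ t →
    ∀ (η : State d n) (a : Fin d) (v : Fin d → ℝ), (∀ i, |v i| ≤ 1) →
      ∑ y, Pt μ n t η y * (lin n a v y - lin n a ((ex (U μ) (t / n)).mulVec v) η) ^ 2 ≤
        C * n := by
  obtain ⟨C, c, hC, hc, hosc⟩ := osc_decay hμ
  refine ⟨(2 * d * C) ^ 2 / (2 * c) + 1, by positivity, ?_⟩
  intro n hn t ht η a v hv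
  have hn0 : (0 : ℝ) < n := by exact_mod_cast hn
  have hP : ∀ x y, 0 ≤ stepM μ n x y := stepM_nonneg hμ
  have hP1 : ∀ x, ∑ y, stepM μ n x y = 1 := stepM_sum hμ hn
  have hlin : ∀ r, (ex (stepM μ n) r).mulVec (lin n a v) =
      lin n a ((ex (U μ) (r / n)).mulVec v) := fun r => by
    rw [← Pt_eq]; exact Pt_lin hμ hn a v r
  have h := variance_le2 hP hP1 (lin n a v) (t := t) (A := (2 * d * C) ^ 2) (c := 2 * c / n) ht
    (by positivity) (by positivity) (fun r hr _ x => by
      rw [hlin]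
      have h1 := gamma_lin hμ hn a ((ex (U μ) (r / n)).mulVec v) ((∑ j, v j) / d)
        (2 * (C * Real.exp (-c * (r / n)))) (fun i => by
          have := hosc (r / n) (by positivity) v hv i
          linarith) x
      refine h1.trans (le_of_eq ?_)
      have e : Real.exp (-(2 * c / n) * r) = Real.exp (-c * (r / n)) ^ 2 := by
        rw [← Real.exp_nat_mul]
        congr 1
        push_cast
        ring
      rw [e]
      ring) η
  rw [hlin] at h
  rw [Pt_eq]
  refine h.trans ?_
  have e : (2 * (d : ℝ) * C) ^ 2 / (2 * c / n) = (2 * d * C) ^ 2 / (2 * c) * n := by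
    field_simp
  rw [e, add_mul]
  linarith

/-- The same for a stationary law `π`, around `n` times the average of `v`: `π = π Pt` for all `t`
(`ex_stat`), `(lin v y - m)² ≤ 2 (lin v y - m_t(η))² + 2 (m_t(η) - m)²`, and
`m_t(η) = lin n a (ex (U μ) (t/n) v) η → m = n * avg v` as `t → ∞` (`osc_decay`; the column sum
`∑ i, N i a` is `n`). -/
theorem variance_stat (hμ : Good μ) : ∃ C : ℝ, 0 < C ∧ ∀ n : ℕ, 1 ≤ n →
    ∀ π : State d n → ℝ, IsStationary μ n π → ∀ (a : Fin d) (v : Fin d → ℝ), (∀ i, |v i| ≤ 1) →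
      ∑ y, π y * (lin n a v y - n * ((∑ j, v j) / d)) ^ 2 ≤ C * n := by
  obtain ⟨C₁, hC₁, hvar⟩ := variance_Pt hμ
  obtain ⟨C, c, hC, hc, hosc⟩ := osc_decay hμ
  refine ⟨2 * C₁ + 2, by positivity, ?_⟩
  intro n hn π hπ a v hv
  have hn0 : (0 : ℝ) < n := by exact_mod_cast hn
  have hn1 : (1 : ℝ) ≤ n := by exact_mod_cast hn
  set M : ℝ := n * ((∑ j, v j) / d) with hM
  set t : ℝ := n / c * Real.log (C * n + 1) with ht
  have hCn : 0 < C * n := by positivity
  have ht0 : 0 ≤ t := by
    have : 0 ≤ Real.log (C * n + 1) := Real.log_nonneg (by linarith)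
    positivity
  have hexp : C * Real.exp (-c * (t / n)) * n ≤ 1 := by
    have e : -c * (t / n) = -Real.log (C * n + 1) := by
      rw [ht]
      field_simp
    rw [e, Real.exp_neg, Real.exp_log (by linarith)]
    have e2 : C * (C * n + 1)⁻¹ * n = C * n / (C * n + 1) := by
      field_simp
    rw [e2, div_le_one (by linarith)]
    linarith
  -- the mean at time `t`
  have hmean : ∀ x : State d n, (lin n a ((ex (U μ) (t / n)).mulVec v) x - M) ^ 2 ≤ 1 := by
    intro x
    have hcol : ∑ i, ((x.1 i a : ℕ) : ℝ) = n := by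
      have := x.2.2 a
      exact_mod_cast this
    have e : lin n a ((ex (U μ) (t / n)).mulVec v) x - M =
        ∑ i, ((ex (U μ) (t / n)).mulVec v i - (∑ j, v j) / d) * ((x.1 i a : ℕ) : ℝ) := by
      rw [lin_apply, hM]
      simp_rw [sub_mul]
      rw [Finset.sum_sub_distrib, ← Finset.mul_sum, hcol]
      ring
    have h1 : |lin n a ((ex (U μ) (t / n)).mulVec v) x - M| ≤ 1 := by
      rw [e]
      refine (Finset.abs_sum_le_sum_abs _ _).trans ?_
      calc ∑ i, |((ex (U μ) (t / n)).mulVec v i - (∑ j, v j) / d) * ((x.1 i a : ℕ) : ℝ)|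
          ≤ ∑ i, C * Real.exp (-c * (t / n)) * ((x.1 i a : ℕ) : ℝ) := by
            refine Finset.sum_le_sum fun i _ => ?_
            rw [abs_mul, abs_of_nonneg (Nat.cast_nonneg (α := ℝ) (x.1 i a : ℕ))]
            exact mul_le_mul_of_nonneg_right (hosc (t / n) (by positivity) v hv i)
              (Nat.cast_nonneg _)
        _ = C * Real.exp (-c * (t / n)) * n := by rw [← Finset.mul_sum, hcol]
        _ ≤ 1 := hexp
    rw [← sq_abs]
    exact pow_le_one₀ (abs_nonneg _) h1
  have hstat := ex_stat hπ.stationary t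
  have hnn : ∀ x y, 0 ≤ Pt μ n t x y := fun x y => ex_nonneg (stepM_nonneg hμ) ht0 x y
  have hsum : ∀ x, ∑ y, Pt μ n t x y = 1 := fun x => ex_sum (stepM_sum hμ hn) t x
  calc ∑ y, π y * (lin n a v y - M) ^ 2
      = ∑ y, (∑ x, π x * Pt μ n t x y) * (lin n a v y - M) ^ 2 := by
        refine Finset.sum_congr rfl fun y _ => ?_
        rw [Pt_eq, hstat y]
    _ = ∑ x, π x * ∑ y, Pt μ n t x y * (lin n a v y - M) ^ 2 := by
        simp_rw [Finset.sum_mul, Finset.mul_sum]
        rw [Finset.sum_comm]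
        exact Finset.sum_congr rfl fun x _ => Finset.sum_congr rfl fun y _ => by ring
    _ ≤ ∑ x, π x * (2 * (C₁ * n) + 2) := by
        refine Finset.sum_le_sum fun x _ => mul_le_mul_of_nonneg_left ?_ (hπ.nonneg x)
        set m := lin n a ((ex (U μ) (t / n)).mulVec v) x with hm
        calc ∑ y, Pt μ n t x y * (lin n a v y - M) ^ 2
            ≤ ∑ y, (2 * (Pt μ n t x y * (lin n a v y - m) ^ 2) + Pt μ n t x y * 2) := by
              refine Finset.sum_le_sum fun y _ => ?_
              have h1 := hmean x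
              have h2 := hnn x y
              have h3 : (lin n a v y - M) ^ 2 ≤ 2 * (lin n a v y - m) ^ 2 + 2 := by
                nlinarith [sq_nonneg ((lin n a v y - m) - (m - M))]
              nlinarith [mul_le_mul_of_nonneg_left h3 h2]
          _ = 2 * (∑ y, Pt μ n t x y * (lin n a v y - m) ^ 2) + 2 := by
              rw [Finset.sum_add_distrib, ← Finset.mul_sum, ← Finset.sum_mul, hsum, one_mul]
          _ ≤ 2 * (C₁ * n) + 2 := by
              have := hvar n hn t ht0 x a v hv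
              linarith
    _ = 2 * (C₁ * n) + 2 := by rw [← Finset.sum_mul, hπ.sum_eq_one, one_mul]
    _ ≤ (2 * C₁ + 2) * n := by nlinarith

end Pool.Agent.T2H73.BL
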